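import Pool.Agent.WittPrimes.Defs

/-!
# The map `Θ : U(W) → U(W_{≥ -1})((x))` and surjectivity of restriction on primes

`Θ (e_n) = ∑_{i ≥ 0} C(n+1, i) x^{i-n-1} e_{i-1}`, i.e. `t^{n+1} d/dt ↦ (t + λ)^{n+1} d/dt`
expanded at `λ = ∞`, `x = 1/λ`.
-/

namespace Pool.WittPrimes

open Finset

attribute [local instance 100] LieRing.ofAssociativeRing

section binom

/-- `j C(r, j) = r C(r-1, j-1)` -/
theorem choose_absorb (r : ℤ) (j : ℕ) :
    ((j : ℤ) + 1) * Ring.choose (r + 1) (j + 1) = (r + 1) * Ring.choose r j := by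
  have h := Ring.choose_smul_choose (r + 1) (n := j + 1) (k := 1) (by omega)
  rw [Nat.choose_one_right, Ring.choose_one_right, nsmul_eq_mul] at h
  push_cast at h
  simpa using h

theorem vander (m n : ℤ) (N : ℕ) :
    ∑ ij ∈ antidiagonal (N + 1), Ring.choose (m + 1) ij.1 * Ring.choose (n + 1) ij.2 *
      ((ij.2 : ℤ) - ij.1) = (n - m) * Ring.choose (m + n + 1) N := by
  have h1 : ∑ ij ∈ antidiagonal (N + 1), Ring.choose (m + 1) ij.1 * Ring.choose (n + 1) ij.2 *
      (ij.2 : ℤ) = (n + 1) * Ring.choose (m + n + 1) N := by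
    rw [Finset.Nat.sum_antidiagonal_succ']
    have e : m + n + 1 = (m + 1) + n := by ring
    rw [e, Ring.add_choose_eq N (Commute.all _ _), Finset.mul_sum]
    simp only [Nat.cast_zero, mul_zero, zero_add]
    refine Finset.sum_congr rfl fun ij _ => ?_
    have := choose_absorb n ij.2
    push_cast
    linear_combination (Ring.choose (m + 1) ij.1) * this
  have h2 : ∑ ij ∈ antidiagonal (N + 1), Ring.choose (m + 1) ij.1 * Ring.choose (n + 1) ij.2 *
      (ij.1 : ℤ) = (m + 1) * Ring.choose (m + n + 1) N := by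
    rw [Finset.Nat.sum_antidiagonal_succ]
    have e : m + n + 1 = m + (n + 1) := by ring
    rw [e, Ring.add_choose_eq N (Commute.all _ _), Finset.mul_sum]
    simp only [Nat.cast_zero, mul_zero, zero_add]
    refine Finset.sum_congr rfl fun ij _ => ?_
    have := choose_absorb m ij.1
    push_cast
    linear_combination (Ring.choose (n + 1) ij.2) * this
  simp only [mul_sub, Finset.sum_sub_distrib]
  rw [h1, h2]; ring

end binom

section series

variable {k : Type*} [Field k] {U : Type*} [Ring U] [Algebra k U]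

/-- binomial coefficients in `k` -/
noncomputable def bc (k : Type*) [Field k] (n : ℤ) (i : ℕ) : k := ((Ring.choose (n + 1) i : ℤ) : k)

/-- `∑ C(n+1,i) x^i e_{i-1}` -/
noncomputable def PS (k : Type*) [Field k] {U : Type*} [Ring U] [Algebra k U] (e : ℤ → U) (n : ℤ) :
    PowerSeries U := PowerSeries.mk fun i => bc k n i • e ((i : ℤ) - 1)

theorem PS_comm (e : ℤ → U)
    (he : ∀ m n : ℤ, -1 ≤ m → -1 ≤ n → e m * e n - e n * e m = ((n : k) - m) • e (m + n))
    (m n : ℤ) : PS k e m * PS k e n - PS k e n * PS k e m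
      = ((n : k) - m) • (PowerSeries.X * PS k e (m + n)) := by
  ext N
  have h1 : PowerSeries.coeff N (PS k e m * PS k e n - PS k e n * PS k e m) =
      ∑ ij ∈ antidiagonal N, (bc k m ij.1 * bc k n ij.2 * ((ij.2 : k) - ij.1)) •
        e ((N : ℤ) - 2) := by
    rw [map_sub, PowerSeries.coeff_mul, PowerSeries.coeff_mul]
    have hswap : ∑ p ∈ antidiagonal N, PowerSeries.coeff p.1 (PS k e n) *
        PowerSeries.coeff p.2 (PS k e m) = ∑ p ∈ antidiagonal N,
        PowerSeries.coeff p.2 (PS k e n) * PowerSeries.coeff p.1 (PS k e m) := by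
      rw [← Finset.Nat.sum_antidiagonal_swap]
      rfl
    rw [hswap, ← Finset.sum_sub_distrib]
    refine Finset.sum_congr rfl fun ij hij => ?_
    have hN : (N : ℤ) = ij.1 + ij.2 := by
      rw [← (mem_antidiagonal.mp hij)]; push_cast; rfl
    simp only [PS, PowerSeries.coeff_mk, smul_mul_smul_comm]
    rw [mul_comm (bc k n ij.2) (bc k m ij.1), ← smul_sub, he _ _ (by omega) (by omega), smul_smul]
    have e1 : ((ij.1 : ℤ) - 1) + ((ij.2 : ℤ) - 1) = (N : ℤ) - 2 := by rw [hN]; ring
    rw [e1]
    push_cast
    congr 1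
    ring
  rw [h1, ← Finset.sum_smul]
  cases N with
  | zero => simp [PowerSeries.coeff_zero_X_mul]
  | succ N =>
    have h2 : PowerSeries.coeff (N + 1) (((n : k) - m) • (PowerSeries.X * PS k e (m + n))) =
        ((n : k) - m) • (bc k (m + n) N • e ((N : ℤ) - 1)) := by
      rw [PowerSeries.coeff_smul, PowerSeries.coeff_succ_X_mul, PS, PowerSeries.coeff_mk]
    rw [h2, smul_smul]
    have h3 := congrArg (fun z : ℤ => (z : k)) (vander m n N)
    push_cast at h3
    have e1 : (((N + 1 : ℕ) : ℤ) - 2) = (N : ℤ) - 1 := by push_cast; ring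
    rw [e1]
    congr 1

/-- `∑ C(n+1,i) x^{i-n-1} e_{i-1}` -/
noncomputable def HS (k : Type*) [Field k] {U : Type*} [Ring U] [Algebra k U] (e : ℤ → U) (n : ℤ) :
    HahnSeries ℤ U := HahnSeries.single (-n - 1) 1 * HahnSeries.ofPowerSeries ℤ U (PS k e n)

theorem single_comm (a : ℤ) (f : HahnSeries ℤ U) :
    HahnSeries.single a (1 : U) * f = f * HahnSeries.single a 1 := by
  ext n
  rw [HahnSeries.coeff_single_mul, HahnSeries.coeff_mul_single, one_mul, mul_one]

theorem HS_comm (e : ℤ → U)
    (he : ∀ m n : ℤ, -1 ≤ m → -1 ≤ n → e m * e n - e n * e m = ((n : k) - m) • e (m + n))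
    (m n : ℤ) : HS k e m * HS k e n - HS k e n * HS k e m = ((n : k) - m) • HS k e (m + n) := by
  have h1 : ∀ m n : ℤ, HS k e m * HS k e n = HahnSeries.single (-m - n - 2) (1 : U) *
      HahnSeries.ofPowerSeries ℤ U (PS k e m * PS k e n) := by
    intro m n
    rw [HS, HS, map_mul]
    calc HahnSeries.single (-m - 1) (1:U) * HahnSeries.ofPowerSeries ℤ U (PS k e m) *
          (HahnSeries.single (-n - 1) (1:U) * HahnSeries.ofPowerSeries ℤ U (PS k e n))
        = HahnSeries.single (-m - 1) (1:U) * (HahnSeries.ofPowerSeries ℤ U (PS k e m) *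
          HahnSeries.single (-n - 1) (1:U)) * HahnSeries.ofPowerSeries ℤ U (PS k e n) := by
          simp only [mul_assoc]
      _ = HahnSeries.single (-m - 1) (1:U) * (HahnSeries.single (-n - 1) (1:U) *
          HahnSeries.ofPowerSeries ℤ U (PS k e m)) * HahnSeries.ofPowerSeries ℤ U (PS k e n) := by
          rw [single_comm (-n - 1) (HahnSeries.ofPowerSeries ℤ U (PS k e m))]
      _ = (HahnSeries.single (-m - 1) (1:U) * HahnSeries.single (-n - 1) (1:U)) *
          (HahnSeries.ofPowerSeries ℤ U (PS k e m) * HahnSeries.ofPowerSeries ℤ U (PS k e n)) := by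
          simp only [mul_assoc]
      _ = _ := by
          rw [HahnSeries.single_mul_single, one_mul]
          congr 2
          congr 1
          ring
  rw [h1, h1, show -n - m - 2 = -m - n - 2 by ring, ← mul_sub, ← map_sub, PS_comm e he]
  have h2 : HahnSeries.ofPowerSeries ℤ U (((n : k) - m) • (PowerSeries.X * PS k e (m + n))) =
      ((n : k) - m) • (HahnSeries.single (1:ℤ) (1 : U) *
        HahnSeries.ofPowerSeries ℤ U (PS k e (m + n))) := by
    have : ((n : k) - m) • (PowerSeries.X * PS k e (m + n)) =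
        PowerSeries.C (algebraMap k U ((n : k) - m)) * (PowerSeries.X * PS k e (m + n)) := by
      ext N
      rw [PowerSeries.coeff_smul, PowerSeries.coeff_C_mul, Algebra.smul_def]
    rw [this, map_mul, map_mul, HahnSeries.ofPowerSeries_C, HahnSeries.ofPowerSeries_X,
      Algebra.smul_def, HahnSeries.algebraMap_apply]
  rw [h2, mul_smul_comm, ← mul_assoc, HahnSeries.single_mul_single, one_mul, HS]
  congr 3
  congr 1
  ring

end series

section construction

variable {k L : Type*} [Field k] [LieRing L] [LieAlgebra k L]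

/-- a family with the Witt relations defines a Lie map -/
noncomputable def lieOfFam (D : WittData k L) {H : Type*} [Ring H] [Algebra k H] (f : ℤ → H)
    (hf : ∀ m n : ℤ, f m * f n - f n * f m = ((n : k) - m) • f (m + n)) : L →ₗ⁅k⁆ H :=
  { D.b.constr k f with
    map_lie' := by
      intro x y
      change D.b.constr k f ⁅x, y⁆ = ⁅D.b.constr k f x, D.b.constr k f y⁆
      have hx : x ∈ Submodule.span k (Set.range D.b) := by rw [D.b.span_eq]; trivial
      have hy : y ∈ Submodule.span k (Set.range D.b) := by rw [D.b.span_eq]; trivial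
      induction hx using Submodule.span_induction with
      | zero => simp
      | add x x' _ _ hx hx' => rw [add_lie, map_add, map_add, add_lie, hx, hx']
      | smul c x _ hx => rw [smul_lie, map_smul, map_smul, smul_lie, hx]
      | mem x hx =>
        obtain ⟨m, rfl⟩ := hx
        induction hy using Submodule.span_induction with
        | zero => simp
        | add y y' _ _ hy hy' => rw [lie_add, map_add, map_add, lie_add, hy, hy']
        | smul c y _ hy =>
          rw [lie_smul, map_smul, map_smul, hy]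
          simp only [LieRing.of_associative_ring_bracket, mul_smul_comm, smul_mul_assoc, smul_sub]
        | mem y hy =>
          obtain ⟨n, rfl⟩ := hy
          rw [D.brk, map_smul, Module.Basis.constr_basis, Module.Basis.constr_basis,
            Module.Basis.constr_basis, LieRing.of_associative_ring_bracket, hf] }

theorem lieOfFam_b (D : WittData k L) {H : Type*} [Ring H] [Algebra k H] (f : ℤ → H)
    (hf : ∀ m n : ℤ, f m * f n - f n * f m = ((n : k) - m) • f (m + n)) (n : ℤ) :
    lieOfFam D f hf (D.b n) = f n := by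
  change D.b.constr k f (D.b n) = f n
  rw [Module.Basis.constr_basis]

theorem iotaU_ι (S : LieSubalgebra k L) (x : S) :
    iotaU S (UniversalEnvelopingAlgebra.ι k x) = UniversalEnvelopingAlgebra.ι k (x : L) := by
  rw [iotaU, UniversalEnvelopingAlgebra.lift_ι_apply]
  rfl

/-- a subalgebra of an enveloping algebra containing the Lie algebra is everything -/
theorem UEA_top (T : Subalgebra k (UniversalEnvelopingAlgebra k L))
    (h : ∀ x : L, UniversalEnvelopingAlgebra.ι k x ∈ T) : T = ⊤ := by
  let f : L →ₗ⁅k⁆ T :=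
    { toFun := fun x => ⟨UniversalEnvelopingAlgebra.ι k x, h x⟩
      map_add' := fun x y => by ext; simp
      map_smul' := fun c x => by ext; simp
      map_lie' := fun {x y} => by
        ext
        simp only [LieHom.map_lie, LieRing.of_associative_ring_bracket]
        rfl }
  have h1 : T.val.comp (UniversalEnvelopingAlgebra.lift k f) = AlgHom.id k _ := by
    apply UniversalEnvelopingAlgebra.hom_ext
    ext x
    simp only [LieHom.coe_comp, Function.comp_apply, AlgHom.coe_toLieHom, AlgHom.comp_apply,
      UniversalEnvelopingAlgebra.lift_ι_apply, AlgHom.id_apply]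
    rfl
  rw [eq_top_iff]
  intro u _
  have := congrArg (fun g => g u) h1
  simp only [AlgHom.comp_apply, AlgHom.id_apply] at this
  rw [← this]
  exact (UniversalEnvelopingAlgebra.lift k f u).2

theorem UEA_induction (T : Subalgebra k (UniversalEnvelopingAlgebra k L))
    (h : ∀ x : L, UniversalEnvelopingAlgebra.ι k x ∈ T) (u : UniversalEnvelopingAlgebra k L) :
    u ∈ T := by
  rw [UEA_top T h]; trivial

variable (D : WittData k L) (S : LieSubalgebra k L)
    (hS : S.toSubmodule = Submodule.span k (D.b '' {n | -1 ≤ n}))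

theorem b_mem (hS : S.toSubmodule = Submodule.span k (D.b '' {n | -1 ≤ n})) {n : ℤ}
    (hn : -1 ≤ n) : D.b n ∈ S := by
  have : D.b n ∈ S.toSubmodule := by
    rw [hS]; exact Submodule.subset_span ⟨n, hn, rfl⟩
  exact this

/-- the generators `e_n`, `n ≥ -1`, of `U(S)` (and `0` for `n < -1`) -/
noncomputable def eS (hS : S.toSubmodule = Submodule.span k (D.b '' {n | -1 ≤ n})) (n : ℤ) :
    UniversalEnvelopingAlgebra k S :=
  if h : -1 ≤ n then UniversalEnvelopingAlgebra.ι k (⟨D.b n, b_mem D S hS h⟩ : S) else 0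

theorem eS_of (hS : S.toSubmodule = Submodule.span k (D.b '' {n | -1 ≤ n})) {n : ℤ}
    (h : -1 ≤ n) : eS D S hS n = UniversalEnvelopingAlgebra.ι k (⟨D.b n, b_mem D S hS h⟩ : S) := by
  rw [eS, dif_pos h]

theorem eS_comm (m n : ℤ) (hm : -1 ≤ m) (hn : -1 ≤ n) :
    eS D S hS m * eS D S hS n - eS D S hS n * eS D S hS m = ((n : k) - m) • eS D S hS (m + n) := by
  rw [eS_of D S hS hm, eS_of D S hS hn, ← LieRing.of_associative_ring_bracket, ← LieHom.map_lie]
  by_cases h : -1 ≤ m + n
  · rw [eS_of D S hS h, ← map_smul]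
    congr 1
    ext
    simp only [LieSubalgebra.coe_bracket, SetLike.mk_smul_mk]
    exact D.brk m n
  · have hm' : m = -1 := by omega
    have hn' : n = -1 := by omega
    subst hm' hn'
    simp

theorem eS_induction (T : Subalgebra k (UniversalEnvelopingAlgebra k S))
    (h : ∀ n : ℤ, -1 ≤ n → eS D S hS n ∈ T) (u : UniversalEnvelopingAlgebra k S) : u ∈ T := by
  apply UEA_induction T
  rintro ⟨x, hx⟩
  have hx' : x ∈ Submodule.span k (D.b '' {n | -1 ≤ n}) := by rw [← hS]; exact hx
  have key : ∀ x (hx : x ∈ Submodule.span k (D.b '' {n | -1 ≤ n})) (hxS : x ∈ S),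
      UniversalEnvelopingAlgebra.ι k (⟨x, hxS⟩ : S) ∈ T := by
    intro x hx
    induction hx using Submodule.span_induction with
    | zero =>
      intro hxS
      have : (⟨0, hxS⟩ : S) = 0 := rfl
      rw [this, map_zero]
      exact T.zero_mem
    | add x y hx0 hy0 hx hy =>
      intro hxS
      have hxx : x ∈ S := by
        have : x ∈ S.toSubmodule := by rw [hS]; exact hx0
        exact this
      have hyy : y ∈ S := by
        have : y ∈ S.toSubmodule := by rw [hS]; exact hy0
        exact this
      have : (⟨x + y, hxS⟩ : S) = ⟨x, hxx⟩ + ⟨y, hyy⟩ := rfl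
      rw [this, map_add]
      exact T.add_mem (hx hxx) (hy hyy)
    | smul c x hx0 hx =>
      intro hxS
      have hxx : x ∈ S := by
        have : x ∈ S.toSubmodule := by rw [hS]; exact hx0
        exact this
      have : (⟨c • x, hxS⟩ : S) = c • ⟨x, hxx⟩ := rfl
      rw [this, map_smul]
      exact T.smul_mem (hx hxx) c
    | mem x hx =>
      obtain ⟨n, hn, rfl⟩ := hx
      intro hxS
      have := h n hn
      rwa [eS_of D S hS hn] at this
  exact key x hx' hx

/-- the map `Θ` -/
noncomputable def Theta : UniversalEnvelopingAlgebra k L →ₐ[k]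
    HahnSeries ℤ (UniversalEnvelopingAlgebra k S) :=
  UniversalEnvelopingAlgebra.lift k (lieOfFam D (HS k (eS D S hS))
    (HS_comm (eS D S hS) (eS_comm D S hS)))

theorem Theta_iota_eS (n : ℤ) (hn : -1 ≤ n) :
    Theta D S hS (iotaU S (eS D S hS n)) = HS k (eS D S hS) n := by
  rw [eS_of D S hS hn, iotaU_ι, Theta, UniversalEnvelopingAlgebra.lift_ι_apply]
  exact lieOfFam_b D _ _ n

end construction

section polynomials

variable {k : Type*} [Field k] {U : Type*} [Ring U] [Algebra k U]

open Polynomial

/-- constants as an algebra map -/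
noncomputable def CHom (k : Type*) [Field k] (U : Type*) [Ring U] [Algebra k U] :
    U →ₐ[k] HahnSeries ℤ U :=
  { (HahnSeries.C : U →+* HahnSeries ℤ U) with
    commutes' := fun r => by
      change HahnSeries.C (algebraMap k U r) = _
      rw [HahnSeries.algebraMap_apply] }

theorem CHom_apply (a : U) : CHom k U a = HahnSeries.single 0 a := rfl

/-- polynomials in `λ = 1/x` as Laurent series in `x` -/
noncomputable def cmap (k : Type*) [Field k] (U : Type*) [Ring U] [Algebra k U] :
    U[X] →ₐ[k] HahnSeries ℤ U :=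
  Polynomial.eval₂AlgHom (CHom k U) (HahnSeries.single (-1) 1) (fun a => by
    rw [Commute, SemiconjBy, ← single_comm])

theorem cmap_monomial (j : ℕ) (a : U) :
    cmap k U (monomial j a) = HahnSeries.single (-(j : ℤ)) a := by
  rw [cmap, Polynomial.eval₂AlgHom_apply, Polynomial.eval₂_monomial]
  change CHom k U a * _ = _
  rw [CHom_apply, HahnSeries.single_pow, one_pow, HahnSeries.single_mul_single, mul_one, zero_add]
  congr 1
  simp

theorem cmap_coeff (p : U[X]) (j : ℕ) : (cmap k U p).coeff (-(j : ℤ)) = p.coeff j := by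
  induction p using Polynomial.induction_on' with
  | add p q hp hq => rw [map_add, HahnSeries.coeff_add, Polynomial.coeff_add, hp, hq]
  | monomial i a =>
    rw [cmap_monomial, HahnSeries.coeff_single, Polynomial.coeff_monomial]
    by_cases h : i = j
    · subst h; simp
    · rw [if_neg h, if_neg]
      intro h'
      apply h
      omega

theorem cmap_coeff_pos (p : U[X]) {n : ℤ} (hn : 0 < n) : (cmap k U p).coeff n = 0 := by
  induction p using Polynomial.induction_on' with
  | add p q hp hq => rw [map_add, HahnSeries.coeff_add, hp, hq, add_zero]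
  | monomial i a =>
    rw [cmap_monomial, HahnSeries.coeff_single, if_neg]
    omega

theorem cmap_injective : Function.Injective (cmap k U) := by
  intro p q h
  ext j
  rw [← cmap_coeff (k := k), ← cmap_coeff (k := k), h]

/-- `(t + λ)^N d/dt` -/
noncomputable def pol (k : Type*) [Field k] {U : Type*} [Ring U] [Algebra k U] (e : ℤ → U)
    (N : ℕ) : U[X] :=
  ∑ i ∈ range (N + 1), monomial (N - i) ((N.choose i : k) • e ((i : ℤ) - 1))

theorem bc_nat (N i : ℕ) : bc k ((N : ℤ) - 1) i = (N.choose i : k) := by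
  rw [bc, sub_add_cancel, Ring.choose_natCast]
  push_cast; rfl

theorem HS_eq_cmap (e : ℤ → U) (N : ℕ) : HS k e ((N : ℤ) - 1) = cmap k U (pol k e N) := by
  have h1 : PS k e ((N : ℤ) - 1) = ∑ i ∈ range (N + 1),
      PowerSeries.C ((N.choose i : k) • e ((i : ℤ) - 1)) * PowerSeries.X ^ i := by
    ext j
    rw [PS, PowerSeries.coeff_mk, map_sum, bc_nat]
    simp only [PowerSeries.coeff_C_mul, PowerSeries.coeff_X_pow]
    by_cases hj : j < N + 1
    · rw [Finset.sum_eq_single j]
      · simp
      · intro b _ hb; rw [if_neg (Ne.symm hb), mul_zero]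
      · intro h; exact absurd (mem_range.mpr hj) h
    · rw [Finset.sum_eq_zero]
      · rw [Nat.choose_eq_zero_of_lt (by omega)]; simp
      · intro b hb
        rw [if_neg, mul_zero]
        have := mem_range.mp hb
        omega
  rw [HS, h1, map_sum, Finset.mul_sum, pol, map_sum]
  refine Finset.sum_congr rfl fun i hi => ?_
  rw [map_mul, HahnSeries.ofPowerSeries_C, HahnSeries.ofPowerSeries_X_pow, cmap_monomial,
    HahnSeries.C_apply, HahnSeries.single_mul_single, HahnSeries.single_mul_single, mul_one,
    one_mul]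
  have := mem_range.mp hi
  congr 1
  rw [Nat.cast_sub (show i ≤ N by omega)]
  congr 1
  omega

theorem derivative_pol_zero (e : ℤ → U) : derivative (pol k e 0) = 0 := by
  simp [pol]

theorem derivative_pol_succ (e : ℤ → U) (N : ℕ) :
    derivative (pol k e (N + 1)) = ((N : k) + 1) • pol k e N := by
  rw [pol, Finset.sum_range_succ, map_add, map_sum]
  have h0 : derivative (monomial (N + 1 - (N + 1))
      (((N + 1).choose (N + 1) : k) • e (((N + 1 : ℕ) : ℤ) - 1))) = 0 := by
    simp
  rw [h0, add_zero, pol, Finset.smul_sum]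
  refine Finset.sum_congr rfl fun i hi => ?_
  have hi' := mem_range.mp hi
  rw [derivative_monomial, Polynomial.smul_monomial]
  have e1 : N + 1 - i - 1 = N - i := by omega
  rw [e1]
  congr 1
  rw [smul_smul, smul_mul_assoc]
  have e2 := Nat.choose_mul_succ_eq N i
  have e3 : (((N + 1).choose i : k)) * ((N + 1 - i : ℕ) : k) = (((N : k) + 1)) * (N.choose i : k) := by
    rw [← Nat.cast_mul, ← e2]; push_cast; ring
  have e4 : ∀ (m : ℕ) (a : U), a * (m : U) = (m : k) • a := by
    intro m a
    rw [Nat.cast_smul_eq_nsmul, nsmul_eq_mul, (Nat.cast_commute m a).eq]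
  rw [e4, smul_smul, e3]

end polynomials

section psi

open Polynomial

variable {k L : Type*} [Field k] [LieRing L] [LieAlgebra k L]
variable (D : WittData k L) (S : LieSubalgebra k L)
    (hS : S.toSubmodule = Submodule.span k (D.b '' {n | -1 ≤ n}))

theorem exists_nat_of_le {n : ℤ} (hn : -1 ≤ n) : ∃ N : ℕ, n = (N : ℤ) - 1 :=
  ⟨(n + 1).toNat, by omega⟩

theorem Theta_iota_mem (u : UniversalEnvelopingAlgebra k S) :
    (Theta D S hS).comp (iotaU S) u ∈ (cmap k (UniversalEnvelopingAlgebra k S)).range := by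
  have h := eS_induction D S hS
    ((cmap k (UniversalEnvelopingAlgebra k S)).range.comap ((Theta D S hS).comp (iotaU S))) ?_ u
  · exact h
  · intro n hn
    obtain ⟨N, rfl⟩ := exists_nat_of_le hn
    rw [Subalgebra.mem_comap, AlgHom.comp_apply, Theta_iota_eS D S hS _ hn, HS_eq_cmap]
    exact ⟨_, rfl⟩

/-- `exp(λ ad e_{-1})` -/
noncomputable def Psi : UniversalEnvelopingAlgebra k S →ₐ[k] (UniversalEnvelopingAlgebra k S)[X] :=
  ((AlgEquiv.ofInjective (cmap k (UniversalEnvelopingAlgebra k S)) cmap_injective).symm :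
    _ →ₐ[k] _).comp
    (((Theta D S hS).comp (iotaU S)).codRestrict _ (Theta_iota_mem D S hS))

theorem cmap_Psi (u : UniversalEnvelopingAlgebra k S) :
    cmap k _ (Psi D S hS u) = Theta D S hS (iotaU S u) := by
  have h := (AlgEquiv.ofInjective (cmap k (UniversalEnvelopingAlgebra k S))
    cmap_injective).apply_symm_apply
    ((((Theta D S hS).comp (iotaU S)).codRestrict _ (Theta_iota_mem D S hS)) u)
  have h2 := congrArg Subtype.val h
  exact h2

theorem Psi_eS (N : ℕ) : Psi D S hS (eS D S hS ((N : ℤ) - 1)) = pol k (eS D S hS) N := by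
  apply cmap_injective (k := k)
  rw [cmap_Psi, Theta_iota_eS D S hS _ (by omega), HS_eq_cmap]

/-- the derivation `ad e_{-1}` -/
noncomputable def ad1 (u : UniversalEnvelopingAlgebra k S) : UniversalEnvelopingAlgebra k S :=
  eS D S hS (-1) * u - u * eS D S hS (-1)

theorem ad1_mul (u v : UniversalEnvelopingAlgebra k S) :
    ad1 D S hS (u * v) = ad1 D S hS u * v + u * ad1 D S hS v := by
  simp only [ad1, mul_sub, sub_mul, mul_assoc]
  abel

theorem Psi_ad1 (u : UniversalEnvelopingAlgebra k S) :
    derivative (Psi D S hS u) = Psi D S hS (ad1 D S hS u) := by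
  let T : Subalgebra k (UniversalEnvelopingAlgebra k S) :=
    { carrier := {u | derivative (Psi D S hS u) = Psi D S hS (ad1 D S hS u)}
      mul_mem' := by
        intro a b ha hb
        simp only [Set.mem_ofPred_eq] at ha hb ⊢
        rw [ad1_mul, map_mul, derivative_mul, ha, hb, map_add, map_mul, map_mul]
      add_mem' := by
        intro a b ha hb
        simp only [Set.mem_ofPred_eq] at ha hb ⊢
        have : ad1 D S hS (a + b) = ad1 D S hS a + ad1 D S hS b := by
          simp only [ad1, mul_add, add_mul]; abel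
        rw [this, map_add, map_add, ha, hb, map_add]
      algebraMap_mem' := by
        intro r
        have : ad1 D S hS (algebraMap k _ r) = 0 := by
          rw [ad1, Algebra.commutes, sub_self]
        simp only [Set.mem_ofPred_eq, this, map_zero, AlgHom.commutes]
        rw [Polynomial.algebraMap_apply, derivative_C] }
  refine eS_induction D S hS T ?_ u
  intro n hn
  obtain ⟨N, rfl⟩ := exists_nat_of_le hn
  change derivative (Psi D S hS _) = Psi D S hS _
  have h1 : ad1 D S hS (eS D S hS ((N : ℤ) - 1)) =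
      (N : k) • eS D S hS ((-1) + ((N : ℤ) - 1)) := by
    rw [ad1, eS_comm D S hS _ _ le_rfl hn]
    push_cast
    congr 1
    ring
  rw [h1, map_smul, Psi_eS]
  cases N with
  | zero => simp [derivative_pol_zero]
  | succ N =>
    rw [derivative_pol_succ]
    have : (-1 : ℤ) + (((N + 1 : ℕ) : ℤ) - 1) = (N : ℤ) - 1 := by push_cast; ring
    rw [this, Psi_eS]
    push_cast; rfl

theorem Psi_coeff_zero (u : UniversalEnvelopingAlgebra k S) : (Psi D S hS u).coeff 0 = u := by
  let T : Subalgebra k (UniversalEnvelopingAlgebra k S) :=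
    { carrier := {u | (Psi D S hS u).coeff 0 = u}
      mul_mem' := by
        intro a b ha hb
        simp only [Set.mem_ofPred_eq] at ha hb ⊢
        rw [map_mul, mul_coeff_zero, ha, hb]
      add_mem' := by
        intro a b ha hb
        simp only [Set.mem_ofPred_eq] at ha hb ⊢
        rw [map_add, coeff_add, ha, hb]
      algebraMap_mem' := by
        intro r
        simp only [Set.mem_ofPred_eq, AlgHom.commutes]
        rw [Polynomial.algebraMap_apply, coeff_C_zero] }
  refine eS_induction D S hS T ?_ u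
  intro n hn
  obtain ⟨N, rfl⟩ := exists_nat_of_le hn
  change (Psi D S hS _).coeff 0 = _
  rw [Psi_eS, pol, finsetSum_coeff, Finset.sum_eq_single N]
  · simp
  · intro b hb hbN
    have := mem_range.mp hb
    rw [coeff_monomial, if_neg]
    omega
  · intro h; exact absurd (mem_range.mpr (Nat.lt_succ_self N)) h

/-- subspaces stable under `ad e_{-1}` are stable under all coefficients of `Ψ` -/
theorem Psi_coeff_mem [CharZero k] (Z : Submodule k (UniversalEnvelopingAlgebra k S))
    (hZ : ∀ z ∈ Z, ad1 D S hS z ∈ Z) (j : ℕ) :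
    ∀ z ∈ Z, (Psi D S hS z).coeff j ∈ Z := by
  induction j with
  | zero => intro z hz; rwa [Psi_coeff_zero]
  | succ j ih =>
    intro z hz
    have h1 := ih _ (hZ z hz)
    rw [← Psi_ad1, coeff_derivative] at h1
    have h2 : (Psi D S hS z).coeff (j + 1) * ((j : UniversalEnvelopingAlgebra k S) + 1) =
        ((j : k) + 1) • (Psi D S hS z).coeff (j + 1) := by
      have := ((Nat.cast_commute (j + 1) ((Psi D S hS z).coeff (j + 1))).eq).symm
      push_cast at this
      rw [this, ← Nat.cast_succ, ← Nat.cast_succ, ← nsmul_eq_mul, ← Nat.cast_smul_eq_nsmul k]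
    rw [h2] at h1
    have h3 := Z.smul_mem (((j : k) + 1)⁻¹) h1
    have h4 : ((j : k) + 1) ≠ 0 := by exact_mod_cast Nat.succ_ne_zero j
    rwa [smul_smul, inv_mul_cancel₀ h4, one_smul] at h3

/-- `Ψ` extended to polynomials -/
noncomputable def PsiX : (UniversalEnvelopingAlgebra k S)[X] →ₐ[k]
    (UniversalEnvelopingAlgebra k S)[X] :=
  Polynomial.eval₂AlgHom (Psi D S hS) X (fun a => (Polynomial.commute_X (Psi D S hS a)).symm)

theorem PsiX_monomial (j : ℕ) (a : UniversalEnvelopingAlgebra k S) :
    PsiX D S hS (monomial j a) = Psi D S hS a * X ^ j := by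
  rw [PsiX, eval₂AlgHom_apply, eval₂_monomial]
  rfl

/-- constants are in the `k[λ]`-span of the image of `Ψ` -/
theorem C_mem_PsiX (u : UniversalEnvelopingAlgebra k S) : C u ∈ (PsiX D S hS).range := by
  have hmono : ∀ (a : UniversalEnvelopingAlgebra k S) (j : ℕ), C a ∈ (PsiX D S hS).range →
      (monomial j a) ∈ (PsiX D S hS).range := by
    intro a j ha
    have hX : (X : (UniversalEnvelopingAlgebra k S)[X]) ∈ (PsiX D S hS).range := by
      refine ⟨X, ?_⟩
      change PsiX D S hS X = X
      rw [← monomial_one_one_eq_X, PsiX_monomial, map_one, one_mul, pow_one,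
        monomial_one_one_eq_X]
    rw [← C_mul_X_pow_eq_monomial]
    exact (PsiX D S hS).range.mul_mem ha ((PsiX D S hS).range.pow_mem hX j)
  refine eS_induction D S hS ((PsiX D S hS).range.comap (Polynomial.CAlgHom)) ?_ u
  intro n hn
  obtain ⟨N, rfl⟩ := exists_nat_of_le hn
  rw [Subalgebra.mem_comap]
  change C (eS D S hS ((N : ℤ) - 1)) ∈ _
  clear hn
  induction N using Nat.strong_induction_on with
  | _ N ih =>
    have h1 : Psi D S hS (eS D S hS ((N : ℤ) - 1)) ∈ (PsiX D S hS).range := by
      refine ⟨C (eS D S hS ((N : ℤ) - 1)), ?_⟩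
      change PsiX D S hS (C _) = _
      rw [← monomial_zero_left, PsiX_monomial, pow_zero, mul_one]
    rw [Psi_eS, pol, Finset.sum_range_succ] at h1
    have h2 : monomial (N - N) ((N.choose N : k) • eS D S hS ((N : ℤ) - 1)) =
        C (eS D S hS ((N : ℤ) - 1)) := by
      simp
    rw [h2] at h1
    have h3 : ∑ i ∈ range N, monomial (N - i) ((N.choose i : k) • eS D S hS ((i : ℤ) - 1)) ∈
        (PsiX D S hS).range := by
      refine Subalgebra.sum_mem _ fun i hi => ?_
      rw [← Polynomial.smul_monomial]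
      exact Subalgebra.smul_mem _ (hmono _ _ (ih i (mem_range.mp hi))) _
    have h4 := (PsiX D S hS).range.sub_mem h1 h3
    rwa [add_sub_cancel_left] at h4

theorem cmap_PsiX_monomial (j : ℕ) (a : UniversalEnvelopingAlgebra k S) :
    cmap k _ (PsiX D S hS (monomial j a)) =
      Theta D S hS (iotaU S a) * HahnSeries.single (-(j : ℤ)) 1 := by
  rw [PsiX_monomial, map_mul, cmap_Psi, X_pow_eq_monomial, cmap_monomial]

end psi

section main

open Polynomial

variable {k L : Type*} [Field k] [CharZero k] [LieRing L] [LieAlgebra k L]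
variable (D : WittData k L) (S : LieSubalgebra k L)
    (hS : S.toSubmodule = Submodule.span k (D.b '' {n | -1 ≤ n}))

omit [CharZero k] in
theorem smul_mem_tsi {U : Type*} [Ring U] [Algebra k U] (Q : TwoSidedIdeal U) (c : k) {a : U}
    (ha : a ∈ Q) : c • a ∈ Q := by
  rw [Algebra.smul_def]
  exact Q.mul_mem_left _ _ ha

theorem sum_mem_tsi {U : Type*} [Ring U] (Q : TwoSidedIdeal U) {ι : Type*} (s : Finset ι)
    (f : ι → U) (h : ∀ i ∈ s, f i ∈ Q) : ∑ i ∈ s, f i ∈ Q := by
  classical
  induction s using Finset.induction_on with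
  | empty => rw [Finset.sum_empty]; exact Q.zero_mem
  | insert a s ha ih =>
    rw [Finset.sum_insert ha]
    exact Q.add_mem (h a (mem_insert_self a s)) (ih fun i hi => h i (mem_insert_of_mem hi))

/-- coefficients of `Θ ∘ ι` stay in stable subspaces -/
theorem Theta_iota_coeff_mem (Z : Submodule k (UniversalEnvelopingAlgebra k S))
    (hZ : ∀ z ∈ Z, ad1 D S hS z ∈ Z) (z : UniversalEnvelopingAlgebra k S) (hz : z ∈ Z) (n : ℤ) :
    (Theta D S hS (iotaU S z)).coeff n ∈ Z := by
  rw [← cmap_Psi]
  by_cases h : 0 < n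
  · rw [cmap_coeff_pos _ h]; exact Z.zero_mem
  · obtain ⟨j, rfl⟩ : ∃ j : ℕ, n = -(j : ℤ) := ⟨(-n).toNat, by omega⟩
    rw [cmap_coeff]
    exact Psi_coeff_mem D S hS Z hZ j z hz

omit [CharZero k] in
theorem Theta_iota_coeff_zero (z : UniversalEnvelopingAlgebra k S) :
    (Theta D S hS (iotaU S z)).coeff 0 = z := by
  rw [← cmap_Psi]
  have := cmap_coeff (k := k) (Psi D S hS z) 0
  rw [Nat.cast_zero, neg_zero] at this
  rw [this, Psi_coeff_zero]

/-- a two-sided ideal as a subspace -/
def tsiSub {U : Type*} [Ring U] [Algebra k U] (Q : TwoSidedIdeal U) : Submodule k U where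
  carrier := {a | a ∈ Q}
  zero_mem' := Q.zero_mem
  add_mem' := Q.add_mem
  smul_mem' c _ ha := smul_mem_tsi Q c ha

theorem Theta_iota_ideal (Q : TwoSidedIdeal (UniversalEnvelopingAlgebra k S))
    (w : UniversalEnvelopingAlgebra k S) (hw : w ∈ Q) (n : ℤ) :
    (Theta D S hS (iotaU S w)).coeff n ∈ Q :=
  Theta_iota_coeff_mem D S hS (tsiSub Q)
    (fun _ hz => Q.sub_mem (Q.mul_mem_left _ _ hz) (Q.mul_mem_right _ _ hz)) w hw n

theorem Theta_annih (a b : UniversalEnvelopingAlgebra k S) (h : ∀ w, a * w * b = 0)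
    (u : UniversalEnvelopingAlgebra k L) :
    Theta D S hS (iotaU S a * u * iotaU S b) = 0 := by
  have h1 : ∀ n w, (Theta D S hS (iotaU S a)).coeff n * w * b = 0 := by
    let Z : Submodule k (UniversalEnvelopingAlgebra k S) :=
      { carrier := {z | ∀ w, z * w * b = 0}
        zero_mem' := fun w => by rw [zero_mul, zero_mul]
        add_mem' := fun {x y} hx hy w => by
          rw [add_mul, add_mul, hx w, hy w, add_zero]
        smul_mem' := fun c x hx w => by
          rw [smul_mul_assoc, smul_mul_assoc, hx w, smul_zero] }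
    intro n
    refine Theta_iota_coeff_mem D S hS Z ?_ a h n
    intro z hz w
    rw [ad1, sub_mul, sub_mul, mul_assoc (eS D S hS (-1)), mul_assoc (eS D S hS (-1)), hz w,
      mul_assoc z, hz _, mul_zero, sub_zero]
  have h2 : ∀ n w m, (Theta D S hS (iotaU S a)).coeff n * w *
      (Theta D S hS (iotaU S b)).coeff m = 0 := by
    intro n w m
    let Z : Submodule k (UniversalEnvelopingAlgebra k S) :=
      { carrier := {z | ∀ w, (Theta D S hS (iotaU S a)).coeff n * w * z = 0}
        zero_mem' := fun w => by rw [mul_zero]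
        add_mem' := fun {x y} hx hy w => by
          rw [mul_add, hx w, hy w, add_zero]
        smul_mem' := fun c x hx w => by
          rw [mul_smul_comm, hx w, smul_zero] }
    refine Theta_iota_coeff_mem D S hS Z ?_ b (h1 n) m w
    intro z hz w
    rw [ad1, mul_sub, ← mul_assoc, ← mul_assoc, hz w, zero_mul, sub_zero,
      mul_assoc _ w, hz _]
  rw [map_mul, map_mul]
  ext n
  rw [HahnSeries.coeff_mul, HahnSeries.coeff_zero]
  refine Finset.sum_eq_zero fun ij _ => ?_
  rw [HahnSeries.coeff_mul, Finset.sum_mul]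
  refine Finset.sum_eq_zero fun ij' _ => ?_
  exact h2 _ _ _

/-- (Theta) there is an algebra map `U(L) → U(S)((x))` ... -/
theorem theta_facts (D : WittData k L) (S : LieSubalgebra k L)
    (hS : S.toSubmodule = Submodule.span k (D.b '' {n | -1 ≤ n})) :
    ∃ Θ : UniversalEnvelopingAlgebra k L →ₐ[k] HahnSeries ℤ (UniversalEnvelopingAlgebra k S),
      (∀ w, (Θ (iotaU S w)).coeff 0 = w) ∧
      (∀ (Q : TwoSidedIdeal (UniversalEnvelopingAlgebra k S)) w, w ∈ Q →
        ∀ n, (Θ (iotaU S w)).coeff n ∈ Q) ∧
      (∀ a b : UniversalEnvelopingAlgebra k S, (∀ w, a * w * b = 0) →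
        ∀ u, Θ (iotaU S a * u * iotaU S b) = 0) :=
  ⟨Theta D S hS, Theta_iota_coeff_zero D S hS, Theta_iota_ideal D S hS, Theta_annih D S hS⟩

/-- the ideal `{u : all coefficients of Θ u lie in Q}` -/
noncomputable def PQ (Q : TwoSidedIdeal (UniversalEnvelopingAlgebra k S)) :
    TwoSidedIdeal (UniversalEnvelopingAlgebra k L) :=
  TwoSidedIdeal.mk' {u | ∀ n, (Theta D S hS u).coeff n ∈ Q}
    (fun n => by rw [map_zero, HahnSeries.coeff_zero]; exact Q.zero_mem)
    (fun {x y} hx hy n => by rw [map_add, HahnSeries.coeff_add]; exact Q.add_mem (hx n) (hy n))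
    (fun {x} hx n => by rw [map_neg, HahnSeries.coeff_neg]; exact Q.neg_mem (hx n))
    (fun {x y} hy n => by
      rw [map_mul, HahnSeries.coeff_mul]
      exact sum_mem_tsi Q _ _ fun ij _ => Q.mul_mem_left _ _ (hy _))
    (fun {x y} hx n => by
      rw [map_mul, HahnSeries.coeff_mul]
      exact sum_mem_tsi Q _ _ fun ij _ => Q.mul_mem_right _ _ (hx _))

omit [CharZero k] in
theorem mem_PQ (Q : TwoSidedIdeal (UniversalEnvelopingAlgebra k S))
    (u : UniversalEnvelopingAlgebra k L) :
    u ∈ PQ D S hS Q ↔ ∀ n, (Theta D S hS u).coeff n ∈ Q := by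
  rw [PQ, TwoSidedIdeal.mem_mk']
  rfl

omit [CharZero k] in
theorem PQ_aux (Q : TwoSidedIdeal (UniversalEnvelopingAlgebra k S))
    (a b : UniversalEnvelopingAlgebra k L) (h : ∀ u, a * u * b ∈ PQ D S hS Q)
    (y : UniversalEnvelopingAlgebra k S) (n : ℤ) :
    (Theta D S hS a * HahnSeries.single 0 y * Theta D S hS b).coeff n ∈ Q := by
  have key : ∀ p : (UniversalEnvelopingAlgebra k S)[X], ∀ n : ℤ,
      (Theta D S hS a * cmap k _ (PsiX D S hS p) * Theta D S hS b).coeff n ∈ Q := by
    intro p
    induction p using Polynomial.induction_on' with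
    | add p q hp hq =>
      intro n
      rw [map_add, map_add, mul_add, add_mul, HahnSeries.coeff_add]
      exact Q.add_mem (hp n) (hq n)
    | monomial j w =>
      intro n
      have h1 := (mem_PQ D S hS Q _).mp (h (iotaU S w)) (n + j)
      have h2 : Theta D S hS a * cmap k _ (PsiX D S hS (monomial j w)) * Theta D S hS b =
          HahnSeries.single (-(j : ℤ)) 1 * Theta D S hS (a * iotaU S w * b) := by
        rw [cmap_PsiX_monomial, map_mul, map_mul, single_comm, ← mul_assoc (Theta D S hS a),
          mul_assoc (Theta D S hS a * Theta D S hS (iotaU S w)), single_comm]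
        simp only [mul_assoc]
      rw [h2, HahnSeries.coeff_single_mul, one_mul, sub_neg_eq_add]
      exact h1
  obtain ⟨p, hp⟩ := C_mem_PsiX D S hS y
  have h3 := key p n
  have h4 : cmap k _ (PsiX D S hS p) = HahnSeries.single (0 : ℤ) y := by
    have : PsiX D S hS p = C y := hp
    rw [this, ← monomial_zero_left, cmap_monomial]
    simp
  rwa [h4] at h3

omit [CharZero k] in
theorem exists_min {U : Type*} [Ring U] (Q : TwoSidedIdeal U) (f : HahnSeries ℤ U)
    (h : ¬ ∀ n, f.coeff n ∈ Q) : ∃ n, f.coeff n ∉ Q ∧ ∀ m < n, f.coeff m ∈ Q := by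
  have hwf : {n | f.coeff n ∉ Q}.IsWF := by
    refine f.isPWO_support.isWF.mono ?_
    intro n hn h0
    apply hn
    rw [h0]
    exact Q.zero_mem
  have hne : {n | f.coeff n ∉ Q}.Nonempty := by
    push Not at h
    exact h
  refine ⟨hwf.min hne, hwf.min_mem hne, ?_⟩
  intro m hm
  by_contra hmQ
  exact hwf.not_lt_min hne hmQ hm

/-- (surjectivity) for a prime `Q` of `U(S)` the ideal `PQ Q` is prime and restricts to `Q` -/
theorem PQ_spec (D : WittData k L) (S : LieSubalgebra k L)
    (hS : S.toSubmodule = Submodule.span k (D.b '' {n | -1 ≤ n}))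
    (Q : TwoSidedIdeal (UniversalEnvelopingAlgebra k S)) (hQ : IsPrimeI Q) :
    IsPrimeI (PQ D S hS Q) ∧ ∀ w, iotaU S w ∈ PQ D S hS Q ↔ w ∈ Q := by
  have hr : ∀ w, iotaU S w ∈ PQ D S hS Q ↔ w ∈ Q := by
    intro w
    rw [mem_PQ]
    constructor
    · intro h
      have := h 0
      rwa [Theta_iota_coeff_zero] at this
    · intro h n
      exact Theta_iota_ideal D S hS Q w h n
  refine ⟨⟨?_, ?_⟩, hr⟩
  · intro htop
    apply hQ.1
    rw [eq_top_iff]
    intro x _
    have h1 : (1 : UniversalEnvelopingAlgebra k S) ∈ Q := by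
      rw [← hr 1, htop]
      trivial
    have := Q.mul_mem_left x 1 h1
    rwa [mul_one] at this
  · intro a b h
    by_contra hcon
    push Not at hcon
    obtain ⟨ha, hb⟩ := hcon
    rw [mem_PQ] at ha hb
    obtain ⟨n, hn, hn'⟩ := exists_min Q _ ha
    obtain ⟨m, hm, hm'⟩ := exists_min Q _ hb
    have key : ∀ y, (Theta D S hS a).coeff n * y * (Theta D S hS b).coeff m ∈ Q := by
      intro y
      have h1 := PQ_aux D S hS Q a b h y (n + m)
      rw [HahnSeries.coeff_mul] at h1
      have hc : ∀ i, (Theta D S hS a * HahnSeries.single 0 y).coeff i =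
          (Theta D S hS a).coeff i * y := by
        intro i
        rw [HahnSeries.coeff_mul_single_zero]
      by_cases hmem : (n, m) ∈ Finset.antidiagonal
          (Theta D S hS a * HahnSeries.single 0 y).isPWO_support
          (Theta D S hS b).isPWO_support (n + m)
      · rw [← Finset.add_sum_erase _ _ hmem] at h1
        have h2 : ∑ x ∈ (Finset.antidiagonal
          (Theta D S hS a * HahnSeries.single 0 y).isPWO_support
          (Theta D S hS b).isPWO_support (n + m)).erase (n, m),
            (Theta D S hS a * HahnSeries.single 0 y).coeff x.1 *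
              (Theta D S hS b).coeff x.2 ∈ Q := by
          refine sum_mem_tsi Q _ _ fun ij hij => ?_
          rw [Finset.mem_erase, Finset.mem_antidiagonal] at hij
          obtain ⟨hne, _, _, hsum⟩ := hij
          rw [hc]
          rcases lt_trichotomy ij.1 n with hlt | heq | hgt
          · exact Q.mul_mem_right _ _ (Q.mul_mem_right _ _ (hn' _ hlt))
          · exfalso
            apply hne
            ext
            · exact heq
            · change ij.2 = m
              omega
          · exact Q.mul_mem_left _ _ (hm' _ (by omega))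
        have h3 := Q.sub_mem h1 h2
        rw [add_sub_cancel_right, hc] at h3
        exact h3
      · have h0 : (Theta D S hS a).coeff n * y * (Theta D S hS b).coeff m = 0 := by
          rw [Finset.mem_antidiagonal] at hmem
          push Not at hmem
          by_cases hz : (Theta D S hS a * HahnSeries.single 0 y).coeff n = 0
          · rw [← hc, hz, zero_mul]
          · by_cases hz2 : (Theta D S hS b).coeff m = 0
            · rw [hz2, mul_zero]
            · exact absurd rfl (hmem hz hz2)
        rw [h0]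
        exact Q.zero_mem
    rcases hQ.2 _ _ key with h5 | h5
    · exact hn h5
    · exact hm h5

/-- (surjectivity) every prime of `U(S)` is the restriction of a prime of `U(L)` -/
theorem exists_prime_over (D : WittData k L) (S : LieSubalgebra k L)
    (hS : S.toSubmodule = Submodule.span k (D.b '' {n | -1 ≤ n}))
    (Q : TwoSidedIdeal (UniversalEnvelopingAlgebra k S)) (hQ : IsPrimeI Q) :
    ∃ P : TwoSidedIdeal (UniversalEnvelopingAlgebra k L), IsPrimeI P ∧
      ∀ w, iotaU S w ∈ P ↔ w ∈ Q :=
  ⟨_, (PQ_spec D S hS Q hQ).1, (PQ_spec D S hS Q hQ).2⟩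

end main

end Pool.WittPrimes
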