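import Pool.Agent.WittPrimes.Shift

/-!
# Injectivity of the restriction map on primes

A nonzero prime (with some condition `O(d, M)`) is determined by its intersection with the
subalgebra generated by `e_n`, `n ≥ -1`.
-/

namespace Pool.WittPrimes
open Finset
variable {k : Type*} [Field k] {p q j d : ℕ}
variable {U : Type*} [Ring U] [Algebra k U] (W : WittFam k U)

/-! ### polynomials -/

/-- polynomials: combinations of monomials with nonnegative exponents -/
noncomputable def Pol (k : Type*) [Field k] (p : ℕ) : Subalgebra k (A k p) :=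
  (Submodule.span k {f : A k p | ∃ n : Fin p → ℤ, 0 ≤ n ∧ f = mono n}).toSubalgebra
    (Submodule.subset_span ⟨0, le_rfl, rfl⟩)
    (by
      intro x y hx hy
      refine Submodule.span_induction₂ (p := fun x y _ _ => x * y ∈ Submodule.span k _)
        ?_ ?_ ?_ ?_ ?_ ?_ ?_ hx hy
      · rintro _ _ ⟨n, hn, rfl⟩ ⟨m, hm, rfl⟩
        rw [mono_mul]
        exact Submodule.subset_span ⟨_, add_nonneg hn hm, rfl⟩
      · intro y _; rw [zero_mul]; exact Submodule.zero_mem _
      · intro x _; rw [mul_zero]; exact Submodule.zero_mem _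
      · intro x y z _ _ _ hx hy; rw [add_mul]; exact Submodule.add_mem _ hx hy
      · intro x y z _ _ _ hx hy; rw [mul_add]; exact Submodule.add_mem _ hx hy
      · intro r x y _ _ h; rw [smul_mul_assoc]; exact Submodule.smul_mem _ _ h
      · intro r x y _ _ h; rw [mul_smul_comm]; exact Submodule.smul_mem _ _ h)

theorem mem_Pol {f : A k p} : f ∈ Pol k p ↔
    f ∈ Submodule.span k {f : A k p | ∃ n : Fin p → ℤ, 0 ≤ n ∧ f = mono n} := Iff.rfl

theorem mono_mem_Pol {n : Fin p → ℤ} (hn : 0 ≤ n) : (mono n : A k p) ∈ Pol k p :=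
  Submodule.subset_span ⟨n, hn, rfl⟩

theorem X_mem_Pol (i : Fin p) : (X i : A k p) ∈ Pol k p :=
  mono_mem_Pol (by intro j; simp only [Pi.zero_apply, Pi.single_apply]; split_ifs <;> simp)

theorem adjoin_X_le_Pol : Algebra.adjoin k (Set.range (X : Fin p → A k p)) ≤ Pol k p := by
  rw [Algebra.adjoin_le_iff]
  rintro _ ⟨i, rfl⟩
  exact X_mem_Pol i

theorem E_mem_Pol : (E p : A k p) ∈ Pol k p :=
  mono_mem_Pol (by intro i; simp)

theorem Dd_mem_Pol : (Dd p : A k p) ∈ Pol k p :=
  Subalgebra.prod_mem _ (fun _ _ => Subalgebra.sub_mem _ (X_mem_Pol _) (X_mem_Pol _))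

theorem br_mem_minus {g : A k p} (hg : g ∈ Pol k p) : br W.e g ∈ W.minus := by
  rw [mem_Pol] at hg
  refine Submodule.span_induction ?_ ?_ ?_ ?_ hg
  · rintro _ ⟨n, hn, rfl⟩
    rw [br_mono]
    refine Subalgebra.list_prod_mem _ ?_
    intro x hx
    rw [List.mem_ofFn] at hx
    obtain ⟨i, rfl⟩ := hx
    exact e_mem_minus W (le_trans (by norm_num) (hn i))
  · rw [map_zero]; exact Subalgebra.zero_mem _
  · intro x y _ _ hx hy; rw [map_add]; exact Subalgebra.add_mem _ hx hy
  · intro c x _ hx; rw [map_smul]; exact Subalgebra.smul_mem _ hx c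

/-! ### reduction to the subalgebra `U_-` -/

/-- `u ⟨E^N D^N g⟩ ∈ U_- + K` for all polynomials `g` -/
def Red (K : TwoSidedIdeal U) (d N : ℕ) (u : U) : Prop :=
  ∀ g ∈ Pol k d, ∃ w ∈ W.minus, u * br W.e (E d ^ N * Dd d ^ N * g) - w ∈ K

variable {W}

theorem Red.mono' {K : TwoSidedIdeal U} {N N' : ℕ} {u : U} (h : Red W K d N u) (hN : N ≤ N') :
    Red W K d N' u := by
  intro g hg
  obtain ⟨r, rfl⟩ := Nat.exists_eq_add_of_le hN
  obtain ⟨w, hw, hK⟩ := h (E d ^ r * Dd d ^ r * g)
    (Subalgebra.mul_mem _ (Subalgebra.mul_mem _ (Subalgebra.pow_mem _ E_mem_Pol _)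
      (Subalgebra.pow_mem _ Dd_mem_Pol _)) hg)
  refine ⟨w, hw, ?_⟩
  have : (E d ^ (N + r) * Dd d ^ (N + r) * g : A k d)
      = E d ^ N * Dd d ^ N * (E d ^ r * Dd d ^ r * g) := by ring
  rwa [this]

theorem Red.add' {K : TwoSidedIdeal U} {N : ℕ} {u v : U} (hu : Red W K d N u)
    (hv : Red W K d N v) : Red W K d N (u + v) := by
  intro g hg
  obtain ⟨w, hw, h⟩ := hu g hg
  obtain ⟨w', hw', h'⟩ := hv g hg
  refine ⟨w + w', Subalgebra.add_mem _ hw hw', ?_⟩
  have := K.add_mem h h'
  convert this using 1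
  rw [add_mul]; abel

theorem Red.smul' {K : TwoSidedIdeal U} {N : ℕ} {u : U} (c : k) (hu : Red W K d N u) :
    Red W K d N (c • u) := by
  intro g hg
  obtain ⟨w, hw, h⟩ := hu g hg
  refine ⟨c • w, Subalgebra.smul_mem _ hw c, ?_⟩
  have := K.mul_mem_left (algebraMap k U c) _ h
  convert this using 1
  rw [mul_sub, smul_mul_assoc, Algebra.smul_def, Algebra.smul_def]

theorem Red.zero' {K : TwoSidedIdeal U} {N : ℕ} : Red W K d N (0 : U) := by
  intro g hg
  exact ⟨0, Subalgebra.zero_mem _, by rw [zero_mul, sub_zero]; exact K.zero_mem⟩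

theorem Red.one' {K : TwoSidedIdeal U} : Red W K d 0 (1 : U) := by
  intro g hg
  refine ⟨br W.e g, br_mem_minus W hg, ?_⟩
  rw [pow_zero, pow_zero, one_mul, one_mul, one_mul, sub_self]
  exact K.zero_mem

theorem Red.step {K : TwoSidedIdeal U} {N : ℕ} {u : U} (hu : Red W K d N u) {n : ℤ}
    (hn : -1 ≤ n) : Red W K d N (W.e n * u) := by
  intro g hg
  obtain ⟨w, hw, h⟩ := hu g hg
  refine ⟨W.e n * w, Subalgebra.mul_mem _ (e_mem_minus W hn) hw, ?_⟩
  have := K.mul_mem_left (W.e n) _ h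
  convert this using 1
  rw [mul_sub, mul_assoc]

theorem red_e {K : TwoSidedIdeal U} {M : ℕ} (hO : OO W K (d + 1) M) {u : U} {N : ℕ}
    (hu : Red W K d N u) (n : ℤ) : ∃ N', Red W K d N' (W.e n * u) := by
  -- downward induction on `n`
  suffices H : ∀ (t : ℕ) (n : ℤ), -1 - (t : ℤ) ≤ n → ∃ N', Red W K d N' (W.e n * u) by
    exact H (-1 - n).toNat n (by omega)
  intro t
  induction t with
  | zero => intro n hn; exact ⟨N, hu.step (by simpa using hn)⟩
  | succ t ih =>
    intro n hn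
    by_cases hn' : -1 - (t : ℤ) ≤ n
    · exact ih n hn'
    obtain ⟨L, m, c, hc0, hc, hs⟩ := shift W K hO u
    -- a common exponent for the terms of higher index
    have hN' : ∃ N', ∀ l ∈ Finset.range m, Red W K d N' (W.e (n + (l + 1 : ℕ)) * u) := by
      have h1 : ∀ l : ℕ, ∃ N', Red W K d N' (W.e (n + (l + 1 : ℕ)) * u) := fun l =>
        ih _ (by push_cast; push_cast at hn hn'; omega)
      choose F hF using h1
      exact ⟨∑ l ∈ Finset.range m, F l, fun l hl =>
        (hF l).mono' (Finset.single_le_sum (fun _ _ => Nat.zero_le _) hl)⟩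
    obtain ⟨N', hN'⟩ := hN'
    refine ⟨2 * L + N', fun g hg => ?_⟩
    have hpol : ∀ l, (c l * Dd d ^ L * (Dd d ^ L * g) : A k d) ∈ Pol k d := fun l =>
      Subalgebra.mul_mem _ (Subalgebra.mul_mem _ (adjoin_X_le_Pol (hc l))
        (Subalgebra.pow_mem _ Dd_mem_Pol _)) (Subalgebra.mul_mem _
        (Subalgebra.pow_mem _ Dd_mem_Pol _) hg)
    have hw : ∀ l ∈ Finset.range m, ∃ w ∈ W.minus, W.e (n + (l + 1 : ℕ)) * u *
        br W.e (E d ^ N' * Dd d ^ N' * (c (l + 1) * Dd d ^ L * (Dd d ^ L * g))) - w ∈ K :=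
      fun l hl => hN' l hl _ (hpol _)
    choose! w hw hwK using hw
    refine ⟨-∑ l ∈ Finset.range m, w l, Subalgebra.neg_mem _ (Subalgebra.sum_mem _ hw), ?_⟩
    have h1 := hs n (E d ^ N' * Dd d ^ N' * (Dd d ^ L * g))
    rw [Finset.sum_range_succ'] at h1
    have h2 : ∑ l ∈ Finset.range m, (W.e (n + (l + 1 : ℕ)) * u *
        br W.e (E d ^ N' * Dd d ^ N' * (c (l + 1) * Dd d ^ L * (Dd d ^ L * g))) - w l) ∈ K :=
      sum_mem hwK
    have h3 := K.sub_mem h1 h2
    convert h3 using 1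
    rw [Finset.sum_sub_distrib, hc0]
    have e1 : ∀ l, (c (l + 1) * Dd d ^ L * (E d ^ N' * Dd d ^ N' * (Dd d ^ L * g)) : A k d)
        = E d ^ N' * Dd d ^ N' * (c (l + 1) * Dd d ^ L * (Dd d ^ L * g)) := fun l => by ring
    have e2 : (E d ^ (2 * L) * Dd d ^ L * (E d ^ N' * Dd d ^ N' * (Dd d ^ L * g)) : A k d)
        = E d ^ (2 * L + N') * Dd d ^ (2 * L + N') * g := by ring
    rw [e2]
    simp only [e1, Nat.cast_zero, add_zero]
    abel

theorem red (K : TwoSidedIdeal U) {M : ℕ} (hO : OO W K (d + 1) M) (u : U) :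
    ∃ N, Red W K d N u := by
  let S : Submodule k U :=
    { carrier := {u | ∃ N, Red W K d N u}
      add_mem' := by
        rintro a b ⟨N, h⟩ ⟨N', h'⟩
        exact ⟨max N N', (h.mono' (le_max_left _ _)).add' (h'.mono' (le_max_right _ _))⟩
      zero_mem' := ⟨0, Red.zero'⟩
      smul_mem' := by
        rintro c a ⟨N, h⟩
        exact ⟨N, h.smul' c⟩ }
  have hS : ∀ x : U, ∀ u ∈ S, x * u ∈ S := by
    intro x
    have hx : x ∈ Algebra.adjoin k (Set.range W.e) := by rw [W.gen]; trivial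
    refine Algebra.adjoin_induction ?_ ?_ ?_ ?_ hx
    · rintro _ ⟨n, rfl⟩ u ⟨N, h⟩
      exact red_e hO h n
    · intro c u hu
      rw [← Algebra.smul_def]
      exact S.smul_mem c hu
    · intro x y _ _ hx hy u hu
      rw [add_mul]
      exact S.add_mem (hx u hu) (hy u hu)
    · intro x y _ _ hx hy u hu
      rw [mul_assoc]
      exact hx _ (hy u hu)
  have := hS u 1 ⟨0, Red.one'⟩
  rwa [mul_one] at this

variable (W)

/-! ### extension from polynomials to Laurent polynomials -/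

/-- a word, as a function of one letter -/
theorem split_one (e : ℤ → U) (n : Fin p → ℤ) (i : Fin p) : ∃ x y : U, ∀ m : Fin p → ℤ,
    (∀ j, j ≠ i → m j = n j) → (List.ofFn fun j => e (m j)).prod = x * e (m i) * y := by
  induction p with
  | zero => exact i.elim0
  | succ p ih =>
    induction i using Fin.cases with
    | zero =>
      refine ⟨1, (List.ofFn fun j : Fin p => e (n j.succ)).prod, fun m hm => ?_⟩
      rw [List.ofFn_succ, List.prod_cons, one_mul]
      simp only [hm _ (Fin.succ_ne_zero _)]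
    | succ i =>
      obtain ⟨x, y, h⟩ := ih (Fin.tail n) i
      refine ⟨e (n 0) * x, y, fun m hm => ?_⟩
      rw [List.ofFn_succ, List.prod_cons, hm 0 (Fin.succ_ne_zero _).symm]
      have := h (Fin.tail m) (fun j hj => hm _ (by simpa using hj))
      simp only [Fin.tail] at this
      rw [this]
      simp only [mul_assoc]

theorem extend_poly (P : TwoSidedIdeal U) (hP : IsPrimeI P) {M : ℕ} (hO : OO W P (d + 1) M)
    (hN : ∀ M', ¬ OO W P d M') (v : U) (N : ℕ)
    (h : ∀ g ∈ Pol k d, v * br W.e (E d ^ N * Dd d ^ N * g) ∈ P) : v ∈ P := by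
  refine ann W P hP hO hN v N ?_
  -- first for monomials
  have key : ∀ (s : Finset (Fin d)) (n : Fin d → ℤ), (∀ i, i ∉ s → (N : ℤ) ≤ n i) →
      v * br W.e (Dd d ^ N * mono n : A k d) ∈ P := by
    intro s
    induction s using Finset.induction_on with
    | empty =>
      intro n hn
      have := h (mono (n - fun _ => (N : ℤ))) (mono_mem_Pol (fun i => by
        have := hn i (by simp)
        simpa using this))
      convert this using 3
      have e1 : (E d ^ N : A k d) = mono (fun _ => (N : ℤ)) := by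
        rw [E, mono, mono, AddMonoidAlgebra.single_pow, one_pow]
        congr 1
        ext i
        simp
      rw [e1, mul_comm (mono _) (Dd d ^ N), mul_assoc, mono_mul, add_sub_cancel]
    | insert i s hi ih =>
      intro n hn
      -- expand `D^N`
      obtain ⟨c, hc⟩ : ∃ c : (Fin d → ℤ) →₀ k, (Dd d ^ N : A k d)
          = ∑ m ∈ c.support, c m • mono m := by
        have := span_mono (k := k) (p := d)
        have hmem : (Dd d ^ N : A k d) ∈ Submodule.span k (Set.range (fun n => (mono n : A k d))) := by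
          rw [this]; trivial
        rw [Finsupp.mem_span_range_iff_exists_finsupp] at hmem
        obtain ⟨c, hc⟩ := hmem
        exact ⟨c, hc.symm⟩
      choose x y hxy using fun m : Fin d → ℤ => split_one W.e (m + n) i
      have hY : ∀ t : ℤ, v * br W.e (Dd d ^ N * mono (Function.update n i t) : A k d)
          = ∑ m ∈ c.support, (v * (c m • x m)) * W.e (t + m i) * y m := by
        intro t
        rw [hc, Finset.sum_mul, map_sum, Finset.mul_sum]
        refine Finset.sum_congr rfl fun m _ => ?_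
        rw [smul_mul_assoc, map_smul, mono_mul, br_mono, hxy m (m + Function.update n i t)]
        · simp only [Pi.add_apply, Function.update_self, mul_smul_comm, smul_mul_assoc, mul_assoc]
          rw [add_comm (m i) t]
        · intro j hj
          simp [Function.update_of_ne hj]
      have := propagation W P hP hO hN c.support (fun m => v * (c m • x m)) y (fun m => m i) N
        (fun t ht => by
          rw [← hY]
          refine ih _ (fun j hj => ?_)
          by_cases hji : j = i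
          · subst hji; simpa using ht
          · rw [Function.update_of_ne hji]
            exact hn j (by simp [hji, hj])) (n i)
      rw [← hY, Function.update_eq_self] at this
      exact this
  intro g
  induction g using A_induction with
  | h0 => rw [mul_zero, map_zero, mul_zero]; exact P.zero_mem
  | hadd f g hf hg => rw [mul_add, map_add, mul_add]; exact P.add_mem hf hg
  | hmono c n =>
    rw [mul_smul_comm, map_smul, mul_smul_comm]
    have := P.mul_mem_left (algebraMap k U c) _ (key univ n (fun i hi => absurd (mem_univ i) hi))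
    rwa [← Algebra.smul_def] at this

/-! ### injectivity -/

theorem OO.mono' {W : WittFam k U} {I : TwoSidedIdeal U} {M M' : ℕ} (h : OO W I p M)
    (hM : M ≤ M') : OO W I p M' := by
  intro g
  obtain ⟨r, rfl⟩ := Nat.exists_eq_add_of_le hM
  rw [pow_add, mul_assoc]
  exact h _

theorem OO_transfer (P₁ P₂ : TwoSidedIdeal U)
    (fact : ∀ (I : TwoSidedIdeal U) (d M : ℕ), br W.e (Dd d ^ M : A k d) ∈ I → ∃ M', OO W I d M')
    (h : ∀ w ∈ W.minus, w ∈ P₁ ↔ w ∈ P₂) {M : ℕ} (hO : OO W P₁ p M) : ∃ M', OO W P₂ p M' := by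
  refine fact P₂ p M ((h _ (br_mem_minus W (Subalgebra.pow_mem _ Dd_mem_Pol _))).1 ?_)
  have := hO 1
  rwa [mul_one] at this

theorem minus_le (P₁ P₂ : TwoSidedIdeal U) (h2 : IsPrimeI P₂) {M : ℕ}
    (hO1 : OO W P₁ (d + 1) M) (hO2 : OO W P₂ (d + 1) M) (hN : ∀ M', ¬ OO W P₂ d M')
    (h : ∀ w ∈ W.minus, w ∈ P₁ → w ∈ P₂) : P₁ ≤ P₂ := by
  intro u hu
  have hK : OO W (P₁ ⊓ P₂) (d + 1) M := fun g => (TwoSidedIdeal.mem_inf U).2 ⟨hO1 g, hO2 g⟩
  obtain ⟨N, hR⟩ := red (P₁ ⊓ P₂) hK u
  refine extend_poly W P₂ h2 hO2 hN u N (fun g hg => ?_)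
  obtain ⟨w, hw, hwK⟩ := hR g hg
  obtain ⟨hw1, hw2⟩ := (TwoSidedIdeal.mem_inf U).1 hwK
  have h3 : w ∈ P₁ := by
    have := P₁.sub_mem (P₁.mul_mem_right _ (br W.e (E d ^ N * Dd d ^ N * g)) hu) hw1
    rwa [sub_sub_cancel] at this
  have := P₂.add_mem hw2 (h w hw h3)
  rwa [sub_add_cancel] at this

/-- part (2), with Fact 1' as hypothesis -/
theorem minus_inj (P₁ P₂ : TwoSidedIdeal U) (h1 : IsPrimeI P₁) (h2 : IsPrimeI P₂)
    (fact : ∀ (I : TwoSidedIdeal U) (d M : ℕ), br W.e (Dd d ^ M : A k d) ∈ I → ∃ M', OO W I d M')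
    (hO : ∃ d M, OO W P₁ d M) (h : ∀ w ∈ W.minus, w ∈ P₁ ↔ w ∈ P₂) : P₁ = P₂ := by
  classical
  have hmin := Nat.find_spec hO
  obtain ⟨M₁, hM₁⟩ := hmin
  have hlt : ∀ p < Nat.find hO, ∀ M, ¬ OO W P₁ p M := fun p hp M hM =>
    Nat.find_min hO hp ⟨M, hM⟩
  generalize Nat.find hO = p at hM₁ hlt
  cases p with
  | zero =>
    exfalso
    apply h1.1
    have := hM₁ 1
    have e1 : (Dd 0 ^ M₁ * 1 : A k 0) = mono 0 := by
      have : (Dd 0 : A k 0) = 1 := by
        rw [Dd]
        exact Finset.prod_eq_one (fun x => x.1.elim0)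
      rw [this, one_pow, one_mul, mono_zero]
    rw [e1, br_zero_eq] at this
    exact (TwoSidedIdeal.one_mem_iff P₁).1 this
  | succ d =>
    obtain ⟨M₂, hM₂⟩ := OO_transfer W P₁ P₂ fact h hM₁
    have hN1 : ∀ M', ¬ OO W P₁ d M' := hlt d (Nat.lt_succ_self d)
    have hN2 : ∀ M', ¬ OO W P₂ d M' := by
      intro M' hM'
      obtain ⟨M'', hM''⟩ := OO_transfer W P₂ P₁ fact (fun w hw => (h w hw).symm) hM'
      exact hN1 M'' hM''
    have hO1 := hM₁.mono' (le_max_left M₁ M₂)
    have hO2 := hM₂.mono' (le_max_right M₁ M₂)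
    exact le_antisymm (minus_le W P₁ P₂ h2 hO1 hO2 hN2 (fun w hw => (h w hw).1))
      (minus_le W P₂ P₁ h1 hO2 hO1 hN1 (fun w hw => (h w hw).2))

end Pool.WittPrimes
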