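import Pool.Agent.WittPrimes.Fact
import Pool.Agent.WittPrimes.Theta
import Pool.Agent.WittPrimes.Inj

/-!
# Restriction of prime ideals from `U(W)` to `U(W_{≥ -1})`
-/

namespace Pool.WittPrimes
open Finset

attribute [local instance 100] LieRing.ofAssociativeRing

theorem br_Dd_pow_mem {k U : Type*} [Field k] [Ring U] [Algebra k U] (W : WittFam k U) (d M : ℕ) :
    br W.e (Dd d ^ M : A k d) ∈ W.minus :=
  br_mem_minus W (Subalgebra.pow_mem _ Dd_mem_Pol M)

section main

variable {k L : Type*} [Field k] [CharZero k] [LieRing L] [LieAlgebra k L]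
variable (D : WittData k L) (S : LieSubalgebra k L)
  (hS : S.toSubmodule = Submodule.span k (D.b '' {n | -1 ≤ n}))

/-- the Witt family in the enveloping algebra -/
noncomputable def famU : WittFam k (UniversalEnvelopingAlgebra k L) where
  e := fun n => UniversalEnvelopingAlgebra.ι k (D.b n)
  comm := by
    intro m n
    rw [← LieRing.of_associative_ring_bracket, ← LieHom.map_lie, D.brk, map_smul]
  gen := by
    apply UEA_top
    intro x
    have hx : x ∈ Submodule.span k (Set.range D.b) := by rw [D.b.span_eq]; trivial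
    induction hx using Submodule.span_induction with
    | zero => rw [map_zero]; exact Subalgebra.zero_mem _
    | add x y _ _ hx hy => rw [map_add]; exact Subalgebra.add_mem _ hx hy
    | smul c x _ hx => rw [map_smul]; exact Subalgebra.smul_mem _ hx c
    | mem x hx =>
      obtain ⟨n, rfl⟩ := hx
      exact Algebra.subset_adjoin ⟨n, rfl⟩

omit [CharZero k] in
include hS in
theorem minus_le_range {w : UniversalEnvelopingAlgebra k L} (hw : w ∈ (famU D).minus) :
    ∃ w', iotaU S w' = w := by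
  have : (famU D).minus ≤ (iotaU S).range := by
    apply Algebra.adjoin_le
    rintro _ ⟨n, hn, rfl⟩
    refine ⟨eS D S hS n, ?_⟩
    rw [eS_of D S hS hn]
    exact iotaU_ι S _
  exact this hw

omit [CharZero k] in
include hS in
theorem iota_mem_minus (w : UniversalEnvelopingAlgebra k S) : iotaU S w ∈ (famU D).minus := by
  have := eS_induction D S hS ((famU D).minus.comap (iotaU S)) (by
    intro n hn
    show iotaU S (eS D S hS n) ∈ (famU D).minus
    rw [eS_of D S hS hn, iotaU_ι]
    exact Algebra.subset_adjoin ⟨n, hn, rfl⟩) w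
  exact this

include D hS in
theorem iota_injective : Function.Injective (iotaU S) := by
  obtain ⟨Θ, h0, -, -⟩ := theta_facts D S hS
  intro a b h
  rw [← h0 a, h, h0 b]

theorem eq_bot_of_noO (P : TwoSidedIdeal (UniversalEnvelopingAlgebra k L))
    (h : ¬ ∃ d M, OO (famU D) P d M) {u : UniversalEnvelopingAlgebra k L} (hu : u ∈ P) :
    u = 0 := by
  by_contra h0
  obtain ⟨d, M, hM⟩ := fact1 (famU D) P hu h0
  exact h ⟨d, M, hM⟩

include D hS in
/-- part (1) -/
theorem prime_restrict (P : TwoSidedIdeal (UniversalEnvelopingAlgebra k L)) (hP : IsPrimeI P) :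
    IsPrimeI (P.comap (iotaU S)) := by
  refine ⟨?_, ?_⟩
  · intro htop
    apply hP.1
    have h1 : (1 : UniversalEnvelopingAlgebra k S) ∈ P.comap (iotaU S) := by rw [htop]; trivial
    rw [TwoSidedIdeal.mem_comap, map_one] at h1
    rw [eq_top_iff]
    intro x _
    have := P.mul_mem_left x 1 h1
    rwa [mul_one] at this
  · intro a b hab
    rw [TwoSidedIdeal.mem_comap, TwoSidedIdeal.mem_comap]
    have hab' : ∀ w, iotaU S (a * w * b) ∈ P := fun w => by
      have := hab w
      rwa [TwoSidedIdeal.mem_comap] at this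
    by_cases hO : ∃ d M, OO (famU D) P d M
    · apply minus_prime (famU D) P hP hO
      intro w hw
      obtain ⟨w', rfl⟩ := minus_le_range D S hS hw
      rw [← map_mul, ← map_mul]
      exact hab' w'
    · -- `P = 0`
      obtain ⟨Θ, h0, -, h2⟩ := theta_facts D S hS
      have hz : ∀ w, a * w * b = 0 := by
        intro w
        have h1 := eq_bot_of_noO D P hO (hab' w)
        have h3 := h0 (a * w * b)
        rw [h1, map_zero, HahnSeries.coeff_zero] at h3
        exact h3.symm
      have hΘ : ∀ u, Θ u = 0 → u = 0 := by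
        intro u hu
        by_contra hne
        obtain ⟨d, M, hM⟩ := fact1 (famU D) (TwoSidedIdeal.ker Θ) (u := u)
          (by rw [TwoSidedIdeal.mem_ker]; exact hu) hne
        have h3 := hM 1
        rw [mul_one, TwoSidedIdeal.mem_ker] at h3
        obtain ⟨w, hw⟩ := minus_le_range D S hS (br_Dd_pow_mem (famU D) d M)
        rw [← hw] at h3
        have h4 := h0 w
        rw [h3, HahnSeries.coeff_zero] at h4
        have h5 : br (famU D).e (Dd d ^ M : A k d) ∈ P := by
          rw [← hw, ← h4, map_zero]; exact P.zero_mem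
        obtain ⟨M', hM'⟩ := fact1' (famU D) P d M h5
        exact hO ⟨d, M', hM'⟩
      apply hP.2
      intro u
      rw [hΘ _ (h2 a b hz u)]
      exact P.zero_mem

include D hS in
/-- part (2) -/
theorem prime_inj (P₁ P₂ : TwoSidedIdeal (UniversalEnvelopingAlgebra k L)) (h1 : IsPrimeI P₁)
    (h2 : IsPrimeI P₂) (h : P₁.comap (iotaU S) = P₂.comap (iotaU S)) : P₁ = P₂ := by
  have h' : ∀ w ∈ (famU D).minus, w ∈ P₁ ↔ w ∈ P₂ := by
    intro w hw
    obtain ⟨w', rfl⟩ := minus_le_range D S hS hw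
    rw [← TwoSidedIdeal.mem_comap, ← TwoSidedIdeal.mem_comap, h]
  have hf : ∀ (I : TwoSidedIdeal (UniversalEnvelopingAlgebra k L)) (d M : ℕ),
      br (famU D).e (Dd d ^ M : A k d) ∈ I → ∃ M', OO (famU D) I d M' :=
    fun I d M hI => fact1' (famU D) I d M hI
  by_cases hO : ∃ d M, OO (famU D) P₁ d M
  · exact minus_inj (famU D) P₁ P₂ h1 h2 hf hO h'
  · by_cases hO2 : ∃ d M, OO (famU D) P₂ d M
    · exact (minus_inj (famU D) P₂ P₁ h2 h1 hf hO2 (fun w hw => (h' w hw).symm)).symm
    · ext u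
      constructor
      · intro hu; rw [eq_bot_of_noO D P₁ hO hu]; exact P₂.zero_mem
      · intro hu; rw [eq_bot_of_noO D P₂ hO2 hu]; exact P₁.zero_mem

include D hS in
/-- **Main theorem** -/
theorem main : Function.Injective (iotaU S) ∧
    Set.BijOn (fun P : TwoSidedIdeal (UniversalEnvelopingAlgebra k L) => P.comap (iotaU S))
      {P | IsPrimeI P} {Q | IsPrimeI Q} ∧
    ∀ P₁ P₂ : TwoSidedIdeal (UniversalEnvelopingAlgebra k L), IsPrimeI P₁ → IsPrimeI P₂ →
      P₁.comap (iotaU S) ≤ P₂.comap (iotaU S) → P₁ ≤ P₂ := by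
  have hsurj : ∀ Q : TwoSidedIdeal (UniversalEnvelopingAlgebra k S), IsPrimeI Q →
      ∃ P, IsPrimeI P ∧ P.comap (iotaU S) = Q ∧ P = PQ D S hS Q := by
    intro Q hQ
    obtain ⟨h1, h2⟩ := PQ_spec D S hS Q hQ
    refine ⟨_, h1, ?_, rfl⟩
    ext w
    rw [TwoSidedIdeal.mem_comap, h2]
  refine ⟨iota_injective D S hS, ⟨fun P hP => prime_restrict D S hS P hP,
    fun P₁ h1 P₂ h2 h => prime_inj D S hS P₁ P₂ h1 h2 h, ?_⟩, ?_⟩
  · intro Q hQ
    obtain ⟨P, hP, h, -⟩ := hsurj Q hQ
    exact ⟨P, hP, h⟩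
  · intro P₁ P₂ h1 h2 h
    obtain ⟨P₁', hP₁', e1, e1'⟩ := hsurj _ (prime_restrict D S hS P₁ h1)
    obtain ⟨P₂', hP₂', e2, e2'⟩ := hsurj _ (prime_restrict D S hS P₂ h2)
    rw [prime_inj D S hS P₁ P₁' h1 hP₁' e1.symm, prime_inj D S hS P₂ P₂' h2 hP₂' e2.symm, e1', e2']
    intro u hu
    rw [mem_PQ] at hu ⊢
    exact fun n => h (hu n)

end main

end Pool.WittPrimes
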