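import Mathlib

/-!
# Laurent polynomials in `p` variables and ordered words in a Witt family

`A k p` is the Laurent polynomial ring in `p` variables, with monomials `mono n`, `n : Fin p → ℤ`.
For a family `e : ℤ → U` in a `k`-algebra `U`, `br e : A k p → U` is the linear map
`mono n ↦ e (n 0) * e (n 1) * ... * e (n (p-1))`.
-/

namespace Pool.WittPrimes

open Finset

/-- Laurent polynomials in `p` variables. -/
abbrev A (k : Type*) [Field k] (p : ℕ) := AddMonoidAlgebra k (Fin p → ℤ)

variable {k : Type*} [Field k] {p q j : ℕ}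

/-- monomial `X^n` -/
noncomputable def mono (n : Fin p → ℤ) : A k p := AddMonoidAlgebra.single n 1

/-- the power `X_i^m` -/
noncomputable def Xz (i : Fin p) (m : ℤ) : A k p := mono (Pi.single i m)

/-- the variable `X_i` -/
noncomputable def X (i : Fin p) : A k p := mono (Pi.single i 1)

theorem mono_mul (m n : Fin p → ℤ) : (mono m * mono n : A k p) = mono (m + n) := by
  simp [mono, AddMonoidAlgebra.single_mul_single]

@[simp] theorem mono_zero : (mono 0 : A k p) = 1 := rfl

theorem mono_eq_basis (n : Fin p → ℤ) :
    (mono n : A k p) = AddMonoidAlgebra.basis (Fin p → ℤ) k n := by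
  simp [mono]

/-- the linear map determined by its values on monomials -/
noncomputable def lin {V : Type*} [AddCommGroup V] [Module k V] (v : (Fin p → ℤ) → V) :
    A k p →ₗ[k] V :=
  (AddMonoidAlgebra.basis (Fin p → ℤ) k).constr k v

@[simp] theorem lin_mono {V : Type*} [AddCommGroup V] [Module k V] (v : (Fin p → ℤ) → V)
    (n : Fin p → ℤ) : lin v (mono n : A k p) = v n := by
  rw [mono_eq_basis, lin, Module.Basis.constr_basis]

theorem lin_ext {V : Type*} [AddCommGroup V] [Module k V] {f g : A k p →ₗ[k] V}
    (h : ∀ n, f (mono n) = g (mono n)) : f = g := by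
  apply (AddMonoidAlgebra.basis (Fin p → ℤ) k).ext
  intro n
  rw [← mono_eq_basis]
  exact h n

theorem span_mono : Submodule.span k (Set.range (fun n => (mono n : A k p))) = ⊤ := by
  have := (AddMonoidAlgebra.basis (Fin p → ℤ) k).span_eq
  convert this using 3
  funext n
  exact mono_eq_basis n

/-- induction principle -/
theorem A_induction {P : A k p → Prop} (f : A k p) (h0 : P 0)
    (hadd : ∀ f g, P f → P g → P (f + g)) (hmono : ∀ (c : k) n, P (c • mono n)) : P f := by
  induction f using AddMonoidAlgebra.induction_linear with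
  | zero => exact h0
  | add f g hf hg => exact hadd f g hf hg
  | single n c =>
    have := hmono c n
    rwa [mono, AddMonoidAlgebra.smul_single, smul_eq_mul, mul_one] at this

/-- the derivation `X_i d/dX_i` -/
noncomputable def th (i : Fin p) : A k p →ₗ[k] A k p :=
  lin (fun n => ((n i : ℤ) : k) • mono n)

@[simp] theorem th_mono (i : Fin p) (n : Fin p → ℤ) :
    th i (mono n : A k p) = ((n i : ℤ) : k) • mono n := lin_mono _ _

theorem th_mul (i : Fin p) (f g : A k p) : th i (f * g) = th i f * g + f * th i g := by
  induction f using A_induction with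
  | h0 => simp
  | hadd f f' hf hf' => simp only [add_mul, map_add, hf, hf']; ring
  | hmono c n =>
    induction g using A_induction with
    | h0 => simp
    | hadd g g' hg hg' => simp only [mul_add, map_add, hg, hg']; ring
    | hmono c' n' =>
      simp only [smul_mul_assoc, mul_smul_comm, mono_mul, map_smul, th_mono, Pi.add_apply,
        Int.cast_add, add_smul, smul_add]
      congr 1 <;> simp only [smul_smul] <;> congr 1 <;> ring

@[simp] theorem th_one (i : Fin p) : th i (1 : A k p) = 0 := by
  rw [← mono_zero, th_mono]; simp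

/-- the action of `e_m` on words: `L_m = ∑ X_i^m (θ_i - m)` -/
noncomputable def Lop (m : ℤ) : A k p →ₗ[k] A k p :=
  lin (fun n => ∑ i, ((n i : ℤ) - m : k) • mono (n + Pi.single i m))

@[simp] theorem Lop_mono (m : ℤ) (n : Fin p → ℤ) :
    Lop m (mono n : A k p) = ∑ i, ((n i : ℤ) - m : k) • mono (n + Pi.single i m) := lin_mono _ _

theorem Lop_apply (m : ℤ) (f : A k p) :
    Lop m f = ∑ i, Xz i m * (th i f - (m : k) • f) := by
  induction f using A_induction with
  | h0 => simp
  | hadd f g hf hg =>
    rw [map_add, hf, hg, ← Finset.sum_add_distrib]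
    refine Finset.sum_congr rfl fun i _ => ?_
    rw [map_add, smul_add]; ring
  | hmono c n =>
    rw [map_smul, Lop_mono, Finset.smul_sum]
    refine Finset.sum_congr rfl fun i _ => ?_
    rw [map_smul, th_mono, smul_comm (m : k) c, ← smul_sub, ← sub_smul, mul_smul_comm,
      mul_smul_comm, Xz, mono_mul, add_comm n]

/-- the vector field `v_m = ∑ X_i^m θ_i` -/
noncomputable def vf (m : ℤ) (f : A k p) : A k p := ∑ i, Xz i m * th i f

theorem vf_mul (m : ℤ) (f g : A k p) : vf m (f * g) = vf m f * g + f * vf m g := by
  simp only [vf, th_mul, Finset.sum_mul, Finset.mul_sum, ← Finset.sum_add_distrib]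
  refine Finset.sum_congr rfl fun i _ => ?_
  ring

/-- substitution of variables `X_a ↦ X_{φ a}` -/
noncomputable def push (φ : Fin p → Fin j) : (Fin p → ℤ) →+ (Fin j → ℤ) where
  toFun m := fun i => ∑ a, if φ a = i then m a else 0
  map_zero' := by ext i; simp
  map_add' m n := by
    ext i
    simp only [Pi.add_apply, ← Finset.sum_add_distrib]
    refine Finset.sum_congr rfl fun a _ => ?_
    split_ifs <;> simp

theorem push_apply (φ : Fin p → Fin j) (m : Fin p → ℤ) (i : Fin j) :
    push φ m i = ∑ a, if φ a = i then m a else 0 := rfl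

/-- substitution `X_a ↦ X_{φ a}` as an algebra homomorphism -/
noncomputable def sub (φ : Fin p → Fin j) : A k p →ₐ[k] A k j :=
  AddMonoidAlgebra.mapDomainAlgHom k k (push φ)

@[simp] theorem sub_mono (φ : Fin p → Fin j) (m : Fin p → ℤ) :
    sub φ (mono m : A k p) = mono (push φ m) := by
  simp [sub, mono]

theorem push_single (φ : Fin p → Fin j) (a : Fin p) (m : ℤ) :
    push φ (Pi.single a m) = Pi.single (φ a) m := by
  ext i
  rw [push_apply, Finset.sum_eq_single a]
  · by_cases h : φ a = i
    · subst h; simp
    · simp [h, Pi.single_apply, Ne.symm h]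
  · intro b _ hb
    simp [Pi.single_apply, hb]
  · simp

@[simp] theorem sub_X (φ : Fin p → Fin j) (a : Fin p) : sub φ (X a : A k p) = X (φ a) := by
  rw [X, sub_mono, push_single]; rfl

@[simp] theorem sub_Xz (φ : Fin p → Fin j) (a : Fin p) (m : ℤ) :
    sub φ (Xz a m : A k p) = Xz (φ a) m := by
  rw [Xz, sub_mono, push_single]; rfl

theorem push_comp (ψ : Fin j → Fin q) (φ : Fin p → Fin j) (m : Fin p → ℤ) :
    push ψ (push φ m) = push (ψ ∘ φ) m := by
  ext i
  simp only [push_apply, Function.comp]
  have : ∀ b : Fin j, (if ψ b = i then ∑ a, (if φ a = b then m a else 0) else 0)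
      = ∑ a, (if φ a = b then (if ψ b = i then m a else 0) else 0) := by
    intro b
    split_ifs with h
    · rfl
    · simp
  simp only [this]
  rw [Finset.sum_comm]
  refine Finset.sum_congr rfl fun a _ => ?_
  simp

theorem sub_sub (ψ : Fin j → Fin q) (φ : Fin p → Fin j) (f : A k p) :
    sub ψ (sub φ f) = sub (ψ ∘ φ) f := by
  induction f using A_induction with
  | h0 => simp
  | hadd f g hf hg => simp only [map_add, hf, hg]
  | hmono c n => simp only [map_smul, sub_mono, push_comp]

theorem push_perm (π : Equiv.Perm (Fin p)) (m : Fin p → ℤ) : push π m = m ∘ π.symm := by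
  ext i
  rw [push_apply, Finset.sum_eq_single (π.symm i)]
  · simp
  · intro b _ hb
    rw [if_neg]
    rintro rfl
    simp at hb
  · simp

@[simp] theorem sub_id (f : A k p) : sub id f = f := by
  induction f using A_induction with
  | h0 => simp
  | hadd f g hf hg => simp only [map_add, hf, hg]
  | hmono c n =>
    rw [map_smul, sub_mono]
    have := push_perm (Equiv.refl (Fin p)) n
    simp only [Equiv.coe_refl] at this
    rw [this]; rfl

/-- `E = X_1 ⋯ X_p` -/
noncomputable def E (p : ℕ) : A k p := mono (fun _ => 1)

/-- the discriminant, product over ordered pairs `i ≠ j` of `X_i - X_j` -/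
noncomputable def Dd (p : ℕ) : A k p := ∏ x ∈ (univ : Finset (Fin p × Fin p)).filter
  (fun x => x.1 ≠ x.2), (X x.1 - X x.2)

theorem sub_Dd (π : Equiv.Perm (Fin p)) : sub π (Dd p : A k p) = Dd p := by
  rw [Dd, map_prod]
  refine Finset.prod_equiv (Equiv.prodCongr π π) ?_ ?_
  · intro x; simp
  · intro x hx; simp

theorem sub_E (π : Equiv.Perm (Fin p)) : sub π (E p : A k p) = E p := by
  rw [E, sub_mono, push_perm]; rfl

section words

variable {U : Type*} [Ring U] [Algebra k U]

/-- ordered words -/
noncomputable def br (e : ℤ → U) : A k p →ₗ[k] U :=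
  lin (fun n => (List.ofFn fun i => e (n i)).prod)

@[simp] theorem br_mono (e : ℤ → U) (n : Fin p → ℤ) :
    br e (mono n : A k p) = (List.ofFn fun i => e (n i)).prod := lin_mono _ _

/-- A Witt family in an algebra: a generating family satisfying the Witt relations. -/
structure WittFam (k : Type*) [Field k] (U : Type*) [Ring U] [Algebra k U] where
  /-- the elements -/
  e : ℤ → U
  /-- the relations -/
  comm : ∀ m n : ℤ, e m * e n - e n * e m = ((n : k) - m) • e (m + n)
  /-- generation -/
  gen : Algebra.adjoin k (Set.range e) = ⊤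

end words

end Pool.WittPrimes
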