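import Mathlib

/-!
# Definitions: Lie algebras with a Witt basis, prime two-sided ideals, restriction of ideals
-/

namespace Pool.WittPrimes

/-- A Lie algebra with a basis satisfying the Witt relations. -/
structure WittData (k L : Type*) [Field k] [LieRing L] [LieAlgebra k L] where
  /-- basis `e_n = t^{n+1} d/dt` -/
  b : Module.Basis ℤ k L
  /-- relations -/
  brk : ∀ m n : ℤ, ⁅b m, b n⁆ = ((n : k) - m) • b (m + n)

/-- A two-sided ideal `P` is prime if it is proper and `a U b ⊆ P` implies `a ∈ P` or `b ∈ P`. -/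
def IsPrimeI {U : Type*} [Ring U] (P : TwoSidedIdeal U) : Prop :=
  P ≠ ⊤ ∧ ∀ a b : U, (∀ u : U, a * u * b ∈ P) → a ∈ P ∨ b ∈ P

attribute [local instance 100] LieRing.ofAssociativeRing

/-- the map of enveloping algebras `U(S) → U(L)` induced by the inclusion of a Lie subalgebra -/
noncomputable def iotaU {k L : Type*} [Field k] [LieRing L] [LieAlgebra k L]
    (S : LieSubalgebra k L) :
    UniversalEnvelopingAlgebra k S →ₐ[k] UniversalEnvelopingAlgebra k L :=
  UniversalEnvelopingAlgebra.lift k
    ((UniversalEnvelopingAlgebra.ι k : L →ₗ⁅k⁆ UniversalEnvelopingAlgebra k L).comp S.incl)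

end Pool.WittPrimes
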