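import Pool.Agent.WittPrimes.Defs

/-!
# The Witt algebra as the Lie algebra of derivations of the Laurent polynomials

`Witt k = Der_k(k[t,t⁻¹])` has the basis `e_n = t^{n+1} d/dt` with `[e_m,e_n] = (n-m) e_{m+n}`, and the
subalgebra `WittPlus k` of the derivations preserving `k[t]` is the span of the `e_n`, `n ≥ -1`.
-/

set_option autoImplicit false

namespace Pool.WittPrimes
open LaurentPolynomial

/-- the Witt algebra `W = Der(k[t,t⁻¹])` -/
abbrev Witt (k : Type*) [Field k] := Derivation k k[T;T⁻¹] k[T;T⁻¹]

/-- `W_{≥-1}`: the derivations of `k[t,t⁻¹]` which preserve `k[t]` -/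
def WittPlus (k : Type*) [Field k] : LieSubalgebra k (Witt k) where
  carrier := {D | ∀ f : Polynomial k, ∃ g : Polynomial k,
    D (Polynomial.toLaurent f) = Polynomial.toLaurent g}
  add_mem' := by
    intro D E hD hE f
    obtain ⟨g, hg⟩ := hD f
    obtain ⟨h, hh⟩ := hE f
    exact ⟨g + h, by rw [Derivation.add_apply, hg, hh, map_add]⟩
  zero_mem' := fun f => ⟨0, by rw [Derivation.zero_apply, map_zero]⟩
  smul_mem' := by
    intro c D hD f
    obtain ⟨g, hg⟩ := hD f
    refine ⟨c • g, ?_⟩
    rw [Derivation.smul_apply, hg, ← Polynomial.toLaurentAlg_apply, ← Polynomial.toLaurentAlg_apply,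
      map_smul]
  lie_mem' := by
    intro D E hD hE f
    obtain ⟨g, hg⟩ := hD f
    obtain ⟨h, hh⟩ := hE f
    obtain ⟨g', hg'⟩ := hE g
    obtain ⟨h', hh'⟩ := hD h
    exact ⟨h' - g', by rw [Derivation.commutator_apply, hh, hg, hh', hg', map_sub]⟩

variable (k : Type*) [Field k]

/-- the monomial basis of the Laurent polynomials -/
noncomputable def tB : Module.Basis ℤ k k[T;T⁻¹] :=
  Module.Basis.ofRepr (AddMonoidAlgebra.coeffLinearEquiv k)

theorem tB_apply (n : ℤ) : tB k n = T n := by
  apply (tB k).repr.injective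
  rw [Module.Basis.repr_self]
  rfl

/-- the linear map `d/dt` -/
noncomputable def dLin : k[T;T⁻¹] →ₗ[k] k[T;T⁻¹] :=
  (tB k).constr k (fun m => (m : k) • (T (m - 1) : k[T;T⁻¹]))

theorem dLin_T (m : ℤ) : dLin k (T m) = (m : k) • (T (m - 1) : k[T;T⁻¹]) := by
  rw [← tB_apply, dLin, Module.Basis.constr_basis]

/-- the derivation `d/dt` -/
noncomputable def dd : Witt k :=
  Derivation.mk' (dLin k) (by
    intro a b
    have key : ∀ m n : ℤ, dLin k (T m * T n) = T m * dLin k (T n) + T n * dLin k (T m) := by
      intro m n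
      rw [← T_add, dLin_T, dLin_T, dLin_T, mul_smul_comm, mul_smul_comm, ← T_add, ← T_add]
      rw [show m + (n - 1) = m + n - 1 by ring, show n + (m - 1) = m + n - 1 by ring, ← add_smul]
      push_cast
      rw [add_comm (m : k)]
    have h1 : ∀ (m : ℤ) (b : k[T;T⁻¹]), dLin k (T m * b) = T m * dLin k b + b * dLin k (T m) := by
      intro m b
      have : (dLin k) ∘ₗ (LinearMap.mulLeft k (T m)) =
          (LinearMap.mulLeft k (T m)) ∘ₗ (dLin k) + LinearMap.mulRight k (dLin k (T m)) := by
        apply (tB k).ext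
        intro n
        rw [tB_apply]
        exact key m n
      exact LinearMap.congr_fun this b
    have h2 : (dLin k) ∘ₗ (LinearMap.mulRight k b) =
        LinearMap.mulRight k (dLin k b) + (LinearMap.mulRight k b) ∘ₗ (dLin k) := by
      apply (tB k).ext
      intro m
      rw [tB_apply]
      have := h1 m b
      simp only [LinearMap.comp_apply, LinearMap.mulRight_apply, LinearMap.add_apply]
      rw [this, mul_comm b]
    have := LinearMap.congr_fun h2 a
    simp only [LinearMap.comp_apply, LinearMap.mulRight_apply, LinearMap.add_apply] at this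
    rw [this, smul_eq_mul, smul_eq_mul, mul_comm b])

theorem dd_T (m : ℤ) : dd k (T m) = (m : k) • (T (m - 1) : k[T;T⁻¹]) := dLin_T k m

variable {k}

theorem der_zero {D : Witt k} (h : D (T 1) = 0) : D = 0 := by
  have h1 : ∀ n : ℕ, D (T n) = 0 := by
    intro n
    induction n with
    | zero => rw [Nat.cast_zero, T_zero, D.map_one_eq_zero]
    | succ n ih =>
      rw [Nat.cast_succ, T_add, D.leibniz, ih, h, smul_zero, smul_zero, add_zero]
  have h2 : ∀ n : ℕ, D (T (-n)) = 0 := by
    intro n
    have e : D (T n * T (-n)) = 0 := by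
      rw [← T_add, add_neg_cancel, T_zero, D.map_one_eq_zero]
    rw [D.leibniz, h1, smul_zero, add_zero, smul_eq_mul] at e
    exact ((isUnit_T (R := k) (n : ℤ)).mul_right_eq_zero).1 e
  have h3 : (D : k[T;T⁻¹] →ₗ[k] k[T;T⁻¹]) = 0 := by
    apply (tB k).ext
    intro n
    rw [tB_apply, LinearMap.zero_apply]
    obtain ⟨m, rfl | rfl⟩ := n.eq_nat_or_neg
    · exact h1 m
    · exact h2 m
  ext1 x
  exact LinearMap.congr_fun h3 x

variable (k)

/-- a derivation is determined by its value at `t` -/
noncomputable def evE : k[T;T⁻¹] ≃ₗ[k] Witt k where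
  toFun f := f • dd k
  map_add' f g := add_smul f g _
  map_smul' c f := smul_assoc c f _
  invFun D := D (T 1)
  left_inv f := by
    change (f • dd k) (T 1) = f
    rw [Derivation.smul_apply, dd_T]
    simp
  right_inv D := by
    change D (T 1) • dd k = D
    rw [← sub_eq_zero]
    apply der_zero
    rw [Derivation.sub_apply, Derivation.smul_apply, dd_T]
    simp

theorem evE_apply (f : k[T;T⁻¹]) : evE k f = f • dd k := rfl

theorem evE_T_apply (f : k[T;T⁻¹]) : evE k f (T 1) = f := (evE k).left_inv f

theorem eq_evE (D : Witt k) : D = evE k (D (T 1)) := ((evE k).right_inv D).symm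

theorem dd_toLaurent (f : Polynomial k) :
    dd k (Polynomial.toLaurent f) = Polynomial.toLaurent (Polynomial.derivative f) := by
  have : (dd k : k[T;T⁻¹] →ₗ[k] k[T;T⁻¹]) ∘ₗ (Polynomial.toLaurentAlg (R := k)).toLinearMap =
      (Polynomial.toLaurentAlg (R := k)).toLinearMap ∘ₗ Polynomial.derivative := by
    apply Polynomial.lhom_ext'
    intro n
    apply LinearMap.ext_ring
    simp only [LinearMap.comp_apply, AlgHom.toLinearMap_apply, Polynomial.toLaurentAlg_apply]
    rw [Derivation.coeFn_coe, Polynomial.derivative_monomial, ← Polynomial.C_mul_X_pow_eq_monomial,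
      ← Polynomial.C_mul_X_pow_eq_monomial, Polynomial.toLaurent_C_mul_X_pow,
      Polynomial.toLaurent_C_mul_X_pow, map_one, one_mul, one_mul, dd_T]
    cases n with
    | zero => simp
    | succ n =>
      rw [Nat.cast_succ, add_sub_cancel_right, Nat.add_sub_cancel, smul_eq_C_mul]
      push_cast
      rfl
  exact LinearMap.congr_fun this f

theorem exists_wittData [CharZero k] : ∃ D : WittData k (Witt k),
    (∀ n, D.b n (T 1) = T (n + 1)) ∧
    (WittPlus k).toSubmodule = Submodule.span k (D.b '' {n | -1 ≤ n}) := by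
  have hb : ∀ n : ℤ, (((tB k).reindex (Equiv.addRight (1 : ℤ)).symm).map (evE k)) n =
      evE k (T (n + 1)) := by
    intro n
    rw [Module.Basis.map_apply, Module.Basis.reindex_apply, Equiv.symm_symm, tB_apply]
    rfl
  refine ⟨⟨((tB k).reindex (Equiv.addRight (1 : ℤ)).symm).map (evE k), ?_⟩, ?_, ?_⟩
  · intro m n
    rw [hb, hb, hb, ← sub_eq_zero]
    apply der_zero
    rw [Derivation.sub_apply, Derivation.commutator_apply, Derivation.smul_apply, evE_T_apply,
      evE_T_apply, evE_T_apply, evE_apply, evE_apply, Derivation.smul_apply, Derivation.smul_apply,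
      dd_T, dd_T, smul_eq_mul, smul_eq_mul, mul_smul_comm, mul_smul_comm, ← T_add, ← T_add]
    rw [show m + 1 + (n + 1 - 1) = m + n + 1 by ring, show n + 1 + (m + 1 - 1) = m + n + 1 by ring,
      ← sub_smul, ← sub_smul]
    push_cast
    rw [show (n : k) + 1 - (m + 1) - (n - m) = 0 by ring, zero_smul]
  · intro n
    change (((tB k).reindex (Equiv.addRight (1 : ℤ)).symm).map (evE k)) n (T 1) = _
    rw [hb, evE_T_apply]
  · apply le_antisymm
    · intro D hD
      obtain ⟨g, hg⟩ := hD Polynomial.X
      rw [Polynomial.toLaurent_X] at hg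
      rw [eq_evE k D, hg]
      clear hg
      induction g using Polynomial.induction_on' with
      | add p q hp hq =>
        rw [map_add, map_add]
        exact Submodule.add_mem _ hp hq
      | monomial n a =>
        rw [← Polynomial.C_mul_X_pow_eq_monomial, Polynomial.toLaurent_C_mul_X_pow,
          ← smul_eq_C_mul, map_smul]
        apply Submodule.smul_mem
        apply Submodule.subset_span
        refine ⟨(n : ℤ) - 1, ?_, ?_⟩
        · change -1 ≤ (n : ℤ) - 1
          omega
        · change (((tB k).reindex (Equiv.addRight (1 : ℤ)).symm).map (evE k)) ((n : ℤ) - 1) = _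
          rw [hb, sub_add_cancel]
    · rw [Submodule.span_le]
      rintro _ ⟨n, hn, rfl⟩
      intro f
      refine ⟨Polynomial.X ^ (n + 1).toNat * Polynomial.derivative f, ?_⟩
      change (((tB k).reindex (Equiv.addRight (1 : ℤ)).symm).map (evE k)) n _ = _
      rw [hb, evE_apply, Derivation.smul_apply, dd_toLaurent, map_mul, Polynomial.toLaurent_X_pow,
        smul_eq_mul, Int.toNat_of_nonneg (by change -1 ≤ n at hn; omega)]

end Pool.WittPrimes
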