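import Pool.Agent.WittPrimes.Swap

/-!
# Every nonzero ideal contains all ordered words with symbol divisible by a power of the discriminant
-/

namespace Pool.WittPrimes
open Finset
variable {k : Type*} [Field k] {p q j d : ℕ}
variable {U : Type*} [Ring U] [Algebra k U] (W : WittFam k U)

theorem push_swap (n : Fin (p + 1) → ℤ) (i : Fin p) :
    push (Equiv.swap i.castSucc i.succ) n =
      Function.update (Function.update n i.castSucc (n i.succ)) i.succ (n i.castSucc) := by
  rw [push_perm]
  ext x
  simp only [Function.comp, Equiv.symm_swap, Function.update_apply]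
  have hne : i.castSucc ≠ i.succ := by simp [Fin.ext_iff]
  by_cases h1 : x = i.succ
  · subst h1; simp [Equiv.swap_apply_right]
  · by_cases h2 : x = i.castSucc
    · subst h2; simp [h1, Equiv.swap_apply_left]
    · simp [h1, h2, Equiv.swap_apply_of_ne_of_ne h2 h1]

/-- words with two adjacent letters varying -/
theorem split_word (n : Fin (p + 1) → ℤ) (i : Fin p) : ∃ L R : U,
    (∀ c : ℤ, L * W.e c * R ∈ (Fil W.e (p + 1) : Submodule k U)) ∧
    ∀ a b, br W.e (mono (Function.update (Function.update n i.castSucc a) i.succ b) : A k (p + 1))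
      = L * (W.e a * W.e b) * R := by
  obtain ⟨l, r, hlr, h⟩ := split_list n i
  refine ⟨(l.map W.e).prod, (r.map W.e).prod, ?_, ?_⟩
  · intro c
    have := word_mem_Fil (k := k) W.e (l ++ c :: r) (d := p + 1) (by simp; omega)
    simpa [mul_assoc] using this
  · intro a b
    rw [br_mono]
    have h1 := h a b
    have h2 : (List.ofFn fun x => W.e ((Function.update (Function.update n i.castSucc a) i.succ b) x))
        = (List.ofFn (Function.update (Function.update n i.castSucc a) i.succ b)).map W.e := by
      rw [List.map_ofFn]; rfl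
    rw [h2, h1]
    simp [mul_assoc]

theorem update_self2 (n : Fin (p + 1) → ℤ) (i : Fin p) :
    Function.update (Function.update n i.castSucc (n i.castSucc)) i.succ (n i.succ) = n := by
  simp

theorem swap_adj_mod (i : Fin p) (h : A k (p + 1)) :
    br W.e (sub (Equiv.swap i.castSucc i.succ) h) - br W.e h ∈
      (Fil W.e (p + 1) : Submodule k U) := by
  induction h using A_induction with
  | h0 => simp
  | hadd f g hf hg =>
    have := Submodule.add_mem _ hf hg
    rw [map_add, map_add, map_add]
    convert this using 1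
    abel
  | hmono c n =>
    rw [map_smul, map_smul, map_smul, ← smul_sub]
    refine Submodule.smul_mem _ _ ?_
    obtain ⟨L, R, hF, hs⟩ := split_word W n i
    have h2 := hs (n i.castSucc) (n i.succ)
    rw [update_self2] at h2
    rw [sub_mono, push_swap, hs, h2]
    have : L * (W.e (n i.succ) * W.e (n i.castSucc)) * R -
        L * (W.e (n i.castSucc) * W.e (n i.succ)) * R =
        (((n i.castSucc : ℤ) : k) - (n i.succ : ℤ)) • (L * W.e (n i.succ + n i.castSucc) * R) := by
      rw [← sub_mul, ← mul_sub, W.comm, mul_smul_comm, smul_mul_assoc]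
    rw [this]
    exact Submodule.smul_mem _ _ (hF _)

theorem sub_mul_perm (π π' : Equiv.Perm (Fin p)) (h : A k p) :
    sub (π * π' : Equiv.Perm (Fin p)) h = sub π (sub π' h) := by
  rw [sub_sub]; rfl

theorem swap_mod (π : Equiv.Perm (Fin p)) (h : A k p) :
    br W.e (sub π h) - br W.e h ∈ (Fil W.e p : Submodule k U) := by
  cases p with
  | zero =>
    have : π = 1 := Subsingleton.elim _ _
    subst this
    simp
  | succ p =>
    have hπ : π ∈ Submonoid.closure (Set.range fun i : Fin p ↦ Equiv.swap i.castSucc i.succ) := by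
      rw [Equiv.Perm.mclosure_swap_castSucc_succ]; trivial
    induction hπ using Submonoid.closure_induction generalizing h with
    | mem x hx =>
      obtain ⟨i, rfl⟩ := hx
      exact swap_adj_mod W i h
    | one => simp
    | mul x y _ _ hx hy =>
      have := Submodule.add_mem _ (hx (sub y h)) (hy h)
      rw [sub_mul_perm]
      convert this using 1
      abel

theorem sq_dvd_Dd (i j : Fin p) (h : i ≠ j) : (X i - X j) ^ 2 ∣ (Dd p : A k p) := by
  have h1 : ∏ x ∈ ({(i, j), (j, i)} : Finset (Fin p × Fin p)), (X x.1 - X x.2 : A k p) ∣ Dd p := by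
    apply Finset.prod_dvd_prod_of_subset
    intro x hx
    simp only [Finset.mem_insert, Finset.mem_singleton] at hx
    rcases hx with rfl | rfl
    · simp [h]
    · simp [h.symm]
  rw [Finset.prod_pair (by simp [h])] at h1
  refine dvd_trans ?_ h1
  exact ⟨-1, by ring⟩

theorem swap_adj_D (i : Fin p) (h : A k (p + 1)) :
    br W.e (sub (Equiv.swap i.castSucc i.succ) ((X i.castSucc - X i.succ) ^ 2 * h)) =
      br W.e ((X i.castSucc - X i.succ) ^ 2 * h) := by
  rw [← sub_eq_zero]
  induction h using A_induction with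
  | h0 => simp
  | hadd f g hf hg =>
    rw [mul_add, map_add, map_add, map_add, add_sub_add_comm, hf, hg, add_zero]
  | hmono c n =>
    rw [mul_smul_comm, map_smul, map_smul, map_smul, ← smul_sub]
    convert smul_zero c using 2
    have e1 : ((X i.castSucc - X i.succ) ^ 2 * mono n : A k (p + 1)) =
        mono (Function.update (Function.update n i.castSucc (n i.castSucc + 2)) i.succ (n i.succ))
        - (2 : k) • mono (Function.update (Function.update n i.castSucc (n i.castSucc + 1)) i.succ
            (n i.succ + 1))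
        + mono (Function.update (Function.update n i.castSucc (n i.castSucc)) i.succ
            (n i.succ + 2)) := by
      have hne : i.castSucc ≠ i.succ := by simp [Fin.ext_iff]
      have e2 : ((X i.castSucc - X i.succ) ^ 2 * mono n : A k (p + 1)) =
          X i.castSucc * X i.castSucc * mono n - (2 : A k (p + 1)) * (X i.castSucc * X i.succ * mono n)
          + X i.succ * X i.succ * mono n := by ring
      have e3 : ∀ y : A k (p + 1), (2 : k) • y = 2 * y := by
        intro y; rw [Algebra.smul_def, map_ofNat]
      rw [e2, e3]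
      simp only [X, mono_mul]
      congr 1
      · congr 1
        · congr 1
          ext x
          simp only [Pi.add_apply, Pi.single_apply, Function.update_apply]
          by_cases h1 : x = i.succ
          · subst h1; simp [hne.symm]
          · by_cases h2 : x = i.castSucc
            · subst h2; simp [h1]; ring
            · simp [h1, h2]
        · congr 2
          ext x
          simp only [Pi.add_apply, Pi.single_apply, Function.update_apply]
          by_cases h1 : x = i.succ
          · subst h1; simp [hne.symm]; ring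
          · by_cases h2 : x = i.castSucc
            · subst h2; simp [h1]; ring
            · simp [h1, h2]
      · congr 1
        ext x
        simp only [Pi.add_apply, Pi.single_apply, Function.update_apply]
        by_cases h1 : x = i.succ
        · subst h1; simp; ring
        · by_cases h2 : x = i.castSucc
          · subst h2; simp [h1]
          · simp [h1, h2]
    obtain ⟨L, R, -, hs⟩ := split_word W n i
    have e4 : ∀ a b, sub (Equiv.swap i.castSucc i.succ) (mono
        (Function.update (Function.update n i.castSucc a) i.succ b) : A k (p + 1)) =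
        mono (Function.update (Function.update n i.castSucc b) i.succ a) := by
      intro a b
      have hne : i.castSucc ≠ i.succ := by simp [Fin.ext_iff]
      rw [sub_mono, push_swap]
      congr 1
      ext x
      simp only [Function.update_apply]
      by_cases h1 : x = i.succ
      · subst h1; simp [hne]
      · by_cases h2 : x = i.castSucc
        · subst h2; simp [h1]
        · simp [h1, h2]
    rw [e1]
    simp only [map_add, map_sub, map_smul, e4, hs]
    have c1 := W.comm (n i.succ) (n i.castSucc + 2)
    have c2 := W.comm (n i.succ + 1) (n i.castSucc + 1)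
    have c3 := W.comm (n i.succ + 2) (n i.castSucc)
    have key : L * (W.e (n i.succ) * W.e (n i.castSucc + 2)) * R -
        (2 : k) • (L * (W.e (n i.succ + 1) * W.e (n i.castSucc + 1)) * R) +
        L * (W.e (n i.succ + 2) * W.e (n i.castSucc)) * R -
        (L * (W.e (n i.castSucc + 2) * W.e (n i.succ)) * R -
        (2 : k) • (L * (W.e (n i.castSucc + 1) * W.e (n i.succ + 1)) * R) +
        L * (W.e (n i.castSucc) * W.e (n i.succ + 2)) * R) =
        L * ((W.e (n i.succ) * W.e (n i.castSucc + 2) - W.e (n i.castSucc + 2) * W.e (n i.succ)) -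
        (2 : k) • (W.e (n i.succ + 1) * W.e (n i.castSucc + 1)
          - W.e (n i.castSucc + 1) * W.e (n i.succ + 1)) +
        (W.e (n i.succ + 2) * W.e (n i.castSucc) - W.e (n i.castSucc) * W.e (n i.succ + 2))) * R := by
      simp only [mul_add, mul_sub, add_mul, sub_mul, mul_smul_comm, smul_mul_assoc, smul_sub]
      abel
    rw [key, c1, c2, c3]
    have s1 : n i.succ + 1 + (n i.castSucc + 1) = n i.succ + (n i.castSucc + 2) := by ring
    have s2 : n i.succ + 2 + n i.castSucc = n i.succ + (n i.castSucc + 2) := by ring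
    rw [s1, s2, smul_smul, ← sub_smul, ← add_smul]
    have : (((n i.castSucc + 2 : ℤ) : k) - (n i.succ : ℤ) -
        2 * (((n i.castSucc + 1 : ℤ) : k) - (n i.succ + 1 : ℤ)) +
        (((n i.castSucc : ℤ) : k) - (n i.succ + 2 : ℤ))) = 0 := by
      push_cast; ring
    rw [this, zero_smul, mul_zero, zero_mul]

theorem swap_D (π : Equiv.Perm (Fin p)) (h : A k p) :
    br W.e (sub π (Dd p * h)) = br W.e (Dd p * h) := by
  cases p with
  | zero =>
    have : π = 1 := Subsingleton.elim _ _
    subst this
    simp
  | succ p =>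
    have hπ : π ∈ Submonoid.closure (Set.range fun i : Fin p ↦ Equiv.swap i.castSucc i.succ) := by
      rw [Equiv.Perm.mclosure_swap_castSucc_succ]; trivial
    induction hπ using Submonoid.closure_induction generalizing h with
    | mem x hx =>
      obtain ⟨i, rfl⟩ := hx
      obtain ⟨c, hc⟩ := sq_dvd_Dd (k := k) i.castSucc i.succ (by simp [Fin.ext_iff])
      rw [hc, mul_assoc]
      exact swap_adj_D W i _
    | one => simp
    | mul x y _ _ hx hy =>
      rw [sub_mul_perm, map_mul (sub y), sub_Dd, hx, ← hy h, map_mul (sub y), sub_Dd]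

/-! ### Fact 1 -/

/-- symmetrisation -/
noncomputable def symm' (h : A k d) : A k d := ∑ π : Equiv.Perm (Fin d), sub π h

theorem sub_symm' (π : Equiv.Perm (Fin d)) (h : A k d) : sub π (symm' h) = symm' h := by
  rw [symm', map_sum]
  exact Fintype.sum_equiv (Equiv.mulLeft π) _ _ (fun x => (sub_mul_perm π x h).symm)

section core
variable (I : TwoSidedIdeal U)

theorem smul_mem_I {u : U} (c : k) (hu : u ∈ I) : c • u ∈ I := by
  rw [← smul_one_mul]; exact I.mul_mem_left _ _ hu

theorem of_smul_mem_I {u : U} {c : k} (hc : c ≠ 0) (hu : c • u ∈ I) : u ∈ I := by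
  have := smul_mem_I I c⁻¹ hu
  rwa [smul_smul, inv_mul_cancel₀ hc, one_smul] at this

theorem sum_mem_I {ι : Type*} (s : Finset ι) (f : ι → U) (h : ∀ i ∈ s, f i ∈ I) :
    ∑ i ∈ s, f i ∈ I := by
  classical
  induction s using Finset.induction_on with
  | empty => rw [Finset.sum_empty]; exact I.zero_mem
  | insert a s ha ih =>
    rw [Finset.sum_insert ha]
    exact I.add_mem (h a (Finset.mem_insert_self _ _))
      (ih fun i hi => h i (Finset.mem_insert_of_mem hi))

/-- all multiples of an element -/
def bI (I : TwoSidedIdeal U) (d : ℕ) : Ideal (A k d) where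
  carrier := {b | ∀ g : A k d, br W.e (b * g) ∈ I}
  add_mem' := by
    intro a b ha hb g
    rw [add_mul, map_add]; exact I.add_mem (ha g) (hb g)
  zero_mem' := by intro g; rw [zero_mul, map_zero]; exact I.zero_mem
  smul_mem' := by
    intro c b hb g
    rw [smul_eq_mul, mul_comm c b, mul_assoc]; exact hb _

theorem mem_bI {b : A k d} : b ∈ bI W I d ↔ ∀ g : A k d, br W.e (b * g) ∈ I := Iff.rfl

/-- first step: from an element with symmetric nonzero symbol to a nonzero element of `bI` -/
theorem core_mem [CharZero k] (h : A k d) (hs : ∀ π : Equiv.Perm (Fin d), sub π h = h) {v : U}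
    (hv : v ∈ (Fil W.e d : Submodule k U)) (hu : br W.e h + v ∈ I) :
    ∃ M, E d ^ 2 * Dd d ^ M * h ∈ bI W I d := by
  obtain ⟨c, M, hc, hK⟩ := keyLemma (k := k) d
  have step : ∀ R : A k d, (∀ π : Equiv.Perm (Fin d), sub π R = R) →
      br W.e (E d ^ 2 * Dd d ^ M * R * h) ∈ I := by
    intro R hR
    obtain ⟨f, hf0, hf⟩ := hK R hR
    have h1 := opU_mem W I hu f
    rw [map_add, opU_br, opU_Fil W f d hf0 hv, add_zero, hf, map_smul] at h1
    exact of_smul_mem_I I hc h1
  refine ⟨M + 1, ?_⟩
  intro g
  have hperm : ∀ π : Equiv.Perm (Fin d),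
      br W.e (E d ^ 2 * Dd d ^ (M + 1) * h * sub π g) = br W.e (E d ^ 2 * Dd d ^ (M + 1) * h * g) := by
    intro π
    have h2 := swap_D W π (E d ^ 2 * Dd d ^ M * h * g)
    have e1 : Dd d * (E d ^ 2 * Dd d ^ M * h * g) = E d ^ 2 * Dd d ^ (M + 1) * h * g := by
      rw [pow_succ]; ring
    rw [e1] at h2
    have e3 : sub π (E d ^ 2 * Dd d ^ (M + 1) * h * g) =
        E d ^ 2 * Dd d ^ (M + 1) * h * sub π g := by
      rw [map_mul, map_mul, map_mul, map_pow, map_pow, sub_E, sub_Dd, hs]
    rw [← h2, e3]
  have hsum : (Fintype.card (Equiv.Perm (Fin d)) : k) • br W.e (E d ^ 2 * Dd d ^ (M + 1) * h * g) =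
      br W.e (E d ^ 2 * Dd d ^ M * (Dd d * symm' g) * h) := by
    have e2 : E d ^ 2 * Dd d ^ M * (Dd d * symm' g) * h =
        ∑ π : Equiv.Perm (Fin d), (E d ^ 2 * Dd d ^ (M + 1) * h * sub π g) := by
      rw [← Finset.mul_sum, ← symm', pow_succ]; ring
    rw [e2, map_sum, Finset.sum_congr rfl (fun π _ => hperm π), Finset.sum_const,
      Finset.card_univ, Nat.cast_smul_eq_nsmul]
  refine of_smul_mem_I I (c := (Fintype.card (Equiv.Perm (Fin d)) : k)) ?_ ?_
  · exact_mod_cast Fintype.card_ne_zero
  · rw [hsum]
    apply step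
    intro π
    rw [map_mul, sub_Dd, sub_symm']

theorem vf_mem_bI (m : ℤ) {b : A k d} (hb : b ∈ bI W I d) : vf m b ∈ bI W I d := by
  intro g
  have h1 : br W.e (Lop m (b * g)) ∈ I := by
    rw [← ad_br]
    exact I.sub_mem (I.mul_mem_left _ _ (hb g)) (I.mul_mem_right _ _ (hb g))
  have h2 : Lop m (b * g) = vf m b * g + b * (vf m g - (∑ i, Xz i m) * ((m : k) • g)) := by
    rw [Lop_apply]
    have e1 : ∑ i, Xz i m * (th i (b * g) - (m : k) • (b * g)) =
        vf m (b * g) - (∑ i, Xz i m) * ((m : k) • (b * g)) := by
      rw [vf, Finset.sum_mul, ← Finset.sum_sub_distrib]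
      exact Finset.sum_congr rfl fun i _ => mul_sub _ _ _
    rw [e1, vf_mul, ← mul_smul_comm]
    ring
  rw [h2, map_add] at h1
  have h3 := I.sub_mem h1 (hb (vf m g - (∑ i, Xz i m) * ((m : k) • g)))
  rwa [add_sub_cancel_right] at h3

theorem X_pow_eq (i : Fin d) (m : ℕ) : (X i : A k d) ^ m = Xz i m := by
  induction m with
  | zero => simp [Xz]
  | succ m ih =>
    rw [pow_succ, ih, Xz, X, mono_mul, Xz, ← Pi.single_add]
    push_cast; rfl

theorem det_dvd_Dd : (Matrix.vandermonde (fun i : Fin d => (X i : A k d))).det ∣ Dd d := by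
  rw [Matrix.det_vandermonde, Finset.prod_sigma']
  have : ∏ x ∈ (Finset.univ : Finset (Fin d)).sigma (fun i => Finset.Ioi i),
      (X x.2 - X x.1 : A k d) =
      ∏ x ∈ (univ : Finset (Fin d × Fin d)).filter (fun x => x.2 < x.1), (X x.1 - X x.2) := by
    refine Finset.prod_bij (fun x _ => (x.2, x.1)) ?_ ?_ ?_ ?_
    · rintro ⟨a, b⟩ h; simpa using h
    · rintro ⟨a, b⟩ _ ⟨a', b'⟩ _ h
      simp only [Prod.mk.injEq] at h
      obtain ⟨rfl, rfl⟩ := h
      rfl
    · rintro ⟨a, b⟩ h
      exact ⟨⟨b, a⟩, by simpa using h, rfl⟩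
    · rintro ⟨a, b⟩ _; rfl
  rw [this]
  apply Finset.prod_dvd_prod_of_subset
  intro x hx
  simp only [Finset.mem_filter, Finset.mem_univ, true_and] at hx ⊢
  exact hx.ne'

theorem th_mem_bI (i : Fin d) {b : A k d} (hb : b ∈ bI W I d) : Dd d * th i b ∈ bI W I d := by
  have h1 : (Matrix.vandermonde (fun i : Fin d => (X i : A k d))).det * th i b ∈ bI W I d := by
    set V := Matrix.vandermonde (fun i : Fin d => (X i : A k d)) with hV
    have e : V.det * th i b = ∑ m : Fin d, V.adjugate m i * vf (m : ℕ) b := by
      have e1 : ∀ m : Fin d, V.adjugate m i * vf ((m : ℕ) : ℤ) b =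
          ∑ r, (V r m * V.adjugate m i) * th r b := by
        intro m
        rw [vf, Finset.mul_sum]
        refine Finset.sum_congr rfl fun r _ => ?_
        rw [hV, Matrix.vandermonde_apply, X_pow_eq]
        ring
      rw [Finset.sum_congr rfl (fun m _ => e1 m), Finset.sum_comm]
      have e2 : ∀ r, ∑ m, (V r m * V.adjugate m i) * th r b = (V * V.adjugate) r i * th r b := by
        intro r; rw [Matrix.mul_apply, Finset.sum_mul]
      rw [Finset.sum_congr rfl (fun r _ => e2 r), Matrix.mul_adjugate, Finset.sum_eq_single i]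
      · simp
      · intro r _ hr; simp [Matrix.one_apply_ne hr]
      · simp
    rw [e]
    exact Ideal.sum_mem _ fun m _ => Ideal.mul_mem_left _ _ (vf_mem_bI W I _ hb)
  obtain ⟨c, hc⟩ := det_dvd_Dd (k := k) (d := d)
  rw [hc, mul_comm _ c, mul_assoc]
  exact Ideal.mul_mem_left _ _ h1

theorem th_Dd_pow (i : Fin d) (K : ℕ) :
    Dd d * th i (Dd d ^ K : A k d) = (K : A k d) * th i (Dd d) * Dd d ^ K := by
  induction K with
  | zero => simp
  | succ K ih =>
    rw [pow_succ, th_mul, mul_add, ← mul_assoc, ih]
    push_cast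
    ring

/-- `D`-saturation -/
def satI (I : TwoSidedIdeal U) (d : ℕ) : Ideal (A k d) where
  carrier := {h | ∃ K, Dd d ^ K * h ∈ bI W I d}
  add_mem' := by
    rintro a b ⟨K, hK⟩ ⟨L, hL⟩
    refine ⟨K + L, ?_⟩
    have e : Dd d ^ (K + L) * (a + b) = Dd d ^ L * (Dd d ^ K * a) + Dd d ^ K * (Dd d ^ L * b) := by
      rw [pow_add]; ring
    rw [e]
    exact Ideal.add_mem _ (Ideal.mul_mem_left _ _ hK) (Ideal.mul_mem_left _ _ hL)
  zero_mem' := ⟨0, by simp⟩
  smul_mem' := by
    rintro c b ⟨K, hK⟩
    refine ⟨K, ?_⟩
    rw [smul_eq_mul, mul_left_comm]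
    exact Ideal.mul_mem_left _ _ hK

theorem th_mem_satI (i : Fin d) {h : A k d} (hh : h ∈ satI W I d) : th i h ∈ satI W I d := by
  obtain ⟨K, hK⟩ := hh
  refine ⟨K + 1, ?_⟩
  have h1 := th_mem_bI W I i hK
  rw [th_mul, mul_add, ← mul_assoc, th_Dd_pow, mul_assoc, mul_assoc] at h1
  have h2 : (K : A k d) * (th i (Dd d) * (Dd d ^ K * h)) ∈ bI W I d :=
    Ideal.mul_mem_left _ _ (Ideal.mul_mem_left _ _ hK)
  have h3 := Ideal.sub_mem _ h1 h2
  rw [add_sub_cancel_left] at h3
  rw [pow_succ, mul_comm (Dd d ^ K), mul_assoc]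
  exact h3

theorem coeff_th (i : Fin d) (h : A k d) (x : Fin d → ℤ) :
    (th i h).coeff x = ((x i : ℤ) : k) * h.coeff x := by
  induction h using A_induction with
  | h0 => simp
  | hadd f g hf hg =>
    rw [map_add, AddMonoidAlgebra.coeff_add, Finsupp.add_apply, hf, hg,
      AddMonoidAlgebra.coeff_add, Finsupp.add_apply, mul_add]
  | hmono c m =>
    rw [map_smul, th_mono]
    simp only [mono, AddMonoidAlgebra.smul_single, smul_eq_mul, mul_one,
      AddMonoidAlgebra.coeff_single, Finsupp.single_apply]
    by_cases hx : m = x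
    · subst hx; simp [mul_comm]
    · simp [hx]

theorem one_mem_satI [CharZero k] {h : A k d} (hh : h ∈ satI W I d) (h0 : h ≠ 0) : (1 : A k d) ∈ satI W I d := by
  have key : ∀ (N : ℕ) (h : A k d), h ∈ satI W I d → h ≠ 0 → h.coeff.support.card ≤ N →
      (1 : A k d) ∈ satI W I d := by
    intro N
    induction N with
    | zero =>
      intro h _ h0 hc
      exfalso; apply h0
      have := Finset.card_eq_zero.mp (Nat.le_zero.mp hc)
      rw [Finsupp.support_eq_empty] at this
      exact AddMonoidAlgebra.coeff_eq_zero.mp this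
    | succ N ih =>
      intro h hh h0 hc
      by_cases hone : ∃ n, h = h.coeff n • mono n
      · obtain ⟨n, hn⟩ := hone
        have hcn : h.coeff n ≠ 0 := by
          intro hz; rw [hz, zero_smul] at hn; exact h0 hn
        have h1 : mono (-n) * ((h.coeff n)⁻¹ • h) ∈ satI W I d := by
          refine Ideal.mul_mem_left _ _ ?_
          rw [Algebra.smul_def]
          exact Ideal.mul_mem_left _ _ hh
        rw [hn] at h1
        have hcc : (h.coeff n • mono n : A k d).coeff n = h.coeff n := by rw [← hn]
        rw [smul_smul, hcc, inv_mul_cancel₀ hcn, one_smul, mono_mul, neg_add_cancel, mono_zero] at h1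
        exact h1
      · -- two distinct exponents
        obtain ⟨n, hn⟩ : ∃ n, h.coeff n ≠ 0 := by
          by_contra hcon
          push Not at hcon
          apply h0
          apply AddMonoidAlgebra.coeff_eq_zero.mp
          ext n; simpa using hcon n
        obtain ⟨n', hn', hne⟩ : ∃ n', h.coeff n' ≠ 0 ∧ n' ≠ n := by
          by_contra hcon
          push Not at hcon
          apply hone
          refine ⟨n, ?_⟩
          ext x
          simp only [mono, AddMonoidAlgebra.smul_single, smul_eq_mul, mul_one,
            AddMonoidAlgebra.coeff_single, Finsupp.single_apply]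
          by_cases hx : n = x
          · subst hx; simp
          · rw [if_neg hx]
            by_contra hx'
            exact hx (hcon x hx').symm
        obtain ⟨i, hi⟩ : ∃ i, n i ≠ n' i := by
          by_contra hcon
          push Not at hcon
          exact hne (funext fun i => (hcon i).symm)
        have hth : ∀ x, (th i h).coeff x = ((x i : ℤ) : k) * h.coeff x := coeff_th i h
        refine ih (th i h - ((n' i : ℤ) : k) • h) ?_ ?_ ?_
        · refine Ideal.sub_mem _ (th_mem_satI W I i hh) ?_
          rw [Algebra.smul_def]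
          exact Ideal.mul_mem_left _ _ hh
        · intro hz
          have := congrArg (fun y : A k d => y.coeff n) hz
          simp only [AddMonoidAlgebra.coeff_sub, AddMonoidAlgebra.coeff_smul, hth,
            Finsupp.sub_apply, Finsupp.smul_apply, smul_eq_mul, AddMonoidAlgebra.coeff_zero,
            Finsupp.zero_apply] at this
          rw [← sub_mul] at this
          rcases mul_eq_zero.mp this with h1 | h1
          · rw [sub_eq_zero] at h1
            exact hi (by exact_mod_cast h1)
          · exact hn h1
        · have hsub : (th i h - ((n' i : ℤ) : k) • h).coeff.support ⊆ h.coeff.support.erase n' := by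
            intro x hx
            rw [Finsupp.mem_support_iff] at hx
            simp only [AddMonoidAlgebra.coeff_sub, AddMonoidAlgebra.coeff_smul, hth,
              Finsupp.sub_apply, Finsupp.smul_apply, smul_eq_mul] at hx
            rw [← sub_mul] at hx
            rw [Finset.mem_erase, Finsupp.mem_support_iff]
            refine ⟨?_, right_ne_zero_of_mul hx⟩
            rintro rfl
            apply hx; rw [sub_self, zero_mul]
          have h1 := Finset.card_le_card hsub
          rw [Finset.card_erase_of_mem (Finsupp.mem_support_iff.mpr hn')] at h1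
          omega
  exact key _ h hh h0 le_rfl

theorem core [CharZero k] (h : A k d) (hs : ∀ π : Equiv.Perm (Fin d), sub π h = h) (h0 : h ≠ 0) {v : U}
    (hv : v ∈ (Fil W.e d : Submodule k U)) (hu : br W.e h + v ∈ I) :
    ∃ M, ∀ g : A k d, br W.e (Dd d ^ M * g) ∈ I := by
  obtain ⟨M, hM⟩ := core_mem W I h hs hv hu
  have h1 : h ∈ satI W I d := by
    refine ⟨M, ?_⟩
    have h2 := Ideal.mul_mem_left _ (mono (fun _ => -2)) hM
    have e : mono (fun _ => -2) * (E d ^ 2 * Dd d ^ M * h) = Dd d ^ M * h := by
      have e2 : (mono (fun _ => -2) * E d ^ 2 : A k d) = 1 := by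
        rw [E, pow_two, mono_mul, mono_mul, ← mono_zero]
        congr 1
      rw [← mul_assoc, ← mul_assoc, e2, one_mul]
    rwa [e] at h2
  obtain ⟨K, hK⟩ := one_mem_satI W I h1 h0
  rw [mul_one] at hK
  exact ⟨K, hK⟩

/-- FACT 1' -/
theorem fact1' [CharZero k] (d M : ℕ) (h : br W.e (Dd d ^ M : A k d) ∈ I) :
    ∃ M', ∀ g : A k d, br W.e (Dd d ^ M' * g) ∈ I := by
  by_cases h0 : (Dd d ^ M : A k d) = 0
  · exact ⟨M, fun g => by rw [h0, zero_mul, map_zero]; exact I.zero_mem⟩
  · refine core W I (Dd d ^ M) (fun π => by rw [map_pow, sub_Dd]) h0 (v := 0)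
      (Submodule.zero_mem _) (by rwa [add_zero])

/-- FACT 1 -/
theorem fact1 [CharZero k] {u : U} (hu : u ∈ I) (h0 : u ≠ 0) :
    ∃ d M, ∀ g : A k d, br W.e (Dd d ^ M * g) ∈ I := by
  classical
  have hex := exists_Fil (k := k) W u
  have hmin : ∀ m, m < Nat.find hex → ¬ u ∈ (Fil W.e m : Submodule k U) :=
    fun m hm => Nat.find_min hex hm
  have hspec := Nat.find_spec hex
  generalize Nat.find hex = D at hmin hspec
  cases D with
  | zero =>
    rw [Fil_zero, Submodule.mem_bot] at hspec
    exact absurd hspec h0
  | succ d =>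
    obtain ⟨h, v, hv, rfl⟩ := Fil_succ W.e d hspec
    refine ⟨d, ?_⟩
    have hlow : ∑ π : Equiv.Perm (Fin d), (br W.e (sub π h) - br W.e h) ∈
        (Fil W.e d : Submodule k U) := Submodule.sum_mem _ fun π _ => swap_mod W π h
    have hcard : (Fintype.card (Equiv.Perm (Fin d)) : k) ≠ 0 := by
      exact_mod_cast Fintype.card_ne_zero
    have e1 : ∑ π : Equiv.Perm (Fin d), (br W.e (sub π h) - br W.e h) =
        br W.e (symm' h) - (Fintype.card (Equiv.Perm (Fin d)) : k) • br W.e h := by
      rw [Finset.sum_sub_distrib, symm', map_sum, Finset.sum_const, Finset.card_univ,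
        Nat.cast_smul_eq_nsmul]
    rw [e1] at hlow
    refine core W I (symm' h) (fun π => sub_symm' π h) ?_
      (v := (Fintype.card (Equiv.Perm (Fin d)) : k) • (br W.e h + v) - br W.e (symm' h)) ?_ ?_
    · intro hz
      rw [hz, map_zero, zero_sub] at hlow
      have h1 : br W.e h ∈ (Fil W.e d : Submodule k U) := by
        have h2 := Submodule.smul_mem _ (-(Fintype.card (Equiv.Perm (Fin d)) : k)⁻¹) hlow
        rwa [smul_neg, neg_smul, neg_neg, smul_smul, inv_mul_cancel₀ hcard, one_smul] at h2
      exact hmin d (Nat.lt_succ_self d) (Submodule.add_mem _ h1 hv)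
    · have h3 := Submodule.sub_mem _ (Submodule.smul_mem _
        (Fintype.card (Equiv.Perm (Fin d)) : k) hv) hlow
      convert h3 using 1
      rw [smul_add]; abel
    · rw [add_sub_cancel]
      exact smul_mem_I I _ hu

end core

end Pool.WittPrimes
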