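import Pool.Agent.WittPrimes.Base

/-!
# Lemma K: multiplication operators from words

`opA f`, `f ∈ A k p`, is the operator `∑ f_m L_{m_0} ∘ ... ∘ L_{m_{p-1}}` on `A k j`.  For symmetric
`R ∈ A k d` there is `f` in `2d` variables for which `opA f` is `0` on `A k j`, `j < d`, and
multiplication by `c E² D^M R` on `A k d`.
-/

namespace Pool.WittPrimes
open Finset
variable {k : Type*} [Field k] {p q j d : ℕ}

/-- the operator `L_{m_0} ∘ L_{m_1} ∘ ... ∘ L_{m_{p-1}}` -/
noncomputable def word (m : Fin p → ℤ) : Module.End k (A k j) :=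
  (List.ofFn fun a => (Lop (m a) : Module.End k (A k j))).prod

/-- the action of words on words -/
noncomputable def opA : A k p →ₗ[k] Module.End k (A k j) := lin word

theorem word_zero (m : Fin 0 → ℤ) : (word m : Module.End k (A k j)) = 1 := by
  simp [word]

theorem word_succ (m : Fin (p + 1) → ℤ) :
    (word m : Module.End k (A k j)) = Lop (m 0) * word (Fin.tail m) := by
  simp only [word, List.ofFn_succ, List.prod_cons]
  rfl

@[simp] theorem opA_mono (m : Fin p → ℤ) :
    (opA (mono m : A k p) : Module.End k (A k j)) = word m := lin_mono _ _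

/-- the linear form attached to a letter -/
def lf (φ : Fin p → Fin j) (a : Fin p) : (Fin p → ℤ) →+ ℤ where
  toFun m := (∑ b, if a < b ∧ φ b = φ a then m b else 0) - m a
  map_zero' := by simp
  map_add' m n := by
    have : ∀ b, (if a < b ∧ φ b = φ a then (m + n) b else 0)
        = (if a < b ∧ φ b = φ a then m b else 0) + (if a < b ∧ φ b = φ a then n b else 0) := by
      intro b; split_ifs <;> simp
    rw [Finset.sum_congr rfl (fun b _ => this b), Finset.sum_add_distrib, Pi.add_apply]
    ring

theorem lf_apply (φ : Fin p → Fin j) (a : Fin p) (m : Fin p → ℤ) :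
    lf φ a m = (∑ b, if a < b ∧ φ b = φ a then m b else 0) - m a := rfl

/-- coefficient of a letter -/
def cf (φ : Fin p → Fin j) (n : Fin j → ℤ) (a : Fin p) (m : Fin p → ℤ) : ℤ :=
  n (φ a) + lf φ a m

theorem push_cons (i : Fin j) (φ : Fin p → Fin j) (m : Fin (p + 1) → ℤ) :
    push (Fin.cons i φ : Fin (p + 1) → Fin j) m = push φ (Fin.tail m) + Pi.single i (m 0) := by
  ext r
  simp only [push_apply, Fin.sum_univ_succ, Fin.cons_zero, Fin.cons_succ, Pi.add_apply,
    Pi.single_apply, Fin.tail]
  rw [add_comm]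
  congr 1
  by_cases h : i = r
  · simp [h]
  · simp [h, Ne.symm h]

theorem cf_cons_zero (i : Fin j) (φ : Fin p → Fin j) (n : Fin j → ℤ) (m : Fin (p + 1) → ℤ) :
    cf (Fin.cons i φ : Fin (p + 1) → Fin j) n 0 m = n i + push φ (Fin.tail m) i - m 0 := by
  simp only [cf, lf_apply, Fin.cons_zero, Fin.sum_univ_succ, Fin.cons_succ, push_apply, Fin.tail,
    lt_self_iff_false, false_and, if_false, zero_add, Fin.succ_pos, true_and]
  ring

theorem cf_cons_succ (i : Fin j) (φ : Fin p → Fin j) (n : Fin j → ℤ) (m : Fin (p + 1) → ℤ)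
    (a : Fin p) :
    cf (Fin.cons i φ : Fin (p + 1) → Fin j) n a.succ m = cf φ n a (Fin.tail m) := by
  simp only [cf, lf_apply, Fin.sum_univ_succ, Fin.cons_succ, Fin.tail, Fin.not_lt_zero,
    false_and, if_false, zero_add, Fin.succ_lt_succ_iff]

theorem word_mono (m : Fin p → ℤ) (n : Fin j → ℤ) :
    word m (mono n : A k j) =
      ∑ φ : Fin p → Fin j, ((∏ a, cf φ n a m : ℤ) : k) • mono (n + push φ m) := by
  induction p with
  | zero =>
    rw [word_zero]
    rw [Fintype.sum_subsingleton _ (fun a => a.elim0)]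
    simp only [Module.End.one_apply, Finset.univ_eq_empty, Finset.prod_empty, Int.cast_one,
      one_smul]
    congr 1
    ext i
    simp [push_apply]
  | succ p ih =>
    rw [word_succ, Module.End.mul_apply, ih, map_sum,
      ← (Fin.consEquiv (fun _ => Fin j)).sum_comp, Fintype.sum_prod_type_right]
    refine Finset.sum_congr rfl fun φ _ => ?_
    rw [map_smul, Lop_mono, Finset.smul_sum]
    refine Finset.sum_congr rfl fun i _ => ?_
    rw [smul_smul]
    have h1 : (Fin.consEquiv (fun _ => Fin j)) (i, φ) = (Fin.cons i φ : Fin (p + 1) → Fin j) := rfl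
    rw [h1, push_cons, Fin.prod_univ_succ, cf_cons_zero]
    simp only [cf_cons_succ]
    rw [← add_assoc]
    congr 1
    push_cast
    simp only [Pi.add_apply, Int.cast_add]
    ring

/-- the derivation `mono m ↦ ℓ(m) mono m` -/
noncomputable def der (ℓ : (Fin p → ℤ) →+ ℤ) : Derivation k (A k p) (A k p) :=
  Derivation.mk' (lin (fun m => ((ℓ m : ℤ) : k) • mono m)) (by
    intro f g
    induction f using A_induction with
    | h0 => simp
    | hadd f f' hf hf' => simp only [add_mul, map_add, hf, hf', smul_eq_mul]; ring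
    | hmono c n =>
      induction g using A_induction with
      | h0 => simp
      | hadd g g' hg hg' => simp only [mul_add, map_add, hg, hg', smul_eq_mul]; ring
      | hmono c' n' =>
        simp only [smul_mul_assoc, mul_smul_comm, mono_mul, map_smul, lin_mono, map_add,
          Int.cast_add, add_smul, smul_add, smul_eq_mul]
        rw [add_comm n' n]
        simp only [smul_smul, ← add_smul]
        congr 1; ring)

@[simp] theorem der_mono (ℓ : (Fin p → ℤ) →+ ℤ) (m : Fin p → ℤ) :
    der ℓ (mono m : A k p) = ((ℓ m : ℤ) : k) • mono m := by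
  simp [der]

theorem der_X (ℓ : (Fin p → ℤ) →+ ℤ) (a : Fin p) :
    der ℓ (X a : A k p) = ((ℓ (Pi.single a 1) : ℤ) : k) • X a := by
  rw [X, der_mono]

/-- the differential operator attached to `φ`, `n` and a set of letters -/
noncomputable def Diff (φ : Fin p → Fin j) (n : Fin j → ℤ) (S : Finset (Fin p)) :
    A k p →ₗ[k] A k p :=
  lin (fun m => ((∏ a ∈ S, cf φ n a m : ℤ) : k) • mono m)

theorem Diff_mono (φ : Fin p → Fin j) (n : Fin j → ℤ) (S : Finset (Fin p)) (m : Fin p → ℤ) :
    Diff φ n S (mono m : A k p) = ((∏ a ∈ S, cf φ n a m : ℤ) : k) • mono m := lin_mono _ _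

theorem Diff_empty (φ : Fin p → Fin j) (n : Fin j → ℤ) (f : A k p) : Diff φ n ∅ f = f := by
  induction f using A_induction with
  | h0 => simp
  | hadd f g hf hg => rw [map_add, hf, hg]
  | hmono c m => rw [map_smul, Diff_mono]; simp

theorem Diff_insert (φ : Fin p → Fin j) (n : Fin j → ℤ) (S : Finset (Fin p)) (a : Fin p)
    (ha : a ∉ S) (f : A k p) :
    Diff φ n (insert a S) f = ((n (φ a) : ℤ) : k) • Diff φ n S f + der (lf φ a) (Diff φ n S f) := by
  induction f using A_induction with
  | h0 => simp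
  | hadd f g hf hg => simp only [map_add, hf, hg, smul_add]; ring
  | hmono c m =>
    rw [map_smul, map_smul, Derivation.map_smul, Diff_mono, Diff_mono, Derivation.map_smul,
      der_mono, Finset.prod_insert ha]
    simp only [smul_smul, ← add_smul]
    congr 1
    push_cast
    simp only [cf]
    push_cast
    ring

theorem opA_apply_mono (f : A k p) (n : Fin j → ℤ) :
    opA f (mono n : A k j) = (∑ φ : Fin p → Fin j, sub φ (Diff φ n univ f)) * mono n := by
  induction f using A_induction with
  | h0 => simp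
  | hadd f g hf hg =>
    rw [map_add, LinearMap.add_apply, hf, hg, ← add_mul, ← Finset.sum_add_distrib]
    simp only [map_add]
  | hmono c m =>
    rw [map_smul, LinearMap.smul_apply, opA_mono, word_mono, Finset.sum_mul, Finset.smul_sum]
    refine Finset.sum_congr rfl fun φ _ => ?_
    rw [map_smul, map_smul, Diff_mono, map_smul, sub_mono, smul_mul_assoc, smul_mul_assoc,
      mono_mul, add_comm n]

/-! ### vanishing -/

theorem dvd_der (ℓ : (Fin p → ℤ) →+ ℤ) (x g : A k p) (N : ℕ) (h : x ^ (N + 1) ∣ g) :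
    x ^ N ∣ der ℓ g := by
  obtain ⟨h, rfl⟩ := h
  rw [Derivation.leibniz, Derivation.leibniz_pow]
  simp only [smul_eq_mul, nsmul_eq_mul, Nat.add_sub_cancel]
  refine dvd_add ?_ ?_
  · rw [pow_succ, mul_assoc]; exact dvd_mul_right _ _
  · refine Dvd.dvd.mul_left ?_ _
    refine Dvd.dvd.mul_left ?_ _
    exact dvd_mul_right _ _

theorem dvd_Diff (φ : Fin p → Fin j) (n : Fin j → ℤ) (S : Finset (Fin p)) (x : A k p) :
    ∀ (N : ℕ) (g : A k p), x ^ (N + S.card) ∣ g → x ^ N ∣ Diff φ n S g := by
  induction S using Finset.induction_on with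
  | empty => intro N g h; rw [Diff_empty]; simpa using h
  | insert a S ha ih =>
    intro N g h
    rw [Finset.card_insert_of_notMem ha] at h
    rw [Diff_insert φ n S a ha]
    have h1 : x ^ (N + 1) ∣ Diff φ n S g := ih (N + 1) g (by
      have : N + 1 + S.card = N + (S.card + 1) := by ring
      rwa [this])
    refine dvd_add ?_ (dvd_der _ _ _ _ h1)
    rw [Algebra.smul_def]
    exact Dvd.dvd.mul_left (dvd_trans (Dvd.intro_left _ (by rw [mul_comm, ← pow_succ])) h1) _

/-- terms merging two letters vanish on multiples of a high power of their difference -/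
theorem sub_Diff_zero (φ : Fin p → Fin j) (n : Fin j → ℤ) (a b : Fin p) (hab : φ a = φ b)
    (f : A k p) (hf : (X a - X b) ^ (1 + p) ∣ f) : sub φ (Diff φ n univ f) = 0 := by
  have h := dvd_Diff φ n univ (X a - X b : A k p) 1 f (by simpa using hf)
  rw [pow_one] at h
  obtain ⟨g, hg⟩ := h
  rw [hg, map_mul, map_sub, sub_X, sub_X, hab, sub_self, zero_mul]

/-! ### the paired terms -/

section pairs

variable (π : Fin d → Fin j)

/-- the map sending both letters of the `i`-th pair to `π i` -/
def pr (π : Fin d → Fin j) : Fin (d + d) → Fin j := Fin.append π π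

@[simp] theorem pr_left (i : Fin d) : pr π (Fin.castAdd d i) = π i := by
  rw [pr, Fin.append_left]

theorem pr_right (i : Fin d) : pr π (Fin.natAdd d i) = π i := by
  rw [pr, Fin.append_right]

theorem castAdd_ne_natAdd (i i' : Fin d) : Fin.castAdd d i ≠ Fin.natAdd d i' := by
  intro h
  have := congrArg Fin.val h
  simp at this
  omega

theorem lf_left (hπ : Function.Injective π) (i : Fin d) (m : Fin (d + d) → ℤ) :
    lf (pr π) (Fin.castAdd d i) m = m (Fin.natAdd d i) - m (Fin.castAdd d i) := by
  rw [lf_apply, Fin.sum_univ_add]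
  have h1 : ∀ i' : Fin d, (if Fin.castAdd d i < Fin.castAdd d i' ∧
      pr π (Fin.castAdd d i') = pr π (Fin.castAdd d i) then m (Fin.castAdd d i') else 0) = 0 := by
    intro i'
    rw [if_neg]
    rintro ⟨h, h'⟩
    rw [pr_left, pr_left] at h'
    rw [hπ h'] at h
    exact lt_irrefl _ h
  rw [Finset.sum_congr rfl (fun i' _ => h1 i'), Finset.sum_const_zero, zero_add,
    Finset.sum_eq_single i]
  · rw [if_pos]
    refine ⟨?_, by rw [pr_left, pr_right]⟩
    show (i : ℕ) < d + (i : ℕ)
    have := i.isLt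
    omega
  · intro b _ hb
    rw [if_neg]
    rintro ⟨_, h'⟩
    rw [pr_left, pr_right] at h'
    exact hb (hπ h')
  · simp

theorem lf_right (hπ : Function.Injective π) (i : Fin d) (m : Fin (d + d) → ℤ) :
    lf (pr π) (Fin.natAdd d i) m = - m (Fin.natAdd d i) := by
  rw [lf_apply, Finset.sum_eq_zero, zero_sub]
  intro b _
  rw [if_neg]
  rintro ⟨h, h'⟩
  rw [pr_right] at h'
  induction b using Fin.addCases with
  | left b =>
    have h2 : d + (i : ℕ) < (b : ℕ) := h
    have := b.isLt
    omega
  | right b =>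
    rw [pr_right] at h'
    rw [hπ h'] at h
    exact lt_irrefl _ h

/-- difference of the two letters of a pair -/
noncomputable def xp (i : Fin d) : A k (d + d) := X (Fin.castAdd d i) - X (Fin.natAdd d i)

theorem der_xp_zero (ℓ : (Fin (d + d) → ℤ) →+ ℤ) (i : Fin d)
    (h1 : ℓ (Pi.single (Fin.castAdd d i) 1) = 0) (h2 : ℓ (Pi.single (Fin.natAdd d i) 1) = 0) :
    der ℓ (xp i : A k (d + d)) = 0 := by
  rw [xp, map_sub, der_X, der_X, h1, h2]; simp

theorem der_prod_zero (ℓ : (Fin (d + d) → ℤ) →+ ℤ) (S : Finset (Fin d))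
    (h : ∀ i ∈ S, der ℓ (xp i : A k (d + d)) = 0) :
    der ℓ (∏ i ∈ S, xp i ^ 2 : A k (d + d)) = 0 := by
  induction S using Finset.induction_on with
  | empty => simp
  | insert a S ha ih =>
    rw [Finset.prod_insert ha, Derivation.leibniz, Derivation.leibniz_pow,
      ih (fun i hi => h i (Finset.mem_insert_of_mem hi)), h a (Finset.mem_insert_self _ _)]
    simp

/-- first-order operator `c + der ℓ` -/
noncomputable def opc (c : k) (ℓ : (Fin (d + d) → ℤ) →+ ℤ) (f : A k (d + d)) : A k (d + d) :=
  c • f + der ℓ f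

theorem opc_opc (c : k) (α β : (Fin (d + d) → ℤ) →+ ℤ) (P G x a b : A k (d + d))
    (hα : der α P = 0) (hβ : der β P = 0) (hxα : der α x = a) (hxβ : der β x = b) :
    ∃ G₁, opc c α (opc c β (P * (x ^ 2 * G))) = P * (x * G₁ + 2 * a * b * G) := by
  have e1 : opc c β (P * (x ^ 2 * G)) = P * (x * (2 * b * G + x * (c • G + der β G))) := by
    simp only [opc, Derivation.leibniz, Derivation.leibniz_pow, hβ, hxβ, smul_eq_mul, nsmul_eq_mul]
    simp only [Algebra.smul_def]
    push_cast
    ring
  have e2 : ∀ H : A k (d + d), opc c α (P * (x * H)) = P * (x * (c • H + der α H) + a * H) := by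
    intro H
    simp only [opc, Derivation.leibniz, hα, hxα, smul_eq_mul]
    simp only [Algebra.smul_def]
    ring
  refine ⟨c • (2 * b * G + x * (c • G + der β G)) + der α (2 * b * G + x * (c • G + der β G))
    + a * (c • G + der β G), ?_⟩
  rw [e1, e2]
  ring

/-- the operator attached to a set of pairs -/
noncomputable def QQ (π : Fin d → Fin j) (n : Fin j → ℤ) (S : Finset (Fin d)) :
    A k (d + d) →ₗ[k] A k (d + d) :=
  lin (fun m => ((∏ i ∈ S, (cf (pr π) n (Fin.castAdd d i) m * cf (pr π) n (Fin.natAdd d i) m) : ℤ) : k)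
    • mono m)

theorem QQ_mono (n : Fin j → ℤ) (S : Finset (Fin d)) (m : Fin (d + d) → ℤ) :
    QQ π n S (mono m : A k (d + d)) =
      ((∏ i ∈ S, (cf (pr π) n (Fin.castAdd d i) m * cf (pr π) n (Fin.natAdd d i) m) : ℤ) : k)
        • mono m := lin_mono _ _

theorem QQ_univ (n : Fin j → ℤ) (f : A k (d + d)) : Diff (pr π) n univ f = QQ π n univ f := by
  induction f using A_induction with
  | h0 => simp
  | hadd f g hf hg => rw [map_add, map_add, hf, hg]
  | hmono c m =>
    rw [map_smul, map_smul, Diff_mono, QQ_mono, Fin.prod_univ_add, ← Finset.prod_mul_distrib]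

theorem QQ_empty (n : Fin j → ℤ) (f : A k (d + d)) : QQ π n ∅ f = f := by
  induction f using A_induction with
  | h0 => simp
  | hadd f g hf hg => rw [map_add, hf, hg]
  | hmono c m => rw [map_smul, QQ_mono]; simp

theorem QQ_insert (n : Fin j → ℤ) (S : Finset (Fin d)) (i : Fin d) (hi : i ∉ S)
    (f : A k (d + d)) :
    QQ π n (insert i S) f = QQ π n S (opc ((n (π i) : ℤ) : k) (lf (pr π) (Fin.castAdd d i))
      (opc ((n (π i) : ℤ) : k) (lf (pr π) (Fin.natAdd d i)) f)) := by
  have hopc : ∀ (c : k) ℓ (f g : A k (d + d)), opc c ℓ (f + g) = opc c ℓ f + opc c ℓ g := by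
    intro c ℓ f g; simp only [opc, smul_add, map_add]; ring
  have hopc2 : ∀ (c c' : k) ℓ (f : A k (d + d)), opc c ℓ (c' • f) = c' • opc c ℓ f := by
    intro c c' ℓ f; simp only [opc, smul_add, Derivation.map_smul, smul_comm c c']
  have hopc3 : ∀ (c : k) ℓ (m : Fin (d + d) → ℤ), opc c ℓ (mono m : A k (d + d))
      = (c + ((ℓ m : ℤ) : k)) • mono m := by
    intro c ℓ m; simp only [opc, der_mono, add_smul]
  induction f using A_induction with
  | h0 =>
    have : ∀ (c : k) ℓ, opc c ℓ (0 : A k (d + d)) = 0 := by intro c ℓ; simp [opc]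
    simp [this]
  | hadd f g hf hg => simp only [map_add, hopc, hf, hg]
  | hmono c m =>
    rw [map_smul, QQ_mono, Finset.prod_insert hi, hopc2, hopc2, hopc3, hopc2, hopc3, map_smul,
      map_smul, map_smul, QQ_mono]
    simp only [smul_smul]
    congr 1
    push_cast
    simp only [cf, pr_left, pr_right]
    push_cast
    ring

theorem der_left (hπ : Function.Injective π) (i : Fin d) :
    der (lf (pr π) (Fin.castAdd d i)) (xp i : A k (d + d)) =
      - X (Fin.castAdd d i) - X (Fin.natAdd d i) := by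
  rw [xp, map_sub, der_X, der_X, lf_left π hπ, lf_left π hπ, Pi.single_eq_same, Pi.single_eq_same,
    Pi.single_eq_of_ne (castAdd_ne_natAdd _ _).symm, Pi.single_eq_of_ne (castAdd_ne_natAdd _ _)]
  push_cast
  module

theorem der_right (hπ : Function.Injective π) (i : Fin d) :
    der (lf (pr π) (Fin.natAdd d i)) (xp i : A k (d + d)) = X (Fin.natAdd d i) := by
  rw [xp, map_sub, der_X, der_X, lf_right π hπ, lf_right π hπ, Pi.single_eq_same,
    Pi.single_eq_of_ne (castAdd_ne_natAdd _ _).symm]
  push_cast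
  module

theorem der_left_ne (hπ : Function.Injective π) (i i' : Fin d) (h : i ≠ i') :
    der (lf (pr π) (Fin.castAdd d i)) (xp i' : A k (d + d)) = 0 := by
  have h1 : Fin.castAdd d i ≠ Fin.castAdd d i' := fun h' => h (Fin.castAdd_injective _ _ h')
  have h2 : Fin.natAdd d i ≠ Fin.natAdd d i' := fun h' => h (by
    have := congrArg Fin.val h'
    have h3 : d + (i : ℕ) = d + (i' : ℕ) := this
    exact Fin.ext (by omega))
  apply der_xp_zero
  · rw [lf_left π hπ, Pi.single_eq_of_ne h1, Pi.single_eq_of_ne (castAdd_ne_natAdd _ _).symm,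
      sub_zero]
  · rw [lf_left π hπ, Pi.single_eq_of_ne h2, Pi.single_eq_of_ne (castAdd_ne_natAdd _ _),
      sub_zero]

theorem der_right_ne (hπ : Function.Injective π) (i i' : Fin d) (h : i ≠ i') :
    der (lf (pr π) (Fin.natAdd d i)) (xp i' : A k (d + d)) = 0 := by
  have h2 : Fin.natAdd d i ≠ Fin.natAdd d i' := fun h' => h (by
    have := congrArg Fin.val h'
    have h3 : d + (i : ℕ) = d + (i' : ℕ) := this
    exact Fin.ext (by omega))
  apply der_xp_zero
  · rw [lf_right π hπ, Pi.single_eq_of_ne (castAdd_ne_natAdd _ _).symm, neg_zero]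
  · rw [lf_right π hπ, Pi.single_eq_of_ne h2, neg_zero]

theorem QQ_eval (hπ : Function.Injective π) (n : Fin j → ℤ) (S : Finset (Fin d)) :
    ∀ G : A k (d + d), sub (pr π) (QQ π n S ((∏ i ∈ S, xp i ^ 2) * G)) =
      (∏ i ∈ S, (-4 * X (π i) ^ 2)) * sub (pr π) G := by
  induction S using Finset.induction_on with
  | empty => intro G; simp [QQ_empty]
  | insert i S hi ih =>
    intro G
    rw [QQ_insert π n S i hi, Finset.prod_insert hi, Finset.prod_insert hi]
    have hne : ∀ i' ∈ S, i ≠ i' := by rintro i' hi' rfl; exact hi hi'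
    obtain ⟨G₁, hG₁⟩ := opc_opc ((n (π i) : ℤ) : k) (lf (pr π) (Fin.castAdd d i))
      (lf (pr π) (Fin.natAdd d i)) (∏ i ∈ S, xp i ^ 2) G (xp i) _ _
      (der_prod_zero _ S (fun i' hi' => der_left_ne π hπ i i' (hne i' hi')))
      (der_prod_zero _ S (fun i' hi' => der_right_ne π hπ i i' (hne i' hi')))
      (der_left π hπ i) (der_right π hπ i)
    have e : xp i ^ 2 * (∏ i ∈ S, xp i ^ 2) * G = (∏ i ∈ S, xp i ^ 2) * (xp i ^ 2 * G) := by ring
    rw [e, hG₁, ih]
    simp only [map_add, map_mul, map_sub, map_neg, map_ofNat, sub_X, xp, pr_left, pr_right]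
    ring

/-- `2d` letters: product of differences of letters in different pairs -/
noncomputable def crs (d : ℕ) : A k (d + d) :=
  ∏ x ∈ (univ : Finset (Fin d × Fin d)).filter (fun x => x.1 ≠ x.2),
    ((X (Fin.castAdd d x.1) - X (Fin.castAdd d x.2)) *
     (X (Fin.castAdd d x.1) - X (Fin.natAdd d x.2)) *
     (X (Fin.natAdd d x.1) - X (Fin.castAdd d x.2)) *
     (X (Fin.natAdd d x.1) - X (Fin.natAdd d x.2)))

theorem dvd_crs (i i' : Fin d) (h : i ≠ i') :
    ((X (Fin.castAdd d i) - X (Fin.castAdd d i')) *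
     (X (Fin.castAdd d i) - X (Fin.natAdd d i')) *
     (X (Fin.natAdd d i) - X (Fin.castAdd d i')) *
     (X (Fin.natAdd d i) - X (Fin.natAdd d i'))) ∣ (crs d : A k (d + d)) := by
  have := Finset.dvd_prod_of_mem (fun x : Fin d × Fin d =>
    ((X (Fin.castAdd d x.1) - X (Fin.castAdd d x.2)) *
     (X (Fin.castAdd d x.1) - X (Fin.natAdd d x.2)) *
     (X (Fin.natAdd d x.1) - X (Fin.castAdd d x.2)) *
     (X (Fin.natAdd d x.1) - X (Fin.natAdd d x.2)) : A k (d + d)))
    (s := (univ : Finset (Fin d × Fin d)).filter (fun x => x.1 ≠ x.2)) (a := (i, i'))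
    (by simp [h])
  exact this

theorem sub_crs (π : Equiv.Perm (Fin d)) : sub (pr π) (crs d : A k (d + d)) = Dd d ^ 4 := by
  rw [crs, map_prod]
  have : ∀ x : Fin d × Fin d, sub (pr π)
    ((X (Fin.castAdd d x.1) - X (Fin.castAdd d x.2)) *
     (X (Fin.castAdd d x.1) - X (Fin.natAdd d x.2)) *
     (X (Fin.natAdd d x.1) - X (Fin.castAdd d x.2)) *
     (X (Fin.natAdd d x.1) - X (Fin.natAdd d x.2)) : A k (d + d)) =
     (sub π (X x.1 - X x.2)) ^ 4 := by
    intro x
    simp only [map_mul, map_sub, sub_X, pr_left, pr_right]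
    ring
  rw [Finset.prod_congr rfl (fun x _ => this x), Finset.prod_pow, ← map_prod]
  show (sub π (Dd d)) ^ 4 = _
  rw [sub_Dd]

theorem E_eq_prod : (E d : A k d) = ∏ i, X i := by
  have : ∀ S : Finset (Fin d), (∏ i ∈ S, X i : A k d) = mono (∑ i ∈ S, Pi.single i 1) := by
    intro S
    induction S using Finset.induction_on with
    | empty => simp
    | insert a S ha ih => rw [Finset.prod_insert ha, ih, Finset.sum_insert ha, X, mono_mul]
  rw [this, E]
  congr 1
  exact (Finset.univ_sum_single (fun _ : Fin d => (1 : ℤ))).symm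

theorem prod_X_perm (π : Equiv.Perm (Fin d)) :
    (∏ i, (-4 * X (π i) ^ 2) : A k d) = (-4) ^ d * E d ^ 2 := by
  rw [Finset.prod_mul_distrib, Finset.prod_const, Finset.card_univ, Fintype.card_fin,
    Finset.prod_pow, Equiv.prod_comp π (fun i => (X i : A k d)), E_eq_prod]

end pairs

/-- the element of Lemma K -/
noncomputable def fK (R : A k d) : A k (d + d) :=
  (∏ i, xp i ^ 2) * (crs d ^ (1 + (d + d)) * sub (Fin.castAdd d) R)

theorem fK_merge (R : A k d) (φ : Fin (d + d) → Fin j) (n : Fin j → ℤ)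
    (h : ∃ i i' : Fin d, i ≠ i' ∧ (φ (Fin.castAdd d i) = φ (Fin.castAdd d i') ∨
      φ (Fin.castAdd d i) = φ (Fin.natAdd d i'))) :
    sub φ (Diff φ n univ (fK R)) = 0 := by
  obtain ⟨i, i', hne, h | h⟩ := h
  · refine sub_Diff_zero φ n _ _ h _ ?_
    refine Dvd.dvd.mul_left (Dvd.dvd.mul_right (pow_dvd_pow_of_dvd ?_ _) _) _
    refine dvd_trans ?_ (dvd_crs i i' hne)
    exact Dvd.intro _ (by rw [mul_assoc, mul_assoc])
  · refine sub_Diff_zero φ n _ _ h _ ?_
    refine Dvd.dvd.mul_left (Dvd.dvd.mul_right (pow_dvd_pow_of_dvd ?_ _) _) _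
    refine dvd_trans ?_ (dvd_crs i i' hne)
    exact Dvd.dvd.mul_right (Dvd.dvd.mul_right (dvd_mul_left _ _) _) _

theorem fK_perm (R : A k d) (hR : ∀ π : Equiv.Perm (Fin d), sub π R = R)
    (π : Equiv.Perm (Fin d)) (n : Fin d → ℤ) :
    sub (pr π) (Diff (pr π) n univ (fK R)) =
      (-4) ^ d * (E d ^ 2 * Dd d ^ (4 * (1 + (d + d))) * R) := by
  rw [QQ_univ, fK, QQ_eval _ π.injective, prod_X_perm, map_mul, map_pow, sub_crs, sub_sub,
    ← pow_mul]
  have : pr π ∘ Fin.castAdd d = π := by
    ext i; simp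
  rw [this, hR]
  ring

theorem keyLemma [CharZero k] (d : ℕ) : ∃ (c : k) (M : ℕ), c ≠ 0 ∧
    ∀ R : A k d, (∀ π : Equiv.Perm (Fin d), sub π R = R) →
      ∃ f : A k (d + d), (∀ j < d, ∀ h : A k j, opA f h = 0) ∧
        (∀ h : A k d, opA f h = c • (E d ^ 2 * Dd d ^ M * R * h)) := by
  refine ⟨(-4) ^ d * (Fintype.card (Equiv.Perm (Fin d)) : k), 4 * (1 + (d + d)), ?_, ?_⟩
  · refine mul_ne_zero (pow_ne_zero _ (by norm_num)) ?_
    exact_mod_cast Fintype.card_ne_zero
  intro R hR
  refine ⟨fK R, ?_, ?_⟩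
  · intro j hj h
    induction h using A_induction with
    | h0 => simp
    | hadd f g hf hg => rw [map_add, hf, hg, add_zero]
    | hmono c n =>
      rw [map_smul, opA_apply_mono, Finset.sum_eq_zero, zero_mul, smul_zero]
      intro φ _
      apply fK_merge
      obtain ⟨i, i', hne, h⟩ := Fintype.exists_ne_map_eq_of_card_lt
        (fun i : Fin d => φ (Fin.castAdd d i)) (by simpa using hj)
      exact ⟨i, i', hne, Or.inl h⟩
  · intro h
    induction h using A_induction with
    | h0 => simp
    | hadd f g hf hg => rw [map_add, hf, hg, ← smul_add, ← mul_add]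
    | hmono c n =>
      rw [map_smul, opA_apply_mono]
      have hsum : ∑ φ : Fin (d + d) → Fin d, sub φ (Diff φ n univ (fK R)) =
          ∑ π : Equiv.Perm (Fin d), (-4) ^ d * (E d ^ 2 * Dd d ^ (4 * (1 + (d + d))) * R) := by
        symm
        refine Fintype.sum_of_injective (fun π : Equiv.Perm (Fin d) => pr π) ?_ _ _ ?_ ?_
        · intro π π' h
          ext i
          have := congrFun h (Fin.castAdd d i)
          simp only [pr_left] at this
          rw [this]
        · intro φ hφ
          apply fK_merge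
          by_contra hcon
          push Not at hcon
          apply hφ
          have hinj : Function.Injective (fun i : Fin d => φ (Fin.castAdd d i)) := by
            intro i i' h
            by_contra hne
            exact (hcon i i' hne).1 h
          refine ⟨Equiv.ofBijective _ (Finite.injective_iff_bijective.mp hinj), ?_⟩
          ext a
          induction a using Fin.addCases with
          | left i => simp only [pr_left]; rfl
          | right i =>
            simp only [pr_right]
            obtain ⟨i', hi'⟩ := (Finite.injective_iff_surjective.mp hinj) (φ (Fin.natAdd d i))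
            by_cases hii : i' = i
            · subst hii
              exact congrArg Fin.val hi'
            · exact absurd hi' (hcon i' i hii).2
        · intro π
          exact (fK_perm R hR π n).symm
      rw [hsum, Finset.sum_const, Finset.card_univ, nsmul_eq_mul]
      rw [Algebra.smul_def, Algebra.smul_def, Algebra.smul_def]
      simp only [map_mul, map_pow, map_neg, map_ofNat, map_natCast]
      ring

end Pool.WittPrimes
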