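import Pool.Agent.WittPrimes.Swap
import Pool.Agent.WittPrimes.Defs

/-!
# Shift lemma, annihilator lemma, propagation, restriction of primes
-/

namespace Pool.WittPrimes

open Finset

variable {k : Type*} [Field k] {p q j : ℕ}

section algebra

variable {U : Type*} [Ring U] [Algebra k U] (W : WittFam k U)

/-- condition `O(p,M)` -/
def OO (I : TwoSidedIdeal U) (p M : ℕ) : Prop := ∀ g : A k p, br W.e (Dd p ^ M * g) ∈ I

/-- the subalgebra generated by `e_n`, `n ≥ -1` -/
def WittFam.minus : Subalgebra k U := Algebra.adjoin k (W.e '' {n | -1 ≤ n})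

theorem smul_memI (I : TwoSidedIdeal U) (c : k) {x : U} (hx : x ∈ I) : c • x ∈ I := by
  rw [Algebra.smul_def]
  exact I.mul_mem_left _ _ hx

/-- left induction on the generators -/
theorem word_induction {P : U → Prop} (h1 : P 1) (hadd : ∀ x y, P x → P y → P (x + y))
    (hsmul : ∀ (c : k) x, P x → P (c • x)) (hmul : ∀ m x, P x → P (W.e m * x)) (u : U) : P u := by
  have key : ∀ u : U, ∀ x, P x → P (u * x) := by
    intro u
    have hu : u ∈ Algebra.adjoin k (Set.range W.e) := by rw [W.gen]; trivial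
    induction hu using Algebra.adjoin_induction with
    | mem x hx => obtain ⟨m, rfl⟩ := hx; exact fun x hx => hmul m x hx
    | algebraMap r => intro x hx; rw [← Algebra.smul_def]; exact hsmul r x hx
    | add x y _ _ hx hy => intro z hz; rw [add_mul]; exact hadd _ _ (hx z hz) (hy z hz)
    | mul x y _ _ hx hy => intro z hz; rw [mul_assoc]; exact hx _ (hy z hz)
  simpa using key u 1 h1

/-- right induction on the generators -/
theorem word_induction_right {P : U → Prop} (hadd : ∀ x y, P x → P y → P (x + y))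
    (hsmul : ∀ (c : k) x, P x → P (c • x)) (hmul : ∀ m x, P x → P (x * W.e m)) (u : U) :
    ∀ x, P x → P (x * u) := by
  have hu : u ∈ Algebra.adjoin k (Set.range W.e) := by rw [W.gen]; trivial
  induction hu using Algebra.adjoin_induction with
  | mem x hx => obtain ⟨m, rfl⟩ := hx; exact fun x hx => hmul m x hx
  | algebraMap r =>
    intro x hx
    rw [← Algebra.commutes, ← Algebra.smul_def]; exact hsmul r x hx
  | add x y _ _ hx hy => intro z hz; rw [mul_add]; exact hadd _ _ (hx z hz) (hy z hz)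
  | mul x y _ _ hx hy => intro z hz; rw [← mul_assoc]; exact hy _ (hx z hz)

theorem br_mono_succ (e : ℤ → U) (n : Fin (p + 1) → ℤ) :
    br e (mono n : A k (p + 1)) = e (n 0) * br e (mono (fun i => n i.succ) : A k p) := by
  rw [br_mono, br_mono, List.ofFn_succ, List.prod_cons]

end algebra

section laurent

theorem Xz_add (i : Fin p) (a b : ℤ) : (Xz i (a + b) : A k p) = Xz i a * Xz i b := by
  rw [Xz, Xz, Xz, mono_mul, Pi.single_add]

@[simp] theorem Xz_zero (i : Fin p) : (Xz i 0 : A k p) = 1 := by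
  rw [Xz, Pi.single_zero, mono_zero]

theorem Xz_one (i : Fin p) : (Xz i 1 : A k p) = X i := rfl

theorem Xz_natCast (i : Fin p) (n : ℕ) : (Xz i n : A k p) = X i ^ n := by
  induction n with
  | zero => simp
  | succ n ih => rw [Nat.cast_succ, Xz_add, ih, Xz_one, pow_succ]

theorem sub_dvd_Xz (i j : Fin p) (m : ℤ) : (X i - X j : A k p) ∣ Xz i m - Xz j m := by
  obtain ⟨n, rfl | rfl⟩ := m.eq_nat_or_neg
  · rw [Xz_natCast, Xz_natCast]
    exact sub_dvd_pow_sub_pow _ _ _
  · have h1 : ∀ l : Fin p, (Xz l n : A k p) * Xz l (-n) = 1 := by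
      intro l
      rw [← Xz_add, add_neg_cancel, Xz_zero]
    have : (Xz i (-n) - Xz j (-n) : A k p)
        = -((X i ^ n - X j ^ n) * (Xz i (-n) * Xz j (-n))) := by
      rw [← Xz_natCast, ← Xz_natCast, sub_mul]
      rw [← mul_assoc, h1, mul_comm (Xz i (-n) : A k p), ← mul_assoc, h1]
      ring
    rw [this]
    exact (Dvd.dvd.mul_right (sub_dvd_pow_sub_pow _ _ _) _).neg_right

theorem th_X (i j : Fin p) : th i (X j : A k p) = if i = j then X j else 0 := by
  rw [X, th_mono]
  by_cases h : i = j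
  · subst h; simp
  · rw [if_neg h, Pi.single_eq_of_ne h]; simp

theorem vf_X (m : ℤ) (i : Fin p) : vf m (X i : A k p) = Xz i (m + 1) := by
  rw [vf, Finset.sum_eq_single i]
  · rw [th_X, if_pos rfl, Xz_add, Xz_one]
  · intro l _ hl
    rw [th_X, if_neg hl, mul_zero]
  · simp

theorem vf_sub (m : ℤ) (f g : A k p) : vf m (f - g) = vf m f - vf m g := by
  simp only [vf, map_sub, mul_sub, Finset.sum_sub_distrib]

theorem vf_one (m : ℤ) : vf m (1 : A k p) = 0 := by
  simp [vf]

theorem vf_prod_dvd {ι : Type*} (m : ℤ) (s : Finset ι) (f : ι → A k p)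
    (h : ∀ i ∈ s, f i ∣ vf m (f i)) : ∏ i ∈ s, f i ∣ vf m (∏ i ∈ s, f i) := by
  classical
  induction s using Finset.induction_on with
  | empty => simp
  | insert a s ha ih =>
    rw [Finset.prod_insert ha, vf_mul]
    refine dvd_add ?_ ?_
    · exact mul_dvd_mul (h a (Finset.mem_insert_self _ _)) dvd_rfl
    · exact mul_dvd_mul dvd_rfl (ih fun i hi => h i (Finset.mem_insert_of_mem hi))

theorem vf_Dd_dvd (m : ℤ) : (Dd p : A k p) ∣ vf m (Dd p) := by
  rw [Dd]
  refine vf_prod_dvd m _ _ ?_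
  intro x _
  rw [vf_sub, vf_X, vf_X]
  exact sub_dvd_Xz _ _ _

theorem vf_Dd_pow_dvd (m : ℤ) (L : ℕ) : (Dd p ^ L : A k p) ∣ vf m (Dd p ^ L) := by
  have := vf_prod_dvd (k := k) (p := p) m (Finset.range L) (fun _ => Dd p)
    (fun _ _ => vf_Dd_dvd m)
  simpa using this

theorem Lop_eq_vf (m : ℤ) (f : A k p) :
    Lop m f = vf m f - ((m : k) • ∑ i, Xz i m) * f := by
  rw [Lop_apply, vf, smul_mul_assoc, Finset.sum_mul, Finset.smul_sum, ← Finset.sum_sub_distrib]
  refine Finset.sum_congr rfl fun i _ => ?_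
  rw [mul_sub, mul_smul_comm]

theorem Lop_Dd (m : ℤ) (L : ℕ) (g : A k p) :
    ∃ g', Lop m (Dd p ^ L * g) = Dd p ^ L * g' := by
  obtain ⟨h, hh⟩ := vf_Dd_pow_dvd (k := k) (p := p) m L
  refine ⟨h * g + vf m g - ((m : k) • ∑ i, Xz i m) * g, ?_⟩
  rw [Lop_eq_vf, vf_mul, hh]
  ring

end laurent

section shift

variable {U : Type*} [Ring U] [Algebra k U] (W : WittFam k U)

/-- words with `w` inserted after the first letter -/
noncomputable def brw (e : ℤ → U) (w : U) : A k (p + 1) →ₗ[k] U :=
  lin (fun n => e (n 0) * w * br e (mono (fun i => n i.succ) : A k p))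

@[simp] theorem brw_mono (e : ℤ → U) (w : U) (n : Fin (p + 1) → ℤ) :
    brw e w (mono n : A k (p + 1)) = e (n 0) * w * br e (mono (fun i => n i.succ) : A k p) :=
  lin_mono _ _

theorem brw_one (e : ℤ → U) (F : A k (p + 1)) : brw e 1 F = br e F := by
  induction F using A_induction with
  | h0 => simp
  | hadd f g hf hg => rw [map_add, map_add, hf, hg]
  | hmono c n => rw [map_smul, map_smul, brw_mono, br_mono_succ, mul_one]

theorem brw_add (e : ℤ → U) (w w' : U) (F : A k (p + 1)) :
    brw e (w + w') F = brw e w F + brw e w' F := by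
  induction F using A_induction with
  | h0 => simp
  | hadd f g hf hg => simp only [map_add, hf, hg]; abel
  | hmono c n => simp only [map_smul, brw_mono, mul_add, add_mul, smul_add]

theorem brw_smul (e : ℤ → U) (c : k) (w : U) (F : A k (p + 1)) :
    brw e (c • w) F = c • brw e w F := by
  induction F using A_induction with
  | h0 => simp
  | hadd f g hf hg => simp only [map_add, hf, hg, smul_add]
  | hmono c' n =>
    simp only [map_smul, brw_mono, mul_smul_comm, smul_mul_assoc]
    rw [smul_comm]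

theorem brw_mul (m : ℤ) (w : U) (F : A k (p + 1)) :
    brw W.e (W.e m * w) F
      = W.e m * brw W.e w F + brw W.e w (Xz 0 m * ((m : k) • F - th 0 F)) := by
  induction F using A_induction with
  | h0 => simp
  | hadd f g hf hg =>
    have : (Xz 0 m * ((m : k) • (f + g) - th 0 (f + g)) : A k (p + 1))
        = Xz 0 m * ((m : k) • f - th 0 f) + Xz 0 m * ((m : k) • g - th 0 g) := by
      rw [smul_add, map_add]; ring
    rw [map_add, hf, hg, this, map_add, map_add]
    noncomm_ring
  | hmono c n =>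
    have h1 : (Xz 0 m * ((m : k) • (c • mono n) - th 0 (c • mono n)) : A k (p + 1))
        = c • (((m : k) - ((n 0 : ℤ) : k)) • mono (n + Pi.single 0 m)) := by
      rw [map_smul, th_mono, smul_comm (m : k) c, ← smul_sub, ← sub_smul, mul_smul_comm,
        mul_smul_comm, Xz, mono_mul, add_comm n]
    have h0 : (fun i : Fin p => (n + Pi.single 0 m : Fin (p + 1) → ℤ) i.succ)
        = fun i => n i.succ := by
      funext i; simp
    rw [h1]
    simp only [map_smul, brw_mono]
    rw [h0]
    have h2 : W.e (n 0) * W.e m = W.e m * W.e (n 0) + ((m : k) - ((n 0 : ℤ) : k)) • W.e (n 0 + m) := by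
      rw [← W.comm]; abel
    have h3 : (n + Pi.single 0 m : Fin (p + 1) → ℤ) 0 = n 0 + m := by simp
    rw [h3, ← mul_assoc (W.e (n 0)), h2, mul_smul_comm, ← smul_add]
    congr 1
    rw [add_mul, add_mul, smul_mul_assoc, smul_mul_assoc]
    noncomm_ring

theorem push_succ_zero (n : Fin p → ℤ) : push Fin.succ n 0 = 0 := by
  rw [push_apply]
  refine Finset.sum_eq_zero fun a _ => ?_
  rw [if_neg (Fin.succ_ne_zero a)]

theorem push_succ_succ (n : Fin p → ℤ) (i : Fin p) : push Fin.succ n i.succ = n i := by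
  rw [push_apply, Finset.sum_eq_single i]
  · simp
  · intro b _ hb
    rw [if_neg]
    intro h
    exact hb (Fin.succ_injective _ h)
  · simp

theorem brw_Xz (e : ℤ → U) (w : U) (a : ℤ) (h : A k p) :
    brw e w (Xz 0 a * sub Fin.succ h) = e a * w * br e h := by
  induction h using A_induction with
  | h0 => simp
  | hadd f g hf hg => rw [map_add, mul_add, map_add, hf, hg, map_add, mul_add]
  | hmono c n =>
    rw [map_smul, sub_mono, mul_smul_comm, map_smul, map_smul, mul_smul_comm, Xz, mono_mul,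
      brw_mono]
    have h1 : (Pi.single 0 a + push Fin.succ n : Fin (p + 1) → ℤ) 0 = a := by
      simp [push_succ_zero]
    have h2 : (fun i : Fin p => (Pi.single 0 a + push Fin.succ n : Fin (p + 1) → ℤ) i.succ) = n := by
      funext i
      simp [push_succ_succ]
    rw [h1, h2]

theorem th_Dd_pow_dvd (i : Fin p) (L : ℕ) : ∃ h : A k p, th i (Dd p ^ (L + 1)) = Dd p ^ L * h := by
  induction L with
  | zero => exact ⟨th i (Dd p), by simp⟩
  | succ L ih =>
    obtain ⟨h, hh⟩ := ih
    refine ⟨h + th i (Dd p), ?_⟩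
    rw [pow_succ, th_mul, hh]
    ring

theorem shift_aux (I : TwoSidedIdeal U) {M : ℕ} (hO : OO W I (p + 1) M) (w : U) :
    ∃ r : ℕ, ∀ L, r ≤ L → ∀ G : A k (p + 1), brw W.e w (Dd (p + 1) ^ L * G) ∈ I := by
  induction w using word_induction W with
  | h1 =>
    refine ⟨M, fun L hL G => ?_⟩
    obtain ⟨L', rfl⟩ := Nat.exists_eq_add_of_le hL
    rw [brw_one, pow_add, mul_assoc]
    exact hO _
  | hadd x y hx hy =>
    obtain ⟨r, hr⟩ := hx
    obtain ⟨r', hr'⟩ := hy
    refine ⟨max r r', fun L hL G => ?_⟩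
    rw [brw_add]
    exact I.add_mem (hr L (le_trans (le_max_left _ _) hL) G)
      (hr' L (le_trans (le_max_right _ _) hL) G)
  | hsmul c x hx =>
    obtain ⟨r, hr⟩ := hx
    refine ⟨r, fun L hL G => ?_⟩
    rw [brw_smul]
    exact smul_memI I c (hr L hL G)
  | hmul m x hx =>
    obtain ⟨r, hr⟩ := hx
    refine ⟨r + 1, fun L hL G => ?_⟩
    obtain ⟨L', rfl⟩ : ∃ L', L = L' + 1 := ⟨L - 1, by omega⟩
    rw [brw_mul]
    refine I.add_mem (I.mul_mem_left _ _ (hr _ (by omega) G)) ?_
    obtain ⟨h, hh⟩ := th_Dd_pow_dvd (k := k) (0 : Fin (p + 1)) L'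
    have : (Xz 0 m * ((m : k) • (Dd (p + 1) ^ (L' + 1) * G) - th 0 (Dd (p + 1) ^ (L' + 1) * G)) :
        A k (p + 1)) = Dd (p + 1) ^ L' * (Xz 0 m * ((m : k) • (Dd (p + 1) * G) - h * G
          - Dd (p + 1) * th 0 G)) := by
      rw [th_mul, hh, pow_succ, mul_assoc, ← mul_smul_comm]
      ring
    rw [this]
    exact hr _ (by omega) _

end shift

section factor

theorem Dd_eq_prod : (Dd p : A k p) = ∏ a : Fin p, ∏ b : Fin p, if a ≠ b then X a - X b else 1 := by
  rw [Dd, Finset.prod_filter, Fintype.prod_prod_type]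

theorem Dd_succ : (Dd (p + 1) : A k (p + 1))
    = (-1) ^ p * (sub Fin.succ (Dd p) * ∏ j : Fin p, (X 0 - X j.succ) ^ 2) := by
  rw [Dd_eq_prod, Fin.prod_univ_succ, Fin.prod_univ_succ]
  have h1 : ∀ a : Fin p, (∏ b : Fin (p + 1), if a.succ ≠ b then (X a.succ - X b : A k (p + 1)) else 1)
      = (X a.succ - X 0) * ∏ b : Fin p, if a ≠ b then X a.succ - X b.succ else 1 := by
    intro a
    rw [Fin.prod_univ_succ, if_pos (Fin.succ_ne_zero a)]
    congr 1
    refine Finset.prod_congr rfl fun b _ => ?_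
    by_cases h : a = b
    · subst h; simp
    · rw [if_pos h, if_pos]
      intro h'
      exact h (Fin.succ_injective _ h')
  rw [Finset.prod_congr rfl (fun a _ => h1 a), Finset.prod_mul_distrib]
  have h2 : (sub Fin.succ (Dd p) : A k (p + 1))
      = ∏ a : Fin p, ∏ b : Fin p, if a ≠ b then X a.succ - X b.succ else 1 := by
    rw [Dd_eq_prod, map_prod]
    refine Finset.prod_congr rfl fun a _ => ?_
    rw [map_prod]
    refine Finset.prod_congr rfl fun b _ => ?_
    split_ifs
    · rw [map_sub, sub_X, sub_X]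
    · rw [map_one]
  have h3 : ∏ a : Fin p, (X a.succ - X 0 : A k (p + 1))
      = (-1) ^ p * ∏ a : Fin p, (X 0 - X a.succ) := by
    have : ∀ a : Fin p, (X a.succ - X 0 : A k (p + 1)) = (-1) * (X 0 - X a.succ) := by
      intro a; ring
    rw [Finset.prod_congr rfl (fun a _ => this a), Finset.prod_mul_distrib]
    simp
  have h4 : ∏ b : Fin p, (if (0 : Fin (p + 1)) ≠ b.succ then (X 0 - X b.succ : A k (p + 1)) else 1)
      = ∏ b : Fin p, (X 0 - X b.succ) := by
    refine Finset.prod_congr rfl fun b _ => ?_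
    rw [if_pos (Fin.succ_ne_zero b).symm]
  rw [h2, h3, h4, Finset.prod_pow]
  simp only [ne_eq, not_true_eq_false, if_false, one_mul]
  ring

/-- the polynomial `∏ (T - X_j)^{2L}` -/
noncomputable def Pz (k : Type*) [Field k] (p L : ℕ) : Polynomial (A k p) :=
  (∏ j : Fin p, (Polynomial.X - Polynomial.C (X j)) ^ 2) ^ L

theorem Pz_coeff_zero (L : ℕ) : (Pz k p L).coeff 0 = E p ^ (2 * L) := by
  rw [Polynomial.coeff_zero_eq_eval_zero, Pz, Polynomial.eval_pow, Polynomial.eval_prod,
    E_eq_prod, pow_mul]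
  congr 1
  rw [← Finset.prod_pow]
  refine Finset.prod_congr rfl fun i _ => ?_
  simp

theorem Pz_eval (L : ℕ) :
    (∏ j : Fin p, (X 0 - X j.succ : A k (p + 1)) ^ 2) ^ L
      = ∑ l ∈ Finset.range ((Pz k p L).natDegree + 1),
          sub Fin.succ ((Pz k p L).coeff l) * (X 0) ^ l := by
  have := Polynomial.eval₂_eq_sum_range (p := Pz k p L) ((sub Fin.succ : A k p →ₐ[k] A k (p + 1)) :
    A k p →+* A k (p + 1)) (X 0)
  simp only [RingHom.coe_coe] at this
  rw [← this, Pz, Polynomial.eval₂_pow, Polynomial.eval₂_finsetProd]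
  congr 1
  refine Finset.prod_congr rfl fun i _ => ?_
  rw [Polynomial.eval₂_pow, Polynomial.eval₂_sub, Polynomial.eval₂_X, Polynomial.eval₂_C]
  congr 2
  exact (sub_X Fin.succ i).symm

end factor

section shift2

variable {U : Type*} [Ring U] [Algebra k U] (W : WittFam k U)

theorem shift_lemma (I : TwoSidedIdeal U) {M : ℕ} (hO : OO W I (p + 1) M) (w : U) :
    ∃ r : ℕ, ∀ L, r ≤ L → ∀ (n : ℤ) (g : A k p),
      ∑ l ∈ Finset.range ((Pz k p L).natDegree + 1),
        W.e (n + l) * w * br W.e ((Pz k p L).coeff l * (Dd p ^ L * g)) ∈ I := by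
  obtain ⟨r, hr⟩ := shift_aux W I hO w
  refine ⟨r, fun L hL n g => ?_⟩
  have := hr L hL (((-1) ^ p) ^ L * (Xz 0 n * sub Fin.succ g))
  have h1 : (Dd (p + 1) ^ L * (((-1) ^ p) ^ L * (Xz 0 n * sub Fin.succ g)) : A k (p + 1))
      = ∑ l ∈ Finset.range ((Pz k p L).natDegree + 1),
          Xz 0 (n + l) * sub Fin.succ ((Pz k p L).coeff l * (Dd p ^ L * g)) := by
    rw [Dd_succ, mul_pow, mul_pow, Pz_eval, Finset.mul_sum, Finset.mul_sum, Finset.sum_mul]
    refine Finset.sum_congr rfl fun l _ => ?_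
    rw [Xz_add, Xz_natCast, map_mul, map_mul, map_pow]
    have h2 : ((-1 : A k (p + 1)) ^ p) ^ L * ((-1) ^ p) ^ L = 1 := by
      rw [← mul_pow, ← mul_pow]; simp
    linear_combination (sub Fin.succ (Dd p) ^ L * (sub Fin.succ ((Pz k p L).coeff l) * X 0 ^ l) *
      (Xz 0 n * sub Fin.succ g)) * h2
  rw [h1, map_sum] at this
  simpa only [brw_Xz] using this

theorem ann_lemma (P : TwoSidedIdeal U) (hP : IsPrimeI P) {d : ℕ} (hN : ∀ M', ¬ OO W P d M')
    (L : ℕ) (z : U) (h : ∀ g : A k d, z * br W.e (Dd d ^ L * g) ∈ P) : z ∈ P := by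
  have key : ∀ u : U, ∀ g : A k d, z * u * br W.e (Dd d ^ L * g) ∈ P := by
    intro u
    refine word_induction_right W (P := fun z => ∀ g : A k d, z * br W.e (Dd d ^ L * g) ∈ P)
      ?_ ?_ ?_ u z h
    · intro x y hx hy g
      rw [add_mul]
      exact P.add_mem (hx g) (hy g)
    · intro c x hx g
      rw [smul_mul_assoc]
      exact smul_memI P c (hx g)
    · intro m x hx g
      obtain ⟨g', hg'⟩ := Lop_Dd (k := k) (p := d) m L g
      have h1 := ad_br W m (Dd d ^ L * g)
      have h2 : x * W.e m * br W.e (Dd d ^ L * g)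
          = x * br W.e (Dd d ^ L * g) * W.e m + x * br W.e (Dd d ^ L * g') := by
        rw [← hg', ← h1]
        noncomm_ring
      rw [h2]
      exact P.add_mem (P.mul_mem_right _ _ (hx g)) (hx g')
  have h2 := hN L
  rw [OO] at h2
  push Not at h2
  obtain ⟨g, hg⟩ := h2
  exact (hP.2 z _ fun u => key u g).resolve_right hg

end shift2

section propagation

variable {U : Type*} [Ring U] [Algebra k U] (W : WittFam k U)

theorem E_mul_inv (n : ℕ) : (E p ^ n : A k p) * mono (fun _ => -(n : ℤ)) = 1 := by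
  have h : (E p ^ n : A k p) = mono (fun _ => (n : ℤ)) := by
    induction n with
    | zero => simp only [pow_zero, Nat.cast_zero]; rfl
    | succ n ih =>
      rw [pow_succ, ih, E, mono_mul]
      congr 1
  rw [h, mono_mul, ← mono_zero]
  congr 1
  funext i
  simp

/-- Propagation -/
theorem propagation (P : TwoSidedIdeal U) (hP : IsPrimeI P) {d M : ℕ} (hO : OO W P (d + 1) M)
    (hN : ∀ M', ¬ OO W P d M') {ι : Type*} (s : Finset ι) (x w : ι → U) (κ : ι → ℤ) (n₀ : ℤ)
    (h : ∀ n, n₀ ≤ n → ∑ i ∈ s, x i * W.e (n + κ i) * w i ∈ P) (n : ℤ) :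
    ∑ i ∈ s, x i * W.e (n + κ i) * w i ∈ P := by
  classical
  choose r hr using fun i : ι => shift_lemma W P hO (w i)
  set L := s.sup r with hL
  have hr' : ∀ i ∈ s, r i ≤ L := fun i hi => Finset.le_sup hi
  have key : ∀ m : ℕ, ∀ n : ℤ, n₀ - m ≤ n → ∑ i ∈ s, x i * W.e (n + κ i) * w i ∈ P := by
    intro m
    induction m with
    | zero => intro n hn; exact h n (by simpa using hn)
    | succ m ih =>
      intro n hn
      rcases le_or_gt (n₀ - m) n with h1 | h1
      · exact ih n h1
      refine ann_lemma W P hP hN L _ fun g => ?_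
      have h2 : ∀ i ∈ s, ∑ l ∈ Finset.range ((Pz k d L).natDegree + 1),
          x i * (W.e (n + κ i + l) * w i * br W.e ((Pz k d L).coeff l * (Dd d ^ L *
            (mono (fun _ => -((2 * L : ℕ) : ℤ)) * g)))) ∈ P := by
        intro i hi
        rw [← Finset.mul_sum]
        exact P.mul_mem_left _ _ (hr i L (hr' i hi) (n + κ i) _)
      have h3 := sum_mem h2
      rw [Finset.sum_comm, Finset.sum_range_succ'] at h3
      have h4 : ∑ l ∈ Finset.range (Pz k d L).natDegree, ∑ i ∈ s,
          x i * (W.e (n + κ i + (l + 1 : ℕ)) * w i * br W.e ((Pz k d L).coeff (l + 1) * (Dd d ^ L *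
            (mono (fun _ => -((2 * L : ℕ) : ℤ)) * g)))) ∈ P := by
        refine sum_mem fun l _ => ?_
        have h5 := ih (n + (l + 1 : ℕ)) (by push_cast; push_cast at hn; omega)
        have h6 := P.mul_mem_right _ (br W.e ((Pz k d L).coeff (l + 1) * (Dd d ^ L *
            (mono (fun _ => -((2 * L : ℕ) : ℤ)) * g)))) h5
        rw [Finset.sum_mul] at h6
        convert h6 using 1
        refine Finset.sum_congr rfl fun i _ => ?_
        rw [add_right_comm n]
        noncomm_ring
      have h7 := P.sub_mem h3 h4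
      rw [add_sub_cancel_left] at h7
      convert h7 using 1
      rw [Finset.sum_mul]
      refine Finset.sum_congr rfl fun i _ => ?_
      have h8 : ((Pz k d L).coeff 0 * (Dd d ^ L * (mono (fun _ => -((2 * L : ℕ) : ℤ)) * g)) : A k d)
          = Dd d ^ L * g := by
        rw [Pz_coeff_zero]
        linear_combination (Dd d ^ L * g) * E_mul_inv (k := k) (p := d) (2 * L)
      rw [h8, Nat.cast_zero, add_zero]
      noncomm_ring
  exact key (n₀ - n).toNat n (by omega)

/-- propagation for functions in the span of the basic ones -/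
theorem propagation_span (P : TwoSidedIdeal U) (hP : IsPrimeI P) {d M : ℕ}
    (hO : OO W P (d + 1) M) (hN : ∀ M', ¬ OO W P d M') {Y : ℤ → U}
    (hY : Y ∈ Submodule.span k {f : ℤ → U | ∃ x w κ, f = fun t => x * W.e (t + κ) * w}) (n₀ : ℤ)
    (h : ∀ n, n₀ ≤ n → Y n ∈ P) (n : ℤ) : Y n ∈ P := by
  obtain ⟨r, c, f, rfl⟩ := Submodule.mem_span_set'.1 hY
  choose x w κ hf using fun i : Fin r => (f i).2
  have h1 : ∀ t, (∑ i, c i • (f i : ℤ → U)) t = ∑ i, (c i • x i) * W.e (t + κ i) * w i := by
    intro t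
    rw [Finset.sum_apply]
    refine Finset.sum_congr rfl fun i _ => ?_
    rw [Pi.smul_apply, hf i, smul_mul_assoc, smul_mul_assoc]
  rw [h1]
  exact propagation W P hP hO hN _ _ _ _ n₀ (fun m hm => by rw [← h1]; exact h m hm) n

theorem OO_zero (P : TwoSidedIdeal U) (M : ℕ) (h : OO W P 0 M) : (1 : U) ∈ P := by
  have := h 1
  have h1 : (Dd 0 ^ M * 1 : A k 0) = mono 0 := by
    rw [Dd_eq_prod, Fin.prod_univ_zero, one_pow, mul_one]; rfl
  rw [h1, br_mono] at this
  simpa using this

theorem eq_top_of_one_mem (P : TwoSidedIdeal U) (h : (1 : U) ∈ P) : P = ⊤ := by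
  refine TwoSidedIdeal.ext fun x => ⟨fun _ => trivial, fun _ => ?_⟩
  simpa using P.mul_mem_left x 1 h

theorem exists_min_OO (P : TwoSidedIdeal U) (hP : IsPrimeI P) (hO : ∃ d M, OO W P d M) :
    ∃ d, (∃ M, OO W P (d + 1) M) ∧ ∀ M', ¬ OO W P d M' := by
  classical
  have h1 := Nat.find_spec hO
  set d := Nat.find hO with hd
  rcases Nat.eq_zero_or_pos d with h0 | h0
  · rw [h0] at h1
    obtain ⟨M, hM⟩ := h1
    exact absurd (eq_top_of_one_mem P (OO_zero W P M hM)) hP.1
  · refine ⟨d - 1, ?_, ?_⟩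
    · rwa [Nat.sub_add_cancel h0]
    · intro M' hM'
      exact Nat.find_min hO (m := d - 1) (by omega) ⟨M', hM'⟩

theorem e_mem_minus {m : ℤ} (hm : -1 ≤ m) : W.e m ∈ W.minus :=
  Algebra.subset_adjoin ⟨m, hm, rfl⟩

/-- part (1) -/
theorem minus_prime (P : TwoSidedIdeal U) (hP : IsPrimeI P) (hO : ∃ d M, OO W P d M) (a b : U)
    (h : ∀ w ∈ W.minus, a * w * b ∈ P) : a ∈ P ∨ b ∈ P := by
  obtain ⟨d, ⟨M, hM⟩, hN⟩ := exists_min_OO W P hP hO
  refine hP.2 a b fun u => ?_
  have key : ∀ w ∈ W.minus, a * (1 * u) * w * b ∈ P := by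
    refine word_induction_right W (P := fun u => ∀ w ∈ W.minus, a * u * w * b ∈ P) ?_ ?_ ?_ u 1 ?_
    · intro x y hx hy w hw
      have := P.add_mem (hx w hw) (hy w hw)
      convert this using 1
      noncomm_ring
    · intro c x hx w hw
      have := smul_memI P c (hx w hw)
      convert this using 1
      simp only [mul_smul_comm, smul_mul_assoc]
    · intro m x hx w hw
      have h1 := propagation W P hP hM hN (Finset.univ : Finset Unit) (fun _ => a * x)
        (fun _ => w * b) (fun _ => 0) (-1) ?_ m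
      · simp only [Finset.univ_unique, Finset.sum_singleton, add_zero] at h1
        convert h1 using 1
        noncomm_ring
      · intro n hn
        simp only [Finset.univ_unique, Finset.sum_singleton, add_zero]
        have := hx (W.e n * w) (mul_mem (e_mem_minus W hn) hw)
        convert this using 1
        noncomm_ring
    · intro w hw
      simpa using h w hw
  have := key 1 (one_mem _)
  simpa using this

end propagation

section blackbox

variable {U : Type*} [Ring U] [Algebra k U] (W : WittFam k U)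

theorem coeff_mul_memS (S : Subalgebra k (A k p)) {f g : Polynomial (A k p)}
    (hf : ∀ l, f.coeff l ∈ S) (hg : ∀ l, g.coeff l ∈ S) (l : ℕ) : (f * g).coeff l ∈ S := by
  rw [Polynomial.coeff_mul]
  exact Subalgebra.sum_mem _ fun x _ => mul_mem (hf _) (hg _)

theorem coeff_prod_memS (S : Subalgebra k (A k p)) {ι : Type*} (s : Finset ι)
    (f : ι → Polynomial (A k p)) (hf : ∀ i ∈ s, ∀ l, (f i).coeff l ∈ S) (l : ℕ) :
    (∏ i ∈ s, f i).coeff l ∈ S := by
  classical
  induction s using Finset.induction_on generalizing l with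
  | empty =>
    rw [Finset.prod_empty, Polynomial.coeff_one]
    split_ifs
    · exact one_mem _
    · exact zero_mem _
  | insert a s ha ih =>
    rw [Finset.prod_insert ha]
    exact coeff_mul_memS S (hf a (Finset.mem_insert_self _ _))
      (fun l => ih (fun i hi => hf i (Finset.mem_insert_of_mem hi)) l) l

theorem coeff_pow_memS (S : Subalgebra k (A k p)) {f : Polynomial (A k p)}
    (hf : ∀ l, f.coeff l ∈ S) (n l : ℕ) : (f ^ n).coeff l ∈ S := by
  have := coeff_prod_memS S (Finset.range n) (fun _ => f) (fun _ _ => hf) l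
  simpa using this

theorem Pz_coeff_memS (L l : ℕ) :
    (Pz k p L).coeff l ∈ Algebra.adjoin k (Set.range (X : Fin p → A k p)) := by
  refine coeff_pow_memS _ (fun l => coeff_prod_memS _ _ _
    (fun i _ l => coeff_pow_memS _ (fun l => ?_) _ _) l) _ _
  rw [Polynomial.coeff_sub, Polynomial.coeff_X, Polynomial.coeff_C]
  refine sub_mem ?_ ?_
  · split_ifs
    · exact one_mem _
    · exact zero_mem _
  · split_ifs
    · exact Algebra.subset_adjoin ⟨i, rfl⟩
    · exact zero_mem _

/-- shift lemma, black box form -/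
theorem shift (I : TwoSidedIdeal U) {d M : ℕ} (hO : OO W I (d + 1) M) (w : U) :
    ∃ (L m : ℕ) (c : ℕ → A k d), c 0 = E d ^ (2 * L) ∧
      (∀ l, c l ∈ Algebra.adjoin k (Set.range (X : Fin d → A k d))) ∧
      ∀ (n : ℤ) (g : A k d),
        ∑ l ∈ Finset.range (m + 1), W.e (n + l) * w * br W.e (c l * Dd d ^ L * g) ∈ I := by
  obtain ⟨r, hr⟩ := shift_lemma W I hO w
  refine ⟨r, (Pz k d r).natDegree, fun l => (Pz k d r).coeff l, Pz_coeff_zero r,
    fun l => Pz_coeff_memS r l, fun n g => ?_⟩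
  simpa only [mul_assoc] using hr r le_rfl n g

/-- annihilator lemma, black box form -/
theorem ann (P : TwoSidedIdeal U) (hP : IsPrimeI P) {d M : ℕ} (_hO : OO W P (d + 1) M)
    (hN : ∀ M', ¬ OO W P d M') (z : U) (L : ℕ) (h : ∀ g : A k d, z * br W.e (Dd d ^ L * g) ∈ P) :
    z ∈ P := ann_lemma W P hP hN L z h

end blackbox

end Pool.WittPrimes
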