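import Pool.Agent.WittPrimes.Key

/-!
# Adjoint action, swap lemma and the length filtration
-/

namespace Pool.WittPrimes
open Finset
variable {k : Type*} [Field k] {p q j d : ℕ}
variable {U : Type*} [Ring U] [Algebra k U] (W : WittFam k U)

theorem br_zero_eq (e : ℤ → U) (n : Fin 0 → ℤ) : br e (mono n : A k 0) = 1 := by simp

theorem br_succ (e : ℤ → U) (n : Fin (p + 1) → ℤ) :
    br e (mono n : A k (p + 1)) = e (n 0) * br e (mono (Fin.tail n) : A k p) := by
  rw [br_mono, br_mono, List.ofFn_succ, List.prod_cons]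
  rfl

theorem tail_add_zero (n : Fin (p + 1) → ℤ) (m : ℤ) :
    Fin.tail (n + Pi.single 0 m) = Fin.tail n := by
  ext i
  simp [Fin.tail, Pi.single_apply]

theorem tail_add_succ (n : Fin (p + 1) → ℤ) (i : Fin p) (m : ℤ) :
    Fin.tail (n + Pi.single i.succ m) = Fin.tail n + Pi.single i m := by
  ext a
  simp [Fin.tail, Pi.single_apply]

theorem ad_br_mono (m : ℤ) (n : Fin p → ℤ) :
    W.e m * br W.e (mono n : A k p) - br W.e (mono n : A k p) * W.e m =
      ∑ i, ((n i : ℤ) - m : k) • br W.e (mono (n + Pi.single i m) : A k p) := by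
  induction p with
  | zero => simp
  | succ p ih =>
    have ih' := ih (Fin.tail n)
    rw [br_succ, Fin.sum_univ_succ, br_succ, tail_add_zero]
    have e2 : ∀ i : Fin p, br W.e (mono (n + Pi.single i.succ m) : A k (p + 1)) =
        W.e (n 0) * br W.e (mono (Fin.tail n + Pi.single i m) : A k p) := by
      intro i
      rw [br_succ, tail_add_succ]
      simp
    simp only [e2]
    have e3 : ∑ i : Fin p, ((n i.succ : ℤ) - m : k) •
        (W.e (n 0) * br W.e (mono (Fin.tail n + Pi.single i m) : A k p)) =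
        W.e (n 0) * (W.e m * br W.e (mono (Fin.tail n) : A k p) -
          br W.e (mono (Fin.tail n) : A k p) * W.e m) := by
      rw [ih', Finset.mul_sum]
      refine Finset.sum_congr rfl fun i _ => ?_
      rw [mul_smul_comm]; rfl
    rw [e3]
    have e4 : (((n 0 : ℤ) : k) - m) • (W.e ((n + Pi.single 0 m : Fin (p + 1) → ℤ) 0) *
        br W.e (mono (Fin.tail n) : A k p)) =
        (W.e m * W.e (n 0) - W.e (n 0) * W.e m) * br W.e (mono (Fin.tail n) : A k p) := by
      rw [W.comm]
      simp only [Pi.add_apply, Pi.single_eq_same, smul_mul_assoc]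
      rw [add_comm m]
    rw [e4]
    noncomm_ring

/-- ad-equivariance -/
theorem ad_br (m : ℤ) (h : A k p) :
    W.e m * br W.e h - br W.e h * W.e m = br W.e (Lop m h) := by
  induction h using A_induction with
  | h0 => simp
  | hadd f g hf hg => rw [map_add, map_add, map_add, ← hf, ← hg]; noncomm_ring
  | hmono c n =>
    rw [map_smul, mul_smul_comm, smul_mul_assoc, ← smul_sub, ad_br_mono, map_smul, map_smul,
      Lop_mono, map_sum]
    simp only [map_smul]

/-- `y ↦ e_m y - y e_m` -/
noncomputable def adE (m : ℤ) : Module.End k U :=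
  LinearMap.mulLeft k (W.e m) - LinearMap.mulRight k (W.e m)

theorem adE_apply (m : ℤ) (y : U) : adE W m y = W.e m * y - y * W.e m := by
  simp [adE]

/-- words acting on `U` by the adjoint action -/
noncomputable def opU : A k p →ₗ[k] Module.End k U :=
  lin (fun m => (List.ofFn fun a => adE W (m a)).prod)

theorem opU_mono_zero (m : Fin 0 → ℤ) : opU W (mono m : A k 0) = 1 := by
  simp [opU]

theorem opU_mono_succ (m : Fin (p + 1) → ℤ) :
    opU W (mono m : A k (p + 1)) = adE W (m 0) * opU W (mono (Fin.tail m) : A k p) := by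
  rw [opU, lin_mono, opU, lin_mono, List.ofFn_succ, List.prod_cons]
  rfl

theorem opU_mem (I : TwoSidedIdeal U) {u : U} (hu : u ∈ I) (f : A k p) : opU W f u ∈ I := by
  induction f using A_induction with
  | h0 => simpa using I.zero_mem
  | hadd f g hf hg => rw [map_add, LinearMap.add_apply]; exact I.add_mem hf hg
  | hmono c m =>
    rw [map_smul, LinearMap.smul_apply, ← smul_one_mul]
    refine I.mul_mem_left _ _ ?_
    induction p with
    | zero => rw [opU_mono_zero]; simpa using hu
    | succ p ih =>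
      rw [opU_mono_succ, Module.End.mul_apply, adE_apply]
      exact I.sub_mem (I.mul_mem_left _ _ (ih _)) (I.mul_mem_right _ _ (ih _))

theorem opU_br (f : A k p) (h : A k j) : opU W f (br W.e h) = br W.e (opA f h) := by
  induction f using A_induction with
  | h0 => simp
  | hadd f g hf hg => rw [map_add, LinearMap.add_apply, hf, hg, map_add, LinearMap.add_apply,
      map_add]
  | hmono c m =>
    rw [map_smul, map_smul, LinearMap.smul_apply, LinearMap.smul_apply, map_smul]
    congr 1
    rw [opA_mono]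
    induction p with
    | zero => rw [opU_mono_zero, word_zero]; rfl
    | succ p ih =>
      rw [opU_mono_succ, word_succ, Module.End.mul_apply, Module.End.mul_apply, ih, adE_apply,
        ad_br]

/-! ### filtration -/

/-- words of length `< d` -/
def Fil (e : ℤ → U) (d : ℕ) : Submodule k U :=
  Submodule.span k {x | ∃ l : List ℤ, l.length < d ∧ x = (l.map e).prod}

theorem Fil_mono (e : ℤ → U) {d d' : ℕ} (h : d ≤ d') : (Fil e d : Submodule k U) ≤ Fil e d' :=
  Submodule.span_mono (fun _ ⟨l, hl, hx⟩ => ⟨l, lt_of_lt_of_le hl h, hx⟩)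

theorem word_mem_Fil (e : ℤ → U) (l : List ℤ) {d : ℕ} (h : l.length < d) :
    (l.map e).prod ∈ (Fil e d : Submodule k U) :=
  Submodule.subset_span ⟨l, h, rfl⟩

theorem br_mono_mem (e : ℤ → U) (n : Fin p → ℤ) {d : ℕ} (h : p < d) :
    br e (mono n : A k p) ∈ (Fil e d : Submodule k U) := by
  rw [br_mono]
  have := word_mem_Fil (k := k) e (List.ofFn n) (d := d) (by simpa using h)
  rwa [List.map_ofFn] at this

theorem Fil_zero (e : ℤ → U) : (Fil e 0 : Submodule k U) = ⊥ := by
  rw [Fil, Submodule.span_eq_bot]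
  rintro x ⟨l, hl, _⟩
  exact absurd hl (Nat.not_lt_zero _)

theorem word_eq_br (e : ℤ → U) (l : List ℤ) :
    (l.map e).prod = br e (mono (fun i : Fin l.length => l.get i) : A k l.length) := by
  rw [br_mono]
  congr 1
  conv_lhs => rw [← List.ofFn_get l, List.map_ofFn]
  rfl

theorem Fil_succ (e : ℤ → U) (d : ℕ) {u : U} (hu : u ∈ (Fil e (d + 1) : Submodule k U)) :
    ∃ (h : A k d) (v : U), v ∈ (Fil e d : Submodule k U) ∧ u = br e h + v := by
  refine Submodule.span_induction ?_ ?_ ?_ ?_ hu
  · rintro x ⟨l, hl, rfl⟩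
    rcases Nat.lt_succ_iff_lt_or_eq.mp hl with h | h
    · exact ⟨0, _, word_mem_Fil e l h, by simp⟩
    · subst h
      exact ⟨_, 0, Submodule.zero_mem _, by rw [add_zero]; exact word_eq_br e l⟩
  · exact ⟨0, 0, Submodule.zero_mem _, by simp⟩
  · rintro x y _ _ ⟨h, v, hv, rfl⟩ ⟨h', v', hv', rfl⟩
    exact ⟨h + h', v + v', Submodule.add_mem _ hv hv', by rw [map_add]; abel⟩
  · rintro c x _ ⟨h, v, hv, rfl⟩
    exact ⟨c • h, c • v, Submodule.smul_mem _ _ hv, by rw [map_smul, smul_add]⟩

theorem exists_Fil (u : U) : ∃ d, u ∈ (Fil W.e d : Submodule k U) := by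
  have hu : u ∈ Algebra.adjoin k (Set.range W.e) := by rw [W.gen]; trivial
  rw [← Subalgebra.mem_toSubmodule, Algebra.adjoin_eq_span] at hu
  refine Submodule.span_induction ?_ ?_ ?_ ?_ hu
  · intro x hx
    obtain ⟨l, hl, rfl⟩ := Submonoid.exists_list_of_mem_closure hx
    have : ∃ l' : List ℤ, l = l'.map W.e := by
      clear hx
      induction l with
      | nil => exact ⟨[], rfl⟩
      | cons a l ih =>
        obtain ⟨l', hl'⟩ := ih (fun y hy => hl y (List.mem_cons_of_mem _ hy))
        obtain ⟨n, hn⟩ := hl a List.mem_cons_self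
        exact ⟨n :: l', by rw [List.map_cons, hn, ← hl']⟩
    obtain ⟨l', rfl⟩ := this
    exact ⟨l'.length + 1, word_mem_Fil _ _ (Nat.lt_succ_self _)⟩
  · exact ⟨0, Submodule.zero_mem _⟩
  · rintro x y _ _ ⟨d, hd⟩ ⟨d', hd'⟩
    exact ⟨max d d', Submodule.add_mem _ (Fil_mono _ (le_max_left _ _) hd)
      (Fil_mono _ (le_max_right _ _) hd')⟩
  · rintro c x _ ⟨d, hd⟩
    exact ⟨d, Submodule.smul_mem _ _ hd⟩

/-- an operator killing all short words kills the filtration -/
theorem opU_Fil (f : A k p) (d : ℕ) (hf : ∀ j < d, ∀ h : A k j, opA f h = 0) {v : U}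
    (hv : v ∈ (Fil W.e d : Submodule k U)) : opU W f v = 0 := by
  refine Submodule.span_induction ?_ ?_ ?_ ?_ hv
  · rintro x ⟨l, hl, rfl⟩
    rw [word_eq_br (k := k), opU_br, hf _ hl, map_zero]
  · simp
  · rintro x y _ _ hx hy; rw [map_add, hx, hy, add_zero]
  · rintro c x _ hx; rw [map_smul, hx, smul_zero]

/-! ### swaps -/

theorem split_list (n : Fin (p + 1) → ℤ) (i : Fin p) : ∃ l r : List ℤ, l.length + r.length + 1 = p ∧
    ∀ a b, List.ofFn (Function.update (Function.update n i.castSucc a) i.succ b) =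
      l ++ a :: b :: r := by
  induction p with
  | zero => exact i.elim0
  | succ p ih =>
    induction i using Fin.cases with
    | zero =>
      refine ⟨[], List.ofFn (fun x : Fin p => n x.succ.succ), by simp, ?_⟩
      intro a b
      rw [List.ofFn_succ, List.ofFn_succ]
      simp [Function.update_apply, Fin.succ_ne_zero, Fin.ext_iff]
    | succ i =>
      obtain ⟨l, r, hlr, h⟩ := ih (Fin.tail n) i
      refine ⟨n 0 :: l, r, by simp; omega, ?_⟩
      intro a b
      rw [List.ofFn_succ, List.cons_append, ← h a b]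
      congr 1
      congr 1
      ext x
      simp only [Function.update_apply, Fin.tail, Fin.ext_iff, Fin.val_succ, Fin.val_castSucc]
      simp

end Pool.WittPrimes
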